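import Mathlib

/-! Basic calculus of weak gradients in the plane, exponent 4. -/

open MeasureTheory Set Filter Topology
open scoped ContDiff InnerProductSpace ENNReal Gradient

namespace Pool.Agent.MP_e9cdae_an

abbrev E := EuclideanSpace ℝ (Fin 2)

structure W (u : E → ℝ) (g : E → E) : Prop where
  cont : Continuous u
  memLp : MemLp g 4 volume
  weak : ∀ φ : E → ℝ, ContDiff ℝ ∞ φ → HasCompactSupport φ → ∀ v : E,
    ∫ x, u x * fderiv ℝ φ x v = - ∫ x, ⟪g x, v⟫_ℝ * φ x

noncomputable def En (g : E → E) : ℝ := ∫ x, ‖g x‖ ^ 4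

lemma En_nonneg (g : E → E) : 0 ≤ En g := integral_nonneg fun x => by positivity

lemma int4 {g : E → E} (hg : MemLp g 4 volume) : Integrable (fun x => ‖g x‖ ^ 4) := by
  have := MemLp.integrable_norm_pow (p := 4) (f := g) (μ := volume) (by simpa using hg) (by norm_num)
  exact this

lemma memLp4_of {g : E → E} (hm : AEStronglyMeasurable g volume)
    (hi : Integrable (fun x => ‖g x‖ ^ 4)) : MemLp g 4 volume := by
  rw [← integrable_norm_rpow_iff hm (by norm_num) (by norm_num)]
  have : ((4 : ℝ≥0∞).toReal) = ((4 : ℕ) : ℝ) := by norm_num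
  simp_rw [this, Real.rpow_natCast]
  exact hi

lemma cont_fderiv_apply {φ : E → ℝ} (hφ : ContDiff ℝ ∞ φ) (v : E) :
    Continuous fun x => fderiv ℝ φ x v :=
  (hφ.continuous_fderiv (by simp)).clm_apply continuous_const

lemma cs_fderiv_apply {φ : E → ℝ} (hc : HasCompactSupport φ) (v : E) :
    HasCompactSupport fun x => fderiv ℝ φ x v :=
  hc.fderiv_apply (𝕜 := ℝ) v

lemma int_left {u φ : E → ℝ} (hu : Continuous u) (hφ : ContDiff ℝ ∞ φ)
    (hc : HasCompactSupport φ) (v : E) : Integrable (fun x => u x * fderiv ℝ φ x v) :=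
  (hu.mul (cont_fderiv_apply hφ v)).integrable_of_hasCompactSupport
    (cs_fderiv_apply hc v).mul_left

lemma locInt_inner {g : E → E} (hg : MemLp g 4 volume) (v : E) :
    LocallyIntegrable (fun x => ⟪g x, v⟫_ℝ) volume := by
  have h1 : MemLp (fun x => ⟪g x, v⟫_ℝ) 4 volume := by
    have := (innerSL ℝ v).comp_memLp' hg
    refine this.congr_norm ?_ ?_
    · exact (hg.1.inner aestronglyMeasurable_const)
    · filter_upwards with x
      simp [real_inner_comm]
  exact h1.locallyIntegrable (by norm_num)

lemma int_right {g : E → E} (hg : MemLp g 4 volume) {φ : E → ℝ} (hφ : Continuous φ)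
    (hc : HasCompactSupport φ) (v : E) : Integrable (fun x => ⟪g x, v⟫_ℝ * φ x) :=
  (locInt_inner hg v).integrable_smul_right_of_hasCompactSupport hφ hc

lemma W.add {u u' : E → ℝ} {g g' : E → E} (h : W u g) (h' : W u' g') :
    W (fun x => u x + u' x) (fun x => g x + g' x) where
  cont := h.cont.add h'.cont
  memLp := h.memLp.add h'.memLp
  weak φ hφ hc v := by
    simp_rw [add_mul, inner_add_left, add_mul]
    rw [integral_add (int_left h.cont hφ hc v) (int_left h'.cont hφ hc v),
      integral_add (int_right h.memLp hφ.continuous hc v) (int_right h'.memLp hφ.continuous hc v),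
      h.weak φ hφ hc v, h'.weak φ hφ hc v]
    ring

lemma W.smul {u : E → ℝ} {g : E → E} (h : W u g) (c : ℝ) :
    W (fun x => c * u x) (fun x => c • g x) where
  cont := continuous_const.mul h.cont
  memLp := h.memLp.const_smul c
  weak φ hφ hc v := by
    simp_rw [inner_smul_left, mul_assoc, conj_trivial]
    rw [integral_const_mul, integral_const_mul, h.weak φ hφ hc v]
    ring

lemma W.sub {u u' : E → ℝ} {g g' : E → E} (h : W u g) (h' : W u' g') :
    W (fun x => u x - u' x) (fun x => g x - g' x) := by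
  have := h.add (h'.smul (-1))
  simpa [sub_eq_add_neg] using this

lemma W.congr {u u' : E → ℝ} {g g' : E → E} (h : W u g) (hu : ∀ x, u' x = u x)
    (hg : ∀ x, g' x = g x) : W u' g' := by
  have h1 : u' = u := funext hu
  have h2 : g' = g := funext hg
  rw [h1, h2]; exact h

lemma W.const (c : ℝ) : W (fun _ => c) (fun _ => 0) where
  cont := continuous_const
  memLp := MemLp.zero
  weak φ hφ hc v := by
    have := integral_mul_fderiv_eq_neg_fderiv_mul_of_integrable (μ := (volume : Measure E))
      (f := fun _ : E => c) (g := φ) (v := v) (by simp) (int_left continuous_const hφ hc v)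
      ((continuous_const.mul hφ.continuous).integrable_of_hasCompactSupport hc.mul_left)
      (fun x _ => differentiableAt_const c)
      (fun x _ => (hφ.differentiable (by simp)) x)
    simpa using this

lemma cont_grad {η : E → ℝ} (hη : ContDiff ℝ ∞ η) : Continuous (∇ η) := by
  have : (∇ η) = fun x => (InnerProductSpace.toDual ℝ E).symm (fderiv ℝ η x) := rfl
  rw [this]
  exact (InnerProductSpace.toDual ℝ E).symm.continuous.comp (hη.continuous_fderiv (by simp))

lemma norm_grad (η : E → ℝ) (x : E) : ‖∇ η x‖ = ‖fderiv ℝ η x‖ := by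
  simp [gradient]

lemma grad_eq_zero_of_notMem {η : E → ℝ} {x : E} (hx : x ∉ tsupport η) : ∇ η x = 0 := by
  have : fderiv ℝ η x = 0 := by
    by_contra h
    exact hx (support_fderiv_subset ℝ (Function.mem_support.2 h))
  simp [gradient, this]

lemma cs_grad {η : E → ℝ} (hc : HasCompactSupport η) : HasCompactSupport (∇ η) := by
  refine HasCompactSupport.intro hc fun x hx => grad_eq_zero_of_notMem hx

lemma W.mul_smooth {u : E → ℝ} {g : E → E} (h : W u g) {η : E → ℝ} (hη : ContDiff ℝ ∞ η)
    (hcη : HasCompactSupport η) :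
    W (fun x => η x * u x) (fun x => η x • g x + u x • ∇ η x) where
  cont := hη.continuous.mul h.cont
  memLp := by
    refine MemLp.add ?_ ?_
    · have h1 : MemLp η ⊤ volume := hη.continuous.memLp_top_of_hasCompactSupport hcη volume
      exact h.memLp.smul h1
    · exact (h.cont.smul (cont_grad hη)).memLp_of_hasCompactSupport (cs_grad hcη).smul_left
  weak φ hφ hc v := by
    have hd : ∀ x, fderiv ℝ (fun x => η x * φ x) x v
        = η x * fderiv ℝ φ x v + fderiv ℝ η x v * φ x := by
      intro x
      rw [fderiv_fun_mul ((hη.differentiable (by simp)) x) ((hφ.differentiable (by simp)) x)]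
      simp [mul_comm]
    have key := h.weak (fun x => η x * φ x) (hη.mul hφ) hc.mul_left v
    simp_rw [hd, mul_add] at key
    have i1 : Integrable (fun x => u x * (η x * fderiv ℝ φ x v)) :=
      (h.cont.mul (hη.continuous.mul (cont_fderiv_apply hφ v))).integrable_of_hasCompactSupport
        (cs_fderiv_apply hc v).mul_left.mul_left
    have i2 : Integrable (fun x => u x * (fderiv ℝ η x v * φ x)) :=
      (h.cont.mul ((cont_fderiv_apply hη v).mul hφ.continuous)).integrable_of_hasCompactSupport
        hc.mul_left.mul_left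
    have i3 : Integrable (fun x => ⟪g x, v⟫_ℝ * (η x * φ x)) :=
      int_right h.memLp (hη.continuous.mul hφ.continuous) hc.mul_left v
    rw [integral_add i1 i2] at key
    have e1 : (fun x => η x * u x * fderiv ℝ φ x v) = fun x => u x * (η x * fderiv ℝ φ x v) := by
      ext x; ring
    have e2 : (fun x => ⟪η x • g x + u x • ∇ η x, v⟫_ℝ * φ x)
        = fun x => ⟪g x, v⟫_ℝ * (η x * φ x) + u x * (fderiv ℝ η x v * φ x) := by
      ext x
      rw [inner_add_left, inner_smul_left, inner_smul_left, inner_gradient_left]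
      simp only [conj_trivial]; ring
    rw [e1, e2, integral_add i3 i2]
    linarith

lemma W.of_smooth {η : E → ℝ} (hη : ContDiff ℝ ∞ η) (hcη : HasCompactSupport η) :
    W η (∇ η) := by
  have := (W.const 1).mul_smooth hη hcη
  refine this.congr (by simp) (by simp)

lemma W.ae_zero {u : E → ℝ} {g : E → E} (h : W u g) {U : Set E} (hU : IsOpen U)
    (hu : ∀ x ∈ U, u x = 0) : ∀ᵐ x, x ∈ U → g x = 0 := by
  have key : ∀ v : E, ∀ᵐ x, x ∈ U → ⟪g x, v⟫_ℝ = 0 := by
    intro v
    refine hU.ae_eq_zero_of_integral_contDiff_smul_eq_zero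
      ((locInt_inner h.memLp v).locallyIntegrableOn U) ?_
    intro φ hφ hc hs
    have h1 := h.weak φ hφ hc v
    have h2 : (fun x => u x * fderiv ℝ φ x v) = fun _ => 0 := by
      ext x
      by_cases hx : x ∈ U
      · simp [hu x hx]
      · have : fderiv ℝ φ x = 0 := by
          by_contra h'
          exact hx (hs (support_fderiv_subset ℝ (Function.mem_support.2 h')))
        simp [this]
    rw [h2] at h1
    simp only [integral_zero, zero_eq_neg] at h1
    simp_rw [smul_eq_mul, mul_comm (φ _)]
    exact h1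
  filter_upwards [key (EuclideanSpace.single 0 1), key (EuclideanSpace.single 1 1)] with x h0 h1 hx
  have a0 := h0 hx
  have a1 := h1 hx
  simp only [EuclideanSpace.inner_single_right, one_mul, conj_trivial] at a0 a1
  ext i
  fin_cases i
  · simpa using a0
  · simpa using a1

/-! Similarities. -/

/-- the similarity `z ↦ r • Q z + b`. -/
noncomputable def sim (r : ℝ) (Q : E ≃ₗᵢ[ℝ] E) (b : E) : E → E := fun z => r • Q z + b

lemma integral_comp_sim {r : ℝ} (hr : 0 < r) (Q : E ≃ₗᵢ[ℝ] E) (b : E) (F : E → ℝ) :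
    ∫ z, F (sim r Q b z) = (r ^ 2)⁻¹ * ∫ w, F w := by
  have h1 : ∫ z, F (sim r Q b z) = ∫ z, F (r • z + b) :=
    Q.measurePreserving.integral_comp Q.toHomeomorph.measurableEmbedding (fun z => F (r • z + b))
  have h2 := Measure.integral_comp_smul (volume : Measure E) (fun z => F (z + b)) r
  rw [h1, h2, integral_add_right_eq_self F b]
  simp [abs_of_pos (by positivity : 0 < r ^ 2)]

lemma cont_sim (r : ℝ) (Q : E ≃ₗᵢ[ℝ] E) (b : E) : Continuous (sim r Q b) := by
  unfold sim; fun_prop

lemma qmp_sim {r : ℝ} (hr : 0 < r) (Q : E ≃ₗᵢ[ℝ] E) (b : E) :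
    Measure.QuasiMeasurePreserving (sim r Q b) volume volume := by
  have h1 : Measure.QuasiMeasurePreserving (fun z : E => r • z) volume volume := by
    refine ⟨by fun_prop, ?_⟩
    have := Measure.map_addHaar_smul (volume : Measure E) hr.ne'
    rw [this]
    exact Measure.smul_absolutelyContinuous
  exact ((measurePreserving_add_right volume b).quasiMeasurePreserving.comp h1).comp
    Q.measurePreserving.quasiMeasurePreserving

lemma integrable_comp_sim {r : ℝ} (hr : 0 < r) (Q : E ≃ₗᵢ[ℝ] E) (b : E) {F : E → ℝ}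
    (hF : Integrable F) : Integrable fun z => F (sim r Q b z) := by
  have h1 : Integrable fun z : E => F (z + b) := hF.comp_add_right b
  have h2 : Integrable fun z : E => F (r • z + b) := h1.comp_smul hr.ne'
  exact (Q.measurePreserving.integrable_comp_emb Q.toHomeomorph.measurableEmbedding).2 h2

lemma norm_simgrad {r : ℝ} (hr : 0 < r) (Q : E ≃ₗᵢ[ℝ] E) (w : E) :
    ‖r • Q.symm w‖ = r * ‖w‖ := by
  rw [norm_smul, LinearIsometryEquiv.norm_map, Real.norm_of_nonneg hr.le]

lemma En_comp_sim {r : ℝ} (hr : 0 < r) (Q : E ≃ₗᵢ[ℝ] E) (b : E) (g : E → E) :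
    En (fun z => r • Q.symm (g (sim r Q b z))) = r ^ 2 * En g := by
  unfold En
  simp_rw [norm_simgrad hr, mul_pow]
  rw [integral_const_mul, integral_comp_sim hr Q b (fun w => ‖g w‖ ^ 4)]
  field_simp

lemma W.comp_sim {u : E → ℝ} {g : E → E} (h : W u g) {r : ℝ} (hr : 0 < r) (Q : E ≃ₗᵢ[ℝ] E)
    (b : E) : W (fun z => u (sim r Q b z)) (fun z => r • Q.symm (g (sim r Q b z))) where
  cont := h.cont.comp (cont_sim r Q b)
  memLp := by
    refine memLp4_of ?_ ?_
    · have h1 : AEStronglyMeasurable (fun z => g (sim r Q b z)) volume :=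
        h.memLp.1.comp_quasiMeasurePreserving (qmp_sim hr Q b)
      exact (Q.symm.continuous.comp_aestronglyMeasurable h1).const_smul r
    · simp_rw [norm_simgrad hr, mul_pow]
      exact (integrable_comp_sim hr Q b (int4 h.memLp)).const_mul _
  weak φ hφ hc v := by
    let S : E → E := fun w => r⁻¹ • Q.symm (w - b)
    have hS : ∀ z, S (sim r Q b z) = z := by
      intro z
      simp [S, sim, smul_smul, inv_mul_cancel₀ hr.ne']
    have hS' : ∀ w, sim r Q b (S w) = w := by
      intro z
      simp [S, sim, smul_smul, mul_inv_cancel₀ hr.ne']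
    have hSd : ∀ w, HasFDerivAt S (r⁻¹ • (Q.symm : E →L[ℝ] E)) w := by
      intro w
      have h1 : HasFDerivAt (fun w : E => w - b) (ContinuousLinearMap.id ℝ E) w :=
        (hasFDerivAt_id w).sub_const b
      have h2 := ((Q.symm : E →L[ℝ] E).hasFDerivAt.comp w h1).const_smul r⁻¹
      rw [ContinuousLinearMap.comp_id] at h2
      exact h2
    have hSc : ContDiff ℝ ∞ S := by
      have : ContDiff ℝ ∞ fun w : E => Q.symm (w - b) :=
        (Q.symm : E →L[ℝ] E).contDiff.comp (contDiff_id.sub contDiff_const)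
      exact this.const_smul r⁻¹
    let ψ : E → ℝ := fun w => φ (S w)
    have hψ : ContDiff ℝ ∞ ψ := hφ.comp hSc
    have hψc : HasCompactSupport ψ := by
      refine HasCompactSupport.intro (hc.isCompact.image (cont_sim r Q b)) fun w hw => ?_
      by_contra hne
      exact hw ⟨S w, subset_tsupport φ hne, hS' w⟩
    have hψd : ∀ z, fderiv ℝ ψ (sim r Q b z) (r • Q v) = fderiv ℝ φ z v := by
      intro z
      have h1 : HasFDerivAt φ (fderiv ℝ φ z) (S (sim r Q b z)) := by
        rw [hS]; exact ((hφ.differentiable (by simp)) z).hasFDerivAt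
      have h2 := (h1.comp (sim r Q b z) (hSd _)).fderiv
      have h3 : ψ = φ ∘ S := rfl
      rw [h3, h2]
      simp [hr.ne']
    have key := h.weak ψ hψ hψc (r • Q v)
    have e1 := integral_comp_sim hr Q b (fun w => u w * fderiv ℝ ψ w (r • Q v))
    have e2 := integral_comp_sim hr Q b (fun w => ⟪g w, r • Q v⟫_ℝ * ψ w)
    simp only [hψd] at e1
    have e3 : ∀ z, ⟪g (sim r Q b z), r • Q v⟫_ℝ * ψ (sim r Q b z)
        = ⟪r • Q.symm (g (sim r Q b z)), v⟫_ℝ * φ z := by
      intro z
      have : ψ (sim r Q b z) = φ z := by simp [ψ, hS]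
      rw [this, inner_smul_left, inner_smul_right, ← Q.inner_map_map (Q.symm _) v]
      simp
    simp only [e3] at e2
    rw [e1, e2, key]
    ring

end Pool.Agent.MP_e9cdae_an
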