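import Pool.Agent.MP_e9cdae_an.Morrey

/-! Completeness and the uniform convexity (Clarkson) argument. -/

open MeasureTheory Set Filter Topology
open scoped ContDiff InnerProductSpace ENNReal Gradient

namespace Pool.Agent.MP_e9cdae_an

lemma clarkson_pt (a b : E) :
    ‖(1 / 2 : ℝ) • (a + b)‖ ^ 4 + 1 / 16 * ‖a - b‖ ^ 4 ≤ 1 / 2 * ‖a‖ ^ 4 + 1 / 2 * ‖b‖ ^ 4 := by
  have h := parallelogram_law_with_norm ℝ a b
  rw [norm_smul, Real.norm_of_nonneg (by norm_num)]
  set s := ‖a + b‖ ^ 2 with hs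
  set t := ‖a - b‖ ^ 2 with ht
  set A := ‖a‖ ^ 2 with hA
  set B := ‖b‖ ^ 2 with hB
  have h1 : s + t = 2 * (A + B) := by simp only [hs, ht, hA, hB]; nlinarith
  have e1 : (1 / 2 * ‖a + b‖) ^ 4 = 1 / 16 * s ^ 2 := by simp only [hs]; ring
  have e2 : ‖a - b‖ ^ 4 = t ^ 2 := by simp only [ht]; ring
  have e3 : ‖a‖ ^ 4 = A ^ 2 := by simp only [hA]; ring
  have e4 : ‖b‖ ^ 4 = B ^ 2 := by simp only [hB]; ring
  rw [e1, e2, e3, e4]
  have hs0 : 0 ≤ s := by positivity
  have ht0 : 0 ≤ t := by positivity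
  have h2 : s ^ 2 + t ^ 2 ≤ (s + t) ^ 2 := by nlinarith [mul_nonneg hs0 ht0]
  rw [h1] at h2
  nlinarith [sq_nonneg (A - B)]

lemma clarkson {g g' : E → E} (hg : MemLp g 4 volume) (hg' : MemLp g' 4 volume) :
    En (fun x => (1 / 2 : ℝ) • (g x + g' x)) + 1 / 16 * En (fun x => g x - g' x)
      ≤ 1 / 2 * En g + 1 / 2 * En g' := by
  unfold En
  have i1 : Integrable fun x => ‖(1 / 2 : ℝ) • (g x + g' x)‖ ^ 4 :=
    int4 ((hg.add hg').const_smul (1 / 2 : ℝ))
  have i2 : Integrable fun x => ‖g x - g' x‖ ^ 4 := int4 (hg.sub hg')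
  rw [← integral_const_mul, ← integral_const_mul, ← integral_const_mul,
    ← integral_add i1 (i2.const_mul _),
    ← integral_add ((int4 hg).const_mul _) ((int4 hg').const_mul _)]
  exact integral_mono (i1.add (i2.const_mul _))
    (((int4 hg).const_mul _).add ((int4 hg').const_mul _)) fun x => clarkson_pt _ _

lemma young4_pt {θ : ℝ} (hθ : 0 < θ) : ∃ C : ℝ, 0 < C ∧ ∀ a b : E,
    ‖a + b‖ ^ 4 ≤ (1 + θ) * ‖a‖ ^ 4 + C * ‖b‖ ^ 4 := by
  set t := min 1 (θ / 15) with ht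
  have ht0 : 0 < t := by positivity
  have ht1 : t ≤ 1 := min_le_left _ _
  have ht2 : t ≤ θ / 15 := min_le_right _ _
  have h4 : (1 + t) ^ 4 ≤ 1 + θ := by
    have : t ^ 2 ≤ t := by nlinarith
    have : t ^ 3 ≤ t := by nlinarith
    have : t ^ 4 ≤ t := by nlinarith
    nlinarith
  refine ⟨(1 + 1 / t) ^ 4, by positivity, fun a b => ?_⟩
  have h := norm_add_le a b
  rcases le_total ‖b‖ (t * ‖a‖) with h1 | h1
  · have : ‖a + b‖ ≤ (1 + t) * ‖a‖ := by linarith
    calc _ ≤ ((1 + t) * ‖a‖) ^ 4 := by gcongr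
      _ = (1 + t) ^ 4 * ‖a‖ ^ 4 := mul_pow _ _ _
      _ ≤ (1 + θ) * ‖a‖ ^ 4 := by gcongr
      _ ≤ _ := le_add_of_nonneg_right (by positivity)
  · have h2 : ‖a‖ ≤ 1 / t * ‖b‖ := by
      rw [one_div, ← div_eq_inv_mul, le_div_iff₀ ht0]; linarith
    have : ‖a + b‖ ≤ (1 + 1 / t) * ‖b‖ := by linarith
    calc _ ≤ ((1 + 1 / t) * ‖b‖) ^ 4 := by gcongr
      _ = (1 + 1 / t) ^ 4 * ‖b‖ ^ 4 := mul_pow _ _ _
      _ ≤ _ := le_add_of_nonneg_left (by positivity)

lemma young4 {θ : ℝ} (hθ : 0 < θ) : ∃ C : ℝ, 0 < C ∧ ∀ g h : E → E, MemLp g 4 volume →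
    MemLp h 4 volume → En (fun x => g x + h x) ≤ (1 + θ) * En g + C * En h := by
  obtain ⟨C, hC, H⟩ := young4_pt hθ
  refine ⟨C, hC, fun g h hg hh => ?_⟩
  unfold En
  rw [← integral_const_mul, ← integral_const_mul,
    ← integral_add ((int4 hg).const_mul _) ((int4 hh).const_mul _)]
  exact integral_mono (int4 (hg.add hh))
    (((int4 hg).const_mul _).add ((int4 hh).const_mul _)) fun x => H _ _

lemma En_smul (c : ℝ) (g : E → E) : En (fun x => c • g x) = c ^ 4 * En g := by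
  unfold En
  rw [← integral_const_mul]
  congr 1
  ext x
  rw [norm_smul, mul_pow, Real.norm_eq_abs, show (4 : ℕ) = 2 * 2 from rfl, pow_mul |c|, sq_abs,
    ← pow_mul]

lemma eLpNorm_pow4 {g : E → E} (hg : MemLp g 4 volume) :
    (eLpNorm g 4 volume).toReal ^ 4 = En g := by
  rw [hg.eLpNorm_eq_integral_rpow_norm (by norm_num) (by norm_num)]
  have h4 : ((4 : ℝ≥0∞).toReal) = ((4 : ℕ) : ℝ) := by norm_num
  simp_rw [h4, Real.rpow_natCast]
  have h0 : 0 ≤ ∫ x, ‖g x‖ ^ 4 := En_nonneg g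
  rw [ENNReal.toReal_ofReal (by positivity), Real.rpow_inv_natCast_pow h0 (by norm_num)]
  rfl

lemma pairing_bound' {φ : E → ℝ} (hφ : Continuous φ) (hc : HasCompactSupport φ) (v : E) :
    ∃ C : ℝ, 0 ≤ C ∧ ∀ (g : E → E), MemLp g 4 volume → ∀ δ : ℝ, 0 < δ → En g ≤ δ ^ 4 →
      |∫ x, ⟪g x, v⟫_ℝ * φ x| ≤ C * δ := by
  obtain ⟨C, hC, H⟩ := pairing_bound hφ hc
  refine ⟨(‖v‖ + 1) * C, by positivity, fun g hg δ hδ hE => ?_⟩
  have hv : 0 < ‖v‖ + 1 := by positivity
  have := H g hg δ hδ hE ((‖v‖ + 1)⁻¹ • v) (by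
    rw [norm_smul, norm_inv, Real.norm_of_nonneg hv.le, ← div_eq_inv_mul, div_le_one hv]
    linarith)
  simp_rw [inner_smul_right, mul_assoc] at this
  rw [integral_const_mul, abs_mul, abs_inv, abs_of_pos hv, ← div_eq_inv_mul, div_le_iff₀ hv] at this
  linarith

lemma abs_le_of_pow4 {t δ : ℝ} (hδ : 0 ≤ δ) (h : t ^ 4 ≤ δ ^ 4) : |t| ≤ δ := by
  have h3 : |t| ^ 4 = t ^ 4 := by
    rw [show (4 : ℕ) = 2 * 2 from rfl, pow_mul, pow_mul, sq_abs]
  rw [← h3] at h
  exact le_of_pow_le_pow_left₀ (by norm_num) hδ h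

lemma complete (u : ℕ → E → ℝ) (g : ℕ → E → E) (hW : ∀ k, W (u k) (g k)) (y₀ : E)
    (h0 : ∀ k, u k y₀ = 0) (B : ℝ) (hB : ∀ k, En (g k) ≤ B)
    (hC : ∀ ε > 0, ∃ N, ∀ j ≥ N, ∀ k ≥ N, En (fun x => g j x - g k x) ≤ ε) :
    ∃ (U : E → ℝ) (G : E → E), W U G ∧ (∀ x, Tendsto (fun k => u k x) atTop (𝓝 (U x))) ∧
      Tendsto (fun k => En (fun x => G x - g k x)) atTop (𝓝 0) := by
  obtain ⟨C, hCpos, hM⟩ := morrey
  have : Fact ((1 : ℝ≥0∞) ≤ 4) := ⟨by norm_num⟩
  let L : ℕ → Lp E 4 (volume : Measure E) := fun k => (hW k).memLp.toLp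
  have hLc : CauchySeq L := by
    rw [Metric.cauchySeq_iff]
    intro ε hε
    obtain ⟨N, hN⟩ := hC ((ε / 2) ^ 4) (by positivity)
    refine ⟨N, fun j hj k hk => ?_⟩
    have h1 : dist (L j) (L k) ^ 4 = En (fun x => g j x - g k x) := by
      rw [dist_eq_norm, ← MemLp.toLp_sub, Lp.norm_toLp]
      exact eLpNorm_pow4 ((hW j).memLp.sub (hW k).memLp)
    have h2 := abs_le_of_pow4 (t := dist (L j) (L k)) (by positivity : 0 ≤ ε / 2)
      (h1 ▸ hN j hj k hk)
    rw [abs_of_nonneg dist_nonneg] at h2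
    linarith
  obtain ⟨G, hG⟩ := cauchySeq_tendsto_of_complete hLc
  have hGm : MemLp G 4 volume := Lp.memLp G
  have hGt : Tendsto (fun k => En (fun x => G x - g k x)) atTop (𝓝 0) := by
    have h1 : ∀ k, En (fun x => G x - g k x) = dist (L k) G ^ 4 := by
      intro k
      have h2 : En (fun x => G x - g k x) = En (⇑G - g k) := rfl
      rw [dist_comm, Lp.dist_def, h2, ← eLpNorm_pow4 (hGm.sub (hW k).memLp)]
      congr 2
      refine eLpNorm_congr_ae ?_
      filter_upwards [(hW k).memLp.coeFn_toLp] with x hx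
      simp [L, hx]
    simp_rw [h1]
    have := (tendsto_iff_dist_tendsto_zero.1 hG).pow 4
    simpa using this
  have huc : ∀ x, CauchySeq fun k => u k x := by
    intro x
    rw [Metric.cauchySeq_iff]
    intro ε hε
    set K := C * ‖x - y₀‖ ^ 2 + 1 with hK
    have hK0 : 0 < K := by positivity
    obtain ⟨N, hN⟩ := hC ((ε / 2) ^ 4 / K) (by positivity)
    refine ⟨N, fun j hj k hk => ?_⟩
    have h1 := hM _ _ ((hW j).sub (hW k)) y₀ x
    simp only [h0, sub_zero] at h1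
    have h2 : C * ‖x - y₀‖ ^ 2 * En (fun x => g j x - g k x) ≤ K * ((ε / 2) ^ 4 / K) := by
      have := En_nonneg (fun x => g j x - g k x)
      gcongr
      · linarith
      · exact hN j hj k hk
    rw [mul_div_cancel₀ _ hK0.ne'] at h2
    have h3 := abs_le_of_pow4 (by positivity : 0 ≤ ε / 2) (h1.trans h2)
    rw [Real.dist_eq]
    linarith
  choose U hU using fun x => cauchySeq_tendsto_of_complete (huc x)
  have hB0 : 0 ≤ B := (En_nonneg _).trans (hB 0)
  have hHk : ∀ k x y, (u k y - u k x) ^ 4 ≤ C * ‖y - x‖ ^ 2 * B := fun k x y =>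
    (hM _ _ (hW k) x y).trans (by gcongr; exact hB k)
  have hH : ∀ x y, (U y - U x) ^ 4 ≤ C * ‖y - x‖ ^ 2 * B := fun x y =>
    le_of_tendsto' (((hU y).sub (hU x)).pow 4) fun k => hHk k x y
  have hUc : Continuous U := by
    rw [continuous_iff_continuousAt]
    intro x
    rw [ContinuousAt, Metric.tendsto_nhds]
    intro ε hε
    have h1 : Tendsto (fun y => C * ‖y - x‖ ^ 2 * B) (𝓝 x) (𝓝 (C * ‖x - x‖ ^ 2 * B)) := by
      apply Continuous.tendsto; fun_prop
    simp only [sub_self, norm_zero, ne_eq, OfNat.ofNat_ne_zero, not_false_eq_true, zero_pow,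
      mul_zero, zero_mul] at h1
    filter_upwards [h1.eventually (gt_mem_nhds (by positivity : 0 < (ε / 2) ^ 4))] with y hy
    have := abs_le_of_pow4 (by positivity : 0 ≤ ε / 2) ((hH x y).trans hy.le)
    rw [Real.dist_eq]; linarith
  refine ⟨U, G, ⟨hUc, hGm, fun φ hφ hc v => ?_⟩, hU, hGt⟩
  have l1 : Tendsto (fun k => ∫ x, u k x * fderiv ℝ φ x v) atTop
      (𝓝 (∫ x, U x * fderiv ℝ φ x v)) := by
    refine tendsto_integral_of_dominated_convergence
      (fun x => (1 + C * ‖x - y₀‖ ^ 2 * B) * ‖fderiv ℝ φ x v‖) ?_ ?_ ?_ ?_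
    · intro k
      exact (int_left (hW k).cont hφ hc v).1
    · refine int_mul_cs (by fun_prop) (cont_fderiv_apply hφ v).norm (cs_fderiv_apply hc v).norm
    · intro k
      refine Eventually.of_forall fun x => ?_
      rw [norm_mul]
      gcongr
      have h1 := hHk k y₀ x
      rw [h0, sub_zero] at h1
      rw [Real.norm_eq_abs]
      have h2 : |u k x| ≤ 1 + u k x ^ 4 := by
        have h3 : |u k x| ^ 4 = u k x ^ 4 := by
          rw [show (4 : ℕ) = 2 * 2 from rfl, pow_mul, pow_mul, sq_abs]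
        rw [← h3]
        have h4 := abs_nonneg (u k x)
        rcases le_total |u k x| 1 with h | h
        · have : 0 ≤ |u k x| ^ 4 := by positivity
          linarith
        · have : |u k x| ≤ |u k x| ^ 4 := le_self_pow₀ h (by norm_num)
          linarith
      linarith
    · exact Eventually.of_forall fun x => (hU x).mul_const _
  have l2 : Tendsto (fun k => ∫ x, ⟪g k x, v⟫_ℝ * φ x) atTop (𝓝 (∫ x, ⟪G x, v⟫_ℝ * φ x)) := by
    obtain ⟨D, hD, hP⟩ := pairing_bound' hφ.continuous hc v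
    rw [Metric.tendsto_atTop]
    intro ε hε
    have hδ : 0 < ε / (2 * (D + 1)) := by positivity
    obtain ⟨N, hN⟩ := eventually_atTop.1
      (hGt.eventually (gt_mem_nhds (by positivity : 0 < (ε / (2 * (D + 1))) ^ 4)))
    refine ⟨N, fun k hk => ?_⟩
    have h1 := hP _ (hGm.sub (hW k).memLp) _ hδ (hN k hk).le
    simp only [Pi.sub_apply, inner_sub_left, sub_mul] at h1
    rw [integral_sub (int_right hGm hφ.continuous hc v)
      (int_right (hW k).memLp hφ.continuous hc v)] at h1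
    rw [Real.dist_eq, abs_sub_comm]
    have h2 : D * (ε / (2 * (D + 1))) < ε := by
      rw [← mul_div_assoc, div_lt_iff₀ (by positivity)]; nlinarith
    linarith
  have l3 := l2.neg
  simp_rw [← fun k => (hW k).weak φ hφ hc v] at l3
  exact tendsto_nhds_unique l1 l3

theorem exists_min (K : ℕ → Set E) (hK : Monotone K) {y₀ : E} (hy : y₀ ∈ K 0) (x : E) (c : ℝ)
    (h : ∀ k, ∀ ε > 0, ∃ (u : E → ℝ) (g : E → E), W u g ∧ (∀ z ∈ K k, u z = 0) ∧ u x = 1 ∧
      En g ≤ c + ε) :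
    ∃ (u : E → ℝ) (g : E → E), W u g ∧ (∀ k, ∀ z ∈ K k, u z = 0) ∧ u x = 1 ∧ En g ≤ c := by
  let S : ℕ → Set ℝ := fun k => {e | ∃ (u : E → ℝ) (g : E → E), W u g ∧ (∀ z ∈ K k, u z = 0) ∧
    u x = 1 ∧ En g = e}
  have hSne : ∀ k, (S k).Nonempty := fun k => by
    obtain ⟨u, g, h1, h2, h3, -⟩ := h k 1 one_pos
    exact ⟨_, u, g, h1, h2, h3, rfl⟩
  have hSbd : ∀ k, BddBelow (S k) := fun k => ⟨0, by
    rintro e ⟨u, g, -, -, -, rfl⟩; exact En_nonneg g⟩
  let e : ℕ → ℝ := fun k => sInf (S k)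
  have hec : ∀ k, e k ≤ c := fun k => le_of_forall_pos_le_add fun ε hε => by
    obtain ⟨u, g, h1, h2, h3, h4⟩ := h k ε hε
    exact (csInf_le (hSbd k) ⟨u, g, h1, h2, h3, rfl⟩).trans h4
  have hemono : Monotone e := fun j k hjk => csInf_le_csInf (hSbd j) (hSne k) (by
    rintro e ⟨u, g, h1, h2, h3, rfl⟩
    exact ⟨u, g, h1, fun z hz => h2 z (hK hjk hz), h3, rfl⟩)
  have hebd : BddAbove (range e) := ⟨c, by rintro _ ⟨k, rfl⟩; exact hec k⟩
  have het := tendsto_atTop_ciSup hemono hebd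
  have hele : ∀ k, e k ≤ ⨆ i, e i := fun k => le_ciSup hebd k
  have hch : ∀ k : ℕ, ∃ (u : E → ℝ) (g : E → E), W u g ∧ (∀ z ∈ K k, u z = 0) ∧ u x = 1 ∧
      En g ≤ e k + 1 / ((k : ℝ) + 1) := fun k => by
    obtain ⟨_, ⟨u, g, h1, h2, h3, rfl⟩, h4⟩ := exists_lt_of_csInf_lt (hSne k)
      (lt_add_of_pos_right (e k) (by positivity : (0 : ℝ) < 1 / ((k : ℝ) + 1)))
    exact ⟨u, g, h1, h2, h3, h4.le⟩
  choose u g hW hz hx hE using hch
  have hinv : ∀ N k : ℕ, N ≤ k → 1 / ((k : ℝ) + 1) ≤ 1 / ((N : ℝ) + 1) := fun N k hk => by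
    have : (N : ℝ) ≤ k := by exact_mod_cast hk
    gcongr
  obtain ⟨U, G, hUG, hU, hG⟩ := complete u g hW y₀ (fun k => hz k y₀ (hK (Nat.zero_le k) hy))
    (c + 1) (fun k => by
      have := hinv 0 k (Nat.zero_le k)
      have := hE k
      have := hec k
      simp only [Nat.cast_zero, zero_add, div_one] at *
      linarith)
    (fun ε hε => by
      have h1 : ∀ᶠ N in atTop, (⨆ i, e i) - ε / 32 < e N :=
        het.eventually (lt_mem_nhds (by linarith))
      have h2 : ∀ᶠ N : ℕ in atTop, 1 / ((N : ℝ) + 1) < ε / 32 :=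
        tendsto_one_div_add_atTop_nhds_zero_nat.eventually (gt_mem_nhds (by positivity))
      obtain ⟨N, hN1, hN2⟩ := (h1.and h2).exists
      refine ⟨N, fun j hj k hk => ?_⟩
      have h3 := clarkson (hW j).memLp (hW k).memLp
      have h4 : e N ≤ En (fun x => (1 / 2 : ℝ) • (g j x + g k x)) :=
        csInf_le (hSbd N) ⟨_, _, ((hW j).add (hW k)).smul (1 / 2), fun z hz' => by
          simp [hz j z (hK hj hz'), hz k z (hK hk hz')], by simp [hx]; norm_num, rfl⟩
      have := hE j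
      have := hE k
      have := hinv N j hj
      have := hinv N k hk
      have := hele j
      have := hele k
      linarith)
  refine ⟨U, G, hUG, fun k z hz' => ?_, ?_, ?_⟩
  · refine tendsto_nhds_unique (hU z) (tendsto_const_nhds.congr' ?_)
    filter_upwards [eventually_ge_atTop k] with j hj
    exact (hz j z (hK hj hz')).symm
  · refine tendsto_nhds_unique (hU x) (tendsto_const_nhds.congr fun j => (hx j).symm)
  · have hc0 : 0 ≤ c := le_trans (le_csInf (hSne 0) (by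
      rintro e ⟨u, g, -, -, -, rfl⟩; exact En_nonneg g)) (hec 0)
    have key : ∀ θ > 0, En G ≤ (1 + θ) * c := by
      intro θ hθ
      obtain ⟨D, hD, hY⟩ := young4 hθ
      have h1 : Tendsto (fun k : ℕ => (1 + θ) * (c + 1 / ((k : ℝ) + 1))
          + D * En (fun x => G x - g k x)) atTop (𝓝 ((1 + θ) * (c + 0) + D * 0)) :=
        ((tendsto_one_div_add_atTop_nhds_zero_nat.const_add c).const_mul _).add (hG.const_mul D)
      simp only [add_zero, mul_zero] at h1
      refine ge_of_tendsto' h1 fun k => ?_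
      have h2 := hY (g k) (fun x => G x - g k x) (hW k).memLp (hUG.memLp.sub (hW k).memLp)
      simp only [add_sub_cancel] at h2
      have h3 : (1 + θ) * En (g k) ≤ (1 + θ) * (c + 1 / ((k : ℝ) + 1)) := by
        have := hE k
        have := hec k
        gcongr; linarith
      have h4 : En (fun x => G x) = En G := rfl
      linarith
    refine le_of_forall_pos_le_add fun ε hε => ?_
    have h1 := key (ε / (c + 1)) (by positivity)
    have h2 : ε / (c + 1) * c ≤ ε := by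
      rw [div_mul_eq_mul_div, div_le_iff₀ (by positivity)]; nlinarith
    nlinarith

end Pool.Agent.MP_e9cdae_an
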