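import Pool.Agent.MP_e9cdae_an.Half

/-! A nearly optimal test function vanishing near the origin and near infinity. -/

open MeasureTheory Set Filter Topology
open scoped ContDiff InnerProductSpace ENNReal Gradient

namespace Pool.Agent.MP_e9cdae_an

lemma smul_le_one {g : E → E} (hg : MemLp g 4 volume) {ζ : E → ℝ} (hζ : Continuous ζ)
    (h0 : ∀ z, 0 ≤ ζ z) (h1 : ∀ z, ζ z ≤ 1) :
    MemLp (fun z => ζ z • g z) 4 volume ∧ En (fun z => ζ z • g z) ≤ En g := by
  have hb : ∀ z, ‖ζ z • g z‖ ≤ ‖g z‖ := fun z => by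
    rw [norm_smul, Real.norm_of_nonneg (h0 z)]
    exact mul_le_of_le_one_left (norm_nonneg _) (h1 z)
  have hm : MemLp (fun z => ζ z • g z) 4 volume :=
    hg.of_le (hζ.aestronglyMeasurable.smul hg.1) (Eventually.of_forall hb)
  refine ⟨hm, integral_mono (int4 hm) (int4 hg) fun z => ?_⟩
  have := hb z
  simp only
  gcongr

lemma W.sum {ι : Type*} (s : Finset ι) {u : ι → E → ℝ} {g : ι → E → E}
    (h : ∀ i ∈ s, W (u i) (g i)) : W (fun x => ∑ i ∈ s, u i x) (fun x => ∑ i ∈ s, g i x) := by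
  classical
  induction s using Finset.induction_on with
  | empty => simpa using W.const 0
  | insert a s ha ih =>
    have := (h a (Finset.mem_insert_self a s)).add
      (ih fun i hi => h i (Finset.mem_insert_of_mem hi))
    refine this.congr (fun x => Finset.sum_insert ha) (fun x => Finset.sum_insert ha)

lemma norm_sum_pow4 {ι : Type*} (s : Finset ι) (f : ι → E)
    (h : ∀ i ∈ s, ∀ j ∈ s, i ≠ j → f i = 0 ∨ f j = 0) :
    ‖∑ i ∈ s, f i‖ ^ 4 ≤ ∑ i ∈ s, ‖f i‖ ^ 4 := by
  by_cases hex : ∃ i ∈ s, f i ≠ 0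
  · obtain ⟨i, hi, hne⟩ := hex
    rw [Finset.sum_eq_single i (fun j hj hji => (h j hj i hi hji).resolve_right hne)
      (fun h' => absurd hi h')]
    exact Finset.single_le_sum (f := fun i => ‖f i‖ ^ 4) (fun j _ => by positivity) hi
  · push Not at hex
    rw [Finset.sum_eq_zero hex]
    simp only [norm_zero, ne_eq, OfNat.ofNat_ne_zero, not_false_eq_true, zero_pow]
    positivity

noncomputable def bump2 : ContDiffBump (0 : E) := ⟨1, 2, by norm_num, by norm_num⟩

lemma grad_bump2_eq_zero {z : E} (hz : ‖z‖ < 1 ∨ 2 < ‖z‖) : ∇ (fun z => bump2 z) z = 0 := by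
  rcases hz with hz | hz
  · have h1 := bump2.eventuallyEq_one_of_mem_ball (x := z) (by simpa [bump2] using hz)
    have h2 : fderiv ℝ (fun z => bump2 z) z = 0 := by
      rw [h1.fderiv_eq]; exact fderiv_const_apply _
    simp [gradient, h2]
  · apply grad_eq_zero_of_notMem
    have : tsupport (fun z => bump2 z) = Metric.closedBall 0 2 := bump2.tsupport_eq
    rw [this]
    simpa using hz

lemma grad_comp_smul (η : E → ℝ) (c : ℝ) (z : E) :
    ∇ (fun z => η (c • z)) z = c • ∇ η (c • z) := by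
  simp only [gradient]
  rw [fderiv_comp_smul c, map_smul]

lemma cut {u : E → ℝ} {g : E → E} (hW : W u g) (h0 : u 0 = 0) (r : ℕ → ℝ) (hr : ∀ k, 0 < r k)
    (hsep : ∀ j k, j ≠ k → 2 * r j < r k ∨ 2 * r k < r j) {θ : ℝ} (hθ : 0 < θ) :
    ∃ (N : ℕ) (ζ : E → ℝ) (e : E → E), W (fun z => ζ z * u z) (fun z => ζ z • g z + e z) ∧
      MemLp e 4 volume ∧ En e ≤ θ ∧ Continuous ζ ∧ (∀ z, 0 ≤ ζ z) ∧ (∀ z, ζ z ≤ 1) ∧
      (∀ z, (∀ k < N, ‖z‖ ≤ r k) → ζ z = 1) ∧ (∀ z, (∀ k < N, 2 * r k ≤ ‖z‖) → ζ z = 0) := by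
  obtain ⟨C, hC, hM⟩ := morrey
  set η : E → ℝ := fun z => bump2 z with hη_def
  have hη : ContDiff ℝ ∞ η := bump2.contDiff
  have cη : HasCompactSupport η := bump2.hasCompactSupport
  have hK : ∀ z, u z ^ 4 ≤ C * En g * ‖z‖ ^ 2 := fun z => by
    have := hM u g hW 0 z
    rw [h0, sub_zero, sub_zero] at this
    linarith
  have hEn := En_nonneg g
  have iJ : Integrable fun z : E => ‖z‖ ^ 2 * ‖∇ η z‖ ^ 4 := by
    refine int_mul_cs (by fun_prop) ((cont_grad hη).norm.pow 4) ?_
    refine HasCompactSupport.intro cη fun x hx => ?_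
    simp [grad_eq_zero_of_notMem hx]
  set J := ∫ z : E, ‖z‖ ^ 2 * ‖∇ η z‖ ^ 4 with hJ
  have hJ0 : 0 ≤ J := integral_nonneg fun z => by positivity
  let ηr : ℕ → E → ℝ := fun k z => η ((r k)⁻¹ • z)
  have hηr : ∀ k, ContDiff ℝ ∞ (ηr k) := fun k => hη.comp (contDiff_const_smul _)
  have cηr : ∀ k, HasCompactSupport (ηr k) := fun k =>
    cη.comp_homeomorph (Homeomorph.smulOfNeZero (r k)⁻¹ (inv_ne_zero (hr k).ne'))
  let b : ℕ → E → E := fun k z => u z • ∇ (ηr k) z
  have hbm : ∀ k, MemLp (b k) 4 volume := fun k =>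
    (hW.cont.smul (cont_grad (hηr k))).memLp_of_hasCompactSupport (cs_grad (cηr k)).smul_left
  have hbE : ∀ k, En (b k) ≤ C * En g * J := by
    intro k
    have hrk := hr k
    have e1 := integral_comp_sim hrk (LinearIsometryEquiv.refl ℝ E) 0 (fun z => ‖b k z‖ ^ 4)
    have e2 : ∫ z, ‖b k (sim (r k) (LinearIsometryEquiv.refl ℝ E) 0 z)‖ ^ 4
        ≤ ∫ z : E, (r k ^ 2)⁻¹ * (C * En g) * (‖z‖ ^ 2 * ‖∇ η z‖ ^ 4) := by
      refine integral_mono (integrable_comp_sim hrk _ _ (int4 (hbm k))) (iJ.const_mul _) fun z => ?_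
      simp only [b, ηr, sim, grad_comp_smul, LinearIsometryEquiv.coe_refl, id_eq, add_zero,
        smul_smul, inv_mul_cancel₀ hrk.ne', one_smul, norm_smul, mul_pow, Real.norm_eq_abs, abs_mul]
      have h1 := hK (r k • z)
      rw [norm_smul, Real.norm_of_nonneg hrk.le] at h1
      have h3 : |u (r k • z)| ^ 4 = u (r k • z) ^ 4 := by
        rw [show (4 : ℕ) = 2 * 2 from rfl, pow_mul, pow_mul, sq_abs]
      rw [h3, abs_of_pos (inv_pos.2 hrk)]
      calc u (r k • z) ^ 4 * (r k)⁻¹ ^ 4 * ‖∇ η z‖ ^ 4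
          ≤ (C * En g * (r k * ‖z‖) ^ 2) * (r k)⁻¹ ^ 4 * ‖∇ η z‖ ^ 4 := by gcongr
        _ = _ := by field_simp
    rw [integral_const_mul, e1, mul_assoc] at e2
    have := le_of_mul_le_mul_left e2 (by positivity)
    exact this
  have hbz : ∀ k z, (‖z‖ < r k ∨ 2 * r k < ‖z‖) → b k z = 0 := by
    intro k z hz
    have hrk := hr k
    simp only [b, ηr, grad_comp_smul]
    rw [grad_bump2_eq_zero, smul_zero, smul_zero]
    rw [norm_smul, Real.norm_of_nonneg (by positivity), ← div_eq_inv_mul]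
    rcases hz with hz | hz
    · left; rwa [div_lt_one hrk]
    · right; rwa [lt_div_iff₀ hrk]
  obtain ⟨N, hN⟩ := exists_nat_gt (C * En g * J / θ + 1)
  have hN1 : (1 : ℝ) < N := lt_of_le_of_lt (le_add_of_nonneg_left (by positivity)) hN
  have hN0 : (0 : ℝ) < N := by linarith
  refine ⟨N, fun z => (N : ℝ)⁻¹ * ∑ k ∈ Finset.range N, ηr k z,
    fun z => (N : ℝ)⁻¹ • ∑ k ∈ Finset.range N, b k z, ?_, ?_, ?_, ?_, ?_, ?_, ?_, ?_⟩
  · refine ((W.sum (Finset.range N) fun k _ => hW.mul_smooth (hηr k) (cηr k)).smul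
      (N : ℝ)⁻¹).congr (fun x => ?_) (fun x => ?_)
    · rw [mul_assoc, Finset.sum_mul]
    · rw [Finset.sum_add_distrib, smul_add, mul_smul, Finset.sum_smul]
  · exact (memLp_finsetSum _ fun k _ => hbm k).const_smul (N : ℝ)⁻¹
  · rw [En_smul]
    have h1 : En (fun z => ∑ k ∈ Finset.range N, b k z) ≤ ∑ k ∈ Finset.range N, En (b k) := by
      unfold En
      rw [← integral_finsetSum _ fun k _ => int4 (hbm k)]
      refine integral_mono (int4 (memLp_finsetSum _ fun k _ => hbm k))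
        (integrable_finsetSum _ fun k _ => int4 (hbm k)) fun z => ?_
      refine norm_sum_pow4 _ _ fun i _ j _ hij => ?_
      rcases hsep i j hij with h | h
      · by_cases hz : ‖z‖ < r j
        · exact Or.inr (hbz j z (Or.inl hz))
        · exact Or.inl (hbz i z (Or.inr (by linarith)))
      · by_cases hz : ‖z‖ < r i
        · exact Or.inl (hbz i z (Or.inl hz))
        · exact Or.inr (hbz j z (Or.inr (by linarith)))
    have h2 : ∑ k ∈ Finset.range N, En (b k) ≤ N * (C * En g * J) := by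
      have := Finset.sum_le_card_nsmul (Finset.range N) (fun k => En (b k)) _ fun k _ => hbE k
      simpa using this
    have h3 : C * En g * J ≤ θ * N := by
      have : C * En g * J / θ ≤ N := by linarith
      rwa [div_le_iff₀ hθ, mul_comm (N : ℝ)] at this
    have h4 : (N : ℝ) * (θ * N) ≤ θ * N ^ 4 := by
      have : (N : ℝ) ^ 2 ≤ N ^ 4 := pow_le_pow_right₀ hN1.le (by norm_num)
      nlinarith
    rw [inv_pow, ← div_eq_inv_mul, div_le_iff₀ (by positivity)]
    have h5 : (N : ℝ) * (C * En g * J) ≤ N * (θ * N) := by gcongr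
    linarith
  · exact continuous_const.mul (continuous_finsetSum _ fun k _ => (hηr k).continuous)
  · intro z
    exact mul_nonneg (by positivity) (Finset.sum_nonneg fun k _ => bump2.nonneg' _)
  · intro z
    have := Finset.sum_le_card_nsmul (Finset.range N) (fun k => ηr k z) 1 fun k _ => bump2.le_one
    simp only [Finset.card_range, nsmul_eq_mul, mul_one] at this
    beta_reduce
    rw [← div_eq_inv_mul, div_le_one hN0]
    exact this
  · intro z hz
    have : ∀ k ∈ Finset.range N, ηr k z = 1 := fun k hk => bump2.one_of_mem_closedBall (by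
      have hrk := hr k
      simp only [bump2, Metric.mem_closedBall, dist_zero_right]
      rw [norm_smul, Real.norm_of_nonneg (by positivity), ← div_eq_inv_mul, div_le_one hrk]
      exact hz k (Finset.mem_range.1 hk))
    beta_reduce
    rw [Finset.sum_congr rfl this]
    simp [hN0.ne']
  · intro z hz
    have : ∀ k ∈ Finset.range N, ηr k z = 0 := fun k hk => bump2.zero_of_le_dist (by
      have hrk := hr k
      simp only [bump2, dist_zero_right]
      rw [norm_smul, Real.norm_of_nonneg (by positivity), ← div_eq_inv_mul, le_div_iff₀ hrk]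
      exact hz k (Finset.mem_range.1 hk))
    beta_reduce
    rw [Finset.sum_congr rfl this]
    simp

theorem cheap_test : ∃ ε R : ℝ, 0 < ε ∧ ε ≤ 1 / 2 ∧ 2 ≤ R ∧ ∃ (u : E → ℝ) (g : E → E), W u g ∧
    (∀ z, ‖z‖ ≤ ε → u z = 0) ∧ (∀ z, R ≤ ‖z‖ → u z = 0) ∧ u e0 = 1 ∧ En g ≤ 6 / 5 * lam0 := by
  have hl := lam0_pos
  obtain ⟨u, g, hW, h0, h1, hE⟩ := near_lam0 (ε := lam0 / 50) (by positivity)
  obtain ⟨D, hD, hY⟩ := young4 (θ := 1 / 50) (by norm_num)
  obtain ⟨N, ζ, e, hW1, he, hEe, hζ, hζ0, hζ1, hone, hzero⟩ := cut hW h0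
    (fun k => (4 : ℝ) ^ (k + 1)) (fun k => by positivity) (fun j k hjk => by
      rcases lt_or_gt_of_ne hjk with h | h
      · left
        have : (4 : ℝ) ^ (j + 1 + 1) ≤ 4 ^ (k + 1) := pow_le_pow_right₀ (by norm_num) (by omega)
        have h2 : (0 : ℝ) < 4 ^ (j + 1) := by positivity
        rw [pow_succ] at this; linarith
      · right
        have : (4 : ℝ) ^ (k + 1 + 1) ≤ 4 ^ (j + 1) := pow_le_pow_right₀ (by norm_num) (by omega)
        have h2 : (0 : ℝ) < 4 ^ (k + 1) := by positivity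
        rw [pow_succ] at this; linarith) (θ := lam0 / 50 / D) (by positivity)
  obtain ⟨m1, m2⟩ := smul_le_one hW.memLp hζ hζ0 hζ1
  have hE1 : En (fun z => ζ z • g z + e z) ≤ 11 / 10 * lam0 := by
    have h2 := hY _ _ m1 he
    have h3 : D * En e ≤ D * (lam0 / 50 / D) := by gcongr
    rw [mul_div_cancel₀ _ hD.ne'] at h3
    nlinarith
  obtain ⟨N', ζ', e', hW2, he', hEe', hζ', hζ0', hζ1', hone', hzero'⟩ := cut hW1 (by simp [h0])
    (fun k => (1 / 4 : ℝ) ^ (k + 1)) (fun k => by positivity) (fun j k hjk => by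
      rcases lt_or_gt_of_ne hjk with h | h
      · right
        have : (1 / 4 : ℝ) ^ (k + 1) ≤ (1 / 4) ^ (j + 1 + 1) :=
          pow_le_pow_of_le_one (by norm_num) (by norm_num) (by omega)
        have h2 : (0 : ℝ) < (1 / 4) ^ (j + 1) := by positivity
        rw [pow_succ _ (j + 1)] at this; linarith
      · left
        have : (1 / 4 : ℝ) ^ (j + 1) ≤ (1 / 4) ^ (k + 1 + 1) :=
          pow_le_pow_of_le_one (by norm_num) (by norm_num) (by omega)
        have h2 : (0 : ℝ) < (1 / 4) ^ (k + 1) := by positivity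
        rw [pow_succ _ (k + 1)] at this; linarith) (θ := lam0 / 50 / D) (by positivity)
  have hW3 := hW1.sub hW2
  refine ⟨(1 / 4) ^ (N' + 1), 2 * 4 ^ N, by positivity, ?_, ?_, _, _, hW3, ?_, ?_, ?_, ?_⟩
  · calc (1 / 4 : ℝ) ^ (N' + 1) ≤ (1 / 4) ^ 1 :=
          pow_le_pow_of_le_one (by norm_num) (by norm_num) (by omega)
      _ ≤ 1 / 2 := by norm_num
  · have : (1 : ℝ) ≤ 4 ^ N := one_le_pow₀ (by norm_num)
    linarith
  · intro z hz
    have : ζ' z = 1 := hone' z fun k hk => hz.trans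
      (pow_le_pow_of_le_one (by norm_num) (by norm_num) (by omega))
    simp [this]
  · intro z hz
    have : ζ z = 0 := hzero z fun k hk => le_trans (by
      have : (4 : ℝ) ^ (k + 1) ≤ 4 ^ N := pow_le_pow_right₀ (by norm_num) (by omega)
      linarith) hz
    simp [this]
  · have a1 : ζ e0 = 1 := hone e0 fun k _ => by
      rw [norm_e0]; exact one_le_pow₀ (by norm_num)
    have a2 : ζ' e0 = 0 := hzero' e0 fun k _ => by
      rw [norm_e0]
      have : (1 / 4 : ℝ) ^ (k + 1) ≤ (1 / 4) ^ 1 :=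
          pow_le_pow_of_le_one (by norm_num) (by norm_num) (by omega)
      linarith
    simp [a1, a2, h1]
  · obtain ⟨m3, m4⟩ := smul_le_one hW1.memLp (ζ := fun z => 1 - ζ' z) (continuous_const.sub hζ')
      (fun z => by linarith [hζ1' z]) (fun z => by linarith [hζ0' z])
    have h2 := hY _ _ m3 (he'.const_smul (-1 : ℝ))
    have h4 : En ((-1 : ℝ) • e') = En e' := by
      have : En ((-1 : ℝ) • e') = (-1) ^ 4 * En e' := En_smul (-1) e'
      rw [this]; norm_num
    have h3 : D * En e' ≤ D * (lam0 / 50 / D) := by gcongr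
    rw [mul_div_cancel₀ _ hD.ne'] at h3
    have h5 : (fun x => ζ x • g x + e x - (ζ' x • (ζ x • g x + e x) + e' x))
        = fun x => (1 - ζ' x) • (ζ x • g x + e x) + ((-1 : ℝ) • e') x := by
      ext1 x
      simp only [Pi.smul_apply]
      module
    rw [h5]
    rw [h4] at h2
    nlinarith

end Pool.Agent.MP_e9cdae_an
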