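import Pool.Agent.MP_e9cdae_an.Cutoff

/-! Deformation of admissible functions and the one-peak lemma. -/

open MeasureTheory Set Filter Topology
open scoped ContDiff InnerProductSpace ENNReal Gradient

namespace Pool.Agent.MP_e9cdae_an

lemma convex_pow4 {a : ℝ} (h0 : 0 ≤ a) (h1 : a ≤ 1) (x y : E) :
    ‖a • x + (1 - a) • y‖ ^ 4 ≤ a * ‖x‖ ^ 4 + (1 - a) * ‖y‖ ^ 4 := by
  have h2 : ‖a • x + (1 - a) • y‖ ≤ a * ‖x‖ + (1 - a) * ‖y‖ := by
    refine (norm_add_le _ _).trans ?_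
    rw [norm_smul, norm_smul, Real.norm_of_nonneg h0, Real.norm_of_nonneg (by linarith)]
  have h3 := (convexOn_pow (𝕜 := ℝ) 4).2 (mem_Ici.2 (norm_nonneg x)) (mem_Ici.2 (norm_nonneg y)) h0
    (by linarith : 0 ≤ 1 - a) (by ring)
  simp only [smul_eq_mul] at h3
  exact (pow_le_pow_left₀ (norm_nonneg _) h2 4).trans h3

theorem deform {η : E → ℝ} (hη : ContDiff ℝ ∞ η) (cη : HasCompactSupport η) (h0 : ∀ z, 0 ≤ η z)
    (h1 : ∀ z, η z ≤ 1) {B ρ κ : ℝ} (hB : 0 ≤ B) (hκ : 0 < κ) :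
    ∃ l : ℝ, 1 < l ∧ ∀ (u : E → ℝ) (g : E → E), W u g → En g ≤ B →
      ∃ g' : E → E, W (fun z => η z * u z + (1 - η z) * u (l • z)) g' ∧ En g' ≤ En g + κ ∧
        ∀ x, ‖x‖ ≤ ρ → |u (l • x) - u x| ≤ κ := by
  obtain ⟨C, hC, hM⟩ := morrey
  obtain ⟨L, hL⟩ := ContDiff.lipschitzWith_of_hasCompactSupport cη hη (by simp)
  obtain ⟨ρ₁, hρ₁, hsupp⟩ := cη.isCompact.isBounded.subset_ball_lt 0 0
  have iJ : Integrable fun z : E => ‖z‖ ^ 2 * ‖∇ η z‖ ^ 4 := by
    refine int_mul_cs (by fun_prop) ((cont_grad hη).norm.pow 4) ?_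
    refine HasCompactSupport.intro cη fun x hx => ?_
    simp [grad_eq_zero_of_notMem hx]
  set J := ∫ z : E, ‖z‖ ^ 2 * ‖∇ η z‖ ^ 4 with hJ
  have hJ0 : 0 ≤ J := integral_nonneg fun z => by positivity
  set θ := κ / (2 * (B + 1)) with hθ
  have hθ0 : 0 < θ := by positivity
  obtain ⟨D, hD, hY⟩ := young4 hθ0
  have ev1 : ∀ᶠ l : ℝ in 𝓝 1,
      ((1 + θ) * (l ^ 2 + L * ρ₁ * (l - 1)) - 1) * B + D * (C * (l - 1) ^ 2 * B * J) < κ := by
    have hc : Continuous fun l : ℝ =>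
        ((1 + θ) * (l ^ 2 + L * ρ₁ * (l - 1)) - 1) * B + D * (C * (l - 1) ^ 2 * B * J) := by
      fun_prop
    refine hc.continuousAt.eventually (gt_mem_nhds ?_)
    have : θ * B < κ := by
      rw [hθ, div_mul_eq_mul_div, div_lt_iff₀ (by positivity)]; nlinarith
    simp only [one_pow, sub_self, mul_zero, add_zero, mul_one, add_sub_cancel_left, ne_eq,
      OfNat.ofNat_ne_zero, not_false_eq_true, zero_pow, zero_mul]
    exact this
  have ev2 : ∀ᶠ l : ℝ in 𝓝 1, C * ((l - 1) * ρ) ^ 2 * B < κ ^ 4 := by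
    have hc : Continuous fun l : ℝ => C * ((l - 1) * ρ) ^ 2 * B := by fun_prop
    refine hc.continuousAt.eventually (gt_mem_nhds ?_)
    simp only [sub_self, zero_mul, ne_eq, OfNat.ofNat_ne_zero, not_false_eq_true, zero_pow,
      mul_zero]
    positivity
  obtain ⟨l, ⟨hl1, hl2⟩, hl⟩ :=
    (((ev1.and ev2).filter_mono (nhdsWithin_le_nhds (s := Ioi 1))).and self_mem_nhdsWithin).exists
  have hl' : 1 < l := hl
  have hl0 : 0 < l := by linarith
  refine ⟨l, hl', fun u g hW hE => ?_⟩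
  have hEn := En_nonneg g
  have hS : ∀ z, sim l (LinearIsometryEquiv.refl ℝ E) 0 z = l • z := fun z => by simp [sim]
  have hWS : W (fun z => u (l • z)) (fun z => l • g (l • z)) := by
    refine (hW.comp_sim hl0 (LinearIsometryEquiv.refl ℝ E) 0).congr (fun z => by rw [hS])
      (fun z => by rw [hS]; rfl)
  have hdiff : ∀ z, (u (l • z) - u z) ^ 4 ≤ C * ((l - 1) * ‖z‖) ^ 2 * B := by
    intro z
    have := hM u g hW z (l • z)
    have e : l • z - z = (l - 1) • z := by module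
    rw [e, norm_smul, Real.norm_of_nonneg (by linarith)] at this
    exact this.trans (by gcongr)
  refine ⟨fun z => (η z • g z + (1 - η z) • (l • g (l • z))) + (u z - u (l • z)) • ∇ η z, ?_, ?_,
    fun x hx => ?_⟩
  · refine ((hW.mul_smooth hη cη).add (hWS.sub (hWS.mul_smooth hη cη))).congr
      (fun z => by ring) (fun z => by module)
  · have m1 := (smul_le_one hW.memLp hη.continuous h0 h1).1
    have m2 := (smul_le_one hWS.memLp (ζ := fun z => 1 - η z) (continuous_const.sub hη.continuous)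
      (fun z => by linarith [h1 z]) (fun z => by linarith [h0 z])).1
    have m3 : MemLp (fun z => (u z - u (l • z)) • ∇ η z) 4 volume :=
      ((hW.cont.sub hWS.cont).smul (cont_grad hη)).memLp_of_hasCompactSupport
        (cs_grad cη).smul_left
    have k1 := hY _ _ (m1.add m2) m3
    have k2 : En (fun z => (u z - u (l • z)) • ∇ η z) ≤ C * (l - 1) ^ 2 * B * J := by
      rw [hJ, ← integral_const_mul]
      refine integral_mono (int4 m3) (iJ.const_mul _) fun z => ?_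
      simp only [norm_smul, mul_pow, Real.norm_eq_abs]
      have h3 : |u z - u (l • z)| ^ 4 = (u (l • z) - u z) ^ 4 := by
        rw [abs_sub_comm, show (4 : ℕ) = 2 * 2 from rfl, pow_mul, pow_mul, sq_abs]
      rw [h3]
      calc _ ≤ C * ((l - 1) * ‖z‖) ^ 2 * B * ‖∇ η z‖ ^ 4 := by gcongr; exact hdiff z
        _ = _ := by ring
    have i1 : Integrable fun z => η z * ‖g z‖ ^ 4 :=
      (int4 hW.memLp).bdd_mul (c := 1) hη.continuous.aestronglyMeasurable
        (Eventually.of_forall fun z => by rw [Real.norm_of_nonneg (h0 z)]; exact h1 z)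
    have hc2 : Continuous fun w : E => 1 - η (l⁻¹ • w) :=
      continuous_const.sub (hη.continuous.comp (continuous_const_smul _))
    have i2 : Integrable fun w => (1 - η (l⁻¹ • w)) * ‖g w‖ ^ 4 :=
      (int4 hW.memLp).bdd_mul (c := 1) hc2.aestronglyMeasurable
        (Eventually.of_forall fun z => by
          rw [Real.norm_of_nonneg (by linarith [h1 (l⁻¹ • z)])]; linarith [h0 (l⁻¹ • z)])
    have i3 : Integrable fun z => (1 - η z) * ‖l • g (l • z)‖ ^ 4 :=
      (int4 hWS.memLp).bdd_mul (c := 1) (continuous_const.sub hη.continuous).aestronglyMeasurable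
        (Eventually.of_forall fun z => by
          rw [Real.norm_of_nonneg (by linarith [h1 z])]; linarith [h0 z])
    have e3 : ∫ z, (1 - η z) * ‖l • g (l • z)‖ ^ 4
        = l ^ 2 * ∫ w, (1 - η (l⁻¹ • w)) * ‖g w‖ ^ 4 := by
      have e1 := integral_comp_sim hl0 (LinearIsometryEquiv.refl ℝ E) 0
        (fun w => (1 - η (l⁻¹ • w)) * ‖g w‖ ^ 4)
      simp only [hS, smul_smul, inv_mul_cancel₀ hl0.ne', one_smul] at e1
      have e2 : (fun z => (1 - η z) * ‖l • g (l • z)‖ ^ 4)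
          = fun z => l ^ 4 * ((1 - η z) * ‖g (l • z)‖ ^ 4) := by
        ext z; rw [norm_smul, Real.norm_of_nonneg hl0.le]; ring
      rw [e2, integral_const_mul, e1]
      field_simp
    have k3 : En ((fun z => η z • g z) + fun z => (1 - η z) • (l • g (l • z)))
        ≤ (l ^ 2 + L * ρ₁ * (l - 1)) * En g := by
      calc _ ≤ ∫ z, (η z * ‖g z‖ ^ 4 + (1 - η z) * ‖l • g (l • z)‖ ^ 4) :=
            integral_mono (int4 (m1.add m2)) (i1.add i3) fun z => convex_pow4 (h0 z) (h1 z) _ _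
        _ = ∫ w, (η w * ‖g w‖ ^ 4 + l ^ 2 * ((1 - η (l⁻¹ • w)) * ‖g w‖ ^ 4)) := by
            rw [integral_add i1 i3, e3, integral_add i1 (i2.const_mul _), integral_const_mul]
        _ ≤ ∫ w, (l ^ 2 + L * ρ₁ * (l - 1)) * ‖g w‖ ^ 4 := by
            refine integral_mono (i1.add (i2.const_mul _)) ((int4 hW.memLp).const_mul _)
              fun w => ?_
            have hω : η w - η (l⁻¹ • w) ≤ L * ρ₁ * (l - 1) := by
              by_cases hw : η w = 0
              · have : 0 ≤ (L : ℝ) * ρ₁ * (l - 1) := mul_nonneg (by positivity) (by linarith)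
                linarith [h0 (l⁻¹ • w)]
              · have hw' := hsupp (subset_tsupport η hw)
                rw [Metric.mem_ball, dist_zero_right] at hw'
                have h5 := hL.dist_le_mul w (l⁻¹ • w)
                have e : w - l⁻¹ • w = (1 - l⁻¹) • w := by module
                have h6 : 1 - l⁻¹ ≤ l - 1 := by
                  have : l⁻¹ * l = 1 := inv_mul_cancel₀ hl0.ne'
                  nlinarith [sq_nonneg (l - 1), inv_pos.2 hl0]
                have h7 : 0 ≤ 1 - l⁻¹ := by linarith [inv_le_one_of_one_le₀ hl'.le]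
                rw [Real.dist_eq, dist_eq_norm, e, norm_smul, Real.norm_of_nonneg h7] at h5
                calc _ ≤ _ := le_abs_self _
                  _ ≤ _ := h5
                  _ ≤ L * ((l - 1) * ρ₁) := by gcongr
                  _ = _ := by ring
            have hl2 : 1 ≤ l ^ 2 := one_le_pow₀ hl'.le
            have : η w + l ^ 2 * (1 - η (l⁻¹ • w)) ≤ l ^ 2 + L * ρ₁ * (l - 1) := by
              nlinarith [h0 (l⁻¹ • w)]
            have h4 : 0 ≤ ‖g w‖ ^ 4 := by positivity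
            simp only
            nlinarith
        _ = _ := by rw [integral_const_mul]; rfl
    have hcoef : 1 ≤ (1 + θ) * (l ^ 2 + L * ρ₁ * (l - 1)) := by
      have hl2 : 1 ≤ l ^ 2 := one_le_pow₀ hl'.le
      have : 0 ≤ (L : ℝ) * ρ₁ * (l - 1) := mul_nonneg (by positivity) (by linarith)
      nlinarith
    have k4 : ((1 + θ) * (l ^ 2 + L * ρ₁ * (l - 1)) - 1) * En g
        ≤ ((1 + θ) * (l ^ 2 + L * ρ₁ * (l - 1)) - 1) * B := by gcongr
    have k5 : D * En (fun z => (u z - u (l • z)) • ∇ η z) ≤ D * (C * (l - 1) ^ 2 * B * J) := by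
      gcongr
    have k6 : (1 + θ) * En ((fun z => η z • g z) + fun z => (1 - η z) • (l • g (l • z)))
        ≤ (1 + θ) * ((l ^ 2 + L * ρ₁ * (l - 1)) * En g) := by gcongr
    refine k1.trans ?_
    nlinarith
  · refine abs_le_of_pow4 hκ.le ((hdiff x).trans (le_trans ?_ hl2.le))
    have : 0 ≤ l - 1 := by linarith
    gcongr

lemma var_pt (g h : E) {s : ℝ} (hs0 : 0 ≤ s) (hs : s ≤ 1) :
    ‖g - s • h‖ ^ 4 ≤ ‖g‖ ^ 4 - 4 * s * (‖g‖ ^ 2 * ⟪g, h⟫_ℝ) + 11 * s ^ 2 * (‖g‖ ^ 4 + ‖h‖ ^ 4) := by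
  have e : ‖g - s • h‖ ^ 2 = ‖g‖ ^ 2 - 2 * s * ⟪g, h⟫_ℝ + s ^ 2 * ‖h‖ ^ 2 := by
    rw [norm_sub_sq_real, inner_smul_right, norm_smul, Real.norm_of_nonneg hs0]; ring
  have hcs := abs_real_inner_le_norm g h
  set a := ‖g‖ with ha
  set b := ‖h‖ with hb
  set p := ⟪g, h⟫_ℝ with hp
  have ha0 : 0 ≤ a := norm_nonneg _
  have hb0 : 0 ≤ b := norm_nonneg _
  have e2 : ‖g - s • h‖ ^ 4 = (a ^ 2 - 2 * s * p + s ^ 2 * b ^ 2) ^ 2 := by rw [← e]; ring
  have p2 : p ^ 2 ≤ a ^ 2 * b ^ 2 := by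
    rw [← sq_abs, ← mul_pow]; gcongr
  have q1 : a ^ 2 * b ^ 2 ≤ a ^ 4 + b ^ 4 := by nlinarith [sq_nonneg (a ^ 2 - b ^ 2), sq_nonneg (a*b)]
  have q2 : a * b * b ^ 2 ≤ a ^ 4 + b ^ 4 := by
    have : a * b ≤ (a ^ 2 + b ^ 2) / 2 := by nlinarith [sq_nonneg (a - b)]
    have : a * b * b ^ 2 ≤ (a ^ 2 + b ^ 2) / 2 * b ^ 2 := by gcongr
    nlinarith [sq_nonneg (a ^ 2 - b ^ 2), pow_nonneg ha0 4, pow_nonneg hb0 4]
  have q3 : -(p * b ^ 2) ≤ a ^ 4 + b ^ 4 := by
    have : -p ≤ a * b := (neg_le_abs p).trans hcs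
    have : -p * b ^ 2 ≤ a * b * b ^ 2 := by gcongr
    linarith
  have q4 : s * (-(p * b ^ 2)) ≤ a ^ 4 + b ^ 4 := by
    have : s * (-(p * b ^ 2)) ≤ s * (a ^ 4 + b ^ 4) := by gcongr
    have : s * (a ^ 4 + b ^ 4) ≤ 1 * (a ^ 4 + b ^ 4) := by gcongr
    linarith
  have q5 : s ^ 2 * b ^ 4 ≤ a ^ 4 + b ^ 4 := by
    have : s ^ 2 ≤ 1 := pow_le_one₀ hs0 hs
    have : s ^ 2 * b ^ 4 ≤ 1 * b ^ 4 := by gcongr
    nlinarith [pow_nonneg ha0 4]
  have e3 : (a ^ 2 - 2 * s * p + s ^ 2 * b ^ 2) ^ 2 = a ^ 4 - 4 * s * (a ^ 2 * p)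
      + s ^ 2 * (4 * p ^ 2 + 2 * (a ^ 2 * b ^ 2) + 4 * (s * (-(p * b ^ 2))) + s ^ 2 * b ^ 4) := by
    ring
  rw [e2, e3]
  have : s ^ 2 * (4 * p ^ 2 + 2 * (a ^ 2 * b ^ 2) + 4 * (s * (-(p * b ^ 2))) + s ^ 2 * b ^ 4)
      ≤ s ^ 2 * (11 * (a ^ 4 + b ^ 4)) := by gcongr; linarith
  linarith

/-- A function minimising the energy both under a constraint at `x₁` and under a constraint at
`x₂ ≠ x₁` has zero energy. -/
theorem one_peak {K : Set E} {u : E → ℝ} {g : E → E} (hW : W u g) (hK : ∀ z ∈ K, u z = 0)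
    {x₁ x₂ : E} (hne : x₁ ≠ x₂)
    (m₁ : ∀ (v : E → ℝ) (k : E → E), W v k → (∀ z ∈ K, v z = 0) → v x₁ = u x₁ → En g ≤ En k)
    (m₂ : ∀ (v : E → ℝ) (k : E → E), W v k → (∀ z ∈ K, v z = 0) → v x₂ = u x₂ → En g ≤ En k) :
    En g = 0 := by
  have hr : 0 < ‖x₂ - x₁‖ := norm_pos_iff.2 (sub_ne_zero.2 hne.symm)
  obtain ⟨η, hη, cη, hη1, hη0⟩ := exists_bump x₁ hr
  have W1 := hW.mul_smooth hη cη
  have W2 := hW.sub W1
  set h₁ := fun x => η x • g x + u x • ∇ η x with hh₁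
  set h₂ := fun x => g x - h₁ x with hh₂
  have hEn := En_nonneg g
  have hE1 := En_nonneg h₁
  have hE2 := En_nonneg h₂
  have key : ∀ s : ℝ, 0 < s → s ≤ 1 → 4 * En g ≤ 11 * s * (2 * En g + En h₁ + En h₂) := by
    intro s hs0 hs1
    have a1 := m₂ _ _ (hW.sub (W1.smul s)) (fun z hz => by simp [hK z hz])
      (by simp [hη0 x₂ le_rfl])
    have a2 := m₁ _ _ (hW.sub (W2.smul s)) (fun z hz => by simp [hK z hz]) (by simp [hη1])
    have i0 := int4 hW.memLp
    have i1 := int4 W1.memLp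
    have i2 := int4 W2.memLp
    have j1 := int4 (hW.sub (W1.smul s)).memLp
    have j2 := int4 (hW.sub (W2.smul s)).memLp
    have a3 : En (fun x => g x - s • h₁ x) + En (fun x => g x - s • h₂ x)
        ≤ (2 - 4 * s + 22 * s ^ 2) * En g + 11 * s ^ 2 * En h₁ + 11 * s ^ 2 * En h₂ := by
      unfold En
      have i01 : Integrable fun x => (2 - 4 * s + 22 * s ^ 2) * ‖g x‖ ^ 4
          + 11 * s ^ 2 * ‖h₁ x‖ ^ 4 := (i0.const_mul _).add (i1.const_mul _)
      rw [← integral_add j1 j2, ← integral_const_mul, ← integral_const_mul, ← integral_const_mul,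
        ← integral_add (i0.const_mul _) (i1.const_mul _),
        ← integral_add i01 (i2.const_mul _)]
      refine integral_mono (j1.add j2) (i01.add (i2.const_mul _)) fun x => ?_
      have b1 := var_pt (g x) (h₁ x) hs0.le hs1
      have b2 := var_pt (g x) (h₂ x) hs0.le hs1
      have b3 : ⟪g x, h₂ x⟫_ℝ = ‖g x‖ ^ 2 - ⟪g x, h₁ x⟫_ℝ := by
        simp only [hh₂]; rw [inner_sub_right, real_inner_self_eq_norm_sq]
      rw [b3] at b2
      simp only
      nlinarith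
    have a4 : s * (4 * En g) ≤ s * (11 * s * (2 * En g + En h₁ + En h₂)) := by nlinarith
    exact le_of_mul_le_mul_left a4 hs0
  by_contra hne0
  have hpos : 0 < En g := lt_of_le_of_ne hEn (Ne.symm hne0)
  set T := 2 * En g + En h₁ + En h₂ with hT
  have hT0 : 0 < T := by positivity
  have := key (En g / (11 * T)) (by positivity) (by
    rw [div_le_one (by positivity)]; linarith)
  have e : 11 * (En g / (11 * T)) * T = En g := by field_simp
  linarith

end Pool.Agent.MP_e9cdae_an
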