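import Mathlib

/-! Definitions for the Hardy-Morrey problem. -/

open MeasureTheory
open scoped ENNReal ContDiff

namespace Pool.Agent.MP_e9cdae_an

/-- `g` is the weak gradient of `u` on all of Euclidean space: its `i`-th coordinate is the weak
`i`-th first order derivative of `u`. -/
def IsWeakGradient {n : ℕ} (u : EuclideanSpace ℝ (Fin n) → ℝ)
    (g : EuclideanSpace ℝ (Fin n) → EuclideanSpace ℝ (Fin n)) : Prop :=
  ∀ φ : EuclideanSpace ℝ (Fin n) → ℝ, ContDiff ℝ ∞ φ → HasCompactSupport φ → ∀ i : Fin n,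
    ∫ x, u x * fderiv ℝ φ x (EuclideanSpace.single i 1) = - ∫ x, g x i * φ x

/-- `u` (continuous representative) lies in `D^{1,p}_0(Ω)` and `g` is its weak gradient. -/
def MemD0 {n : ℕ} (p : ℝ) (Ω : Set (EuclideanSpace ℝ (Fin n)))
    (u : EuclideanSpace ℝ (Fin n) → ℝ)
    (g : EuclideanSpace ℝ (Fin n) → EuclideanSpace ℝ (Fin n)) : Prop :=
  Continuous u ∧ IsWeakGradient u g ∧ MemLp g (ENNReal.ofReal p) volume ∧ ∀ x, x ∉ Ω → u x = 0

/-- The quotient `R_p(Ω,u)`, where `g` is the weak gradient of `u`. -/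
noncomputable def quotient {n : ℕ} (p : ℝ) (Ω : Set (EuclideanSpace ℝ (Fin n)))
    (u : EuclideanSpace ℝ (Fin n) → ℝ)
    (g : EuclideanSpace ℝ (Fin n) → EuclideanSpace ℝ (Fin n)) : ℝ≥0∞ :=
  eLpNorm (Ω.indicator fun x => u x / Metric.infDist x (compl Ω) ^ (1 - (n : ℝ) / p)) ⊤ volume ^ (-p) *
    eLpNorm g (ENNReal.ofReal p) volume ^ p

/-- The sharp constant `λ_p(Ω)`. -/
noncomputable def sharpConst {n : ℕ} (p : ℝ) (Ω : Set (EuclideanSpace ℝ (Fin n))) : ℝ≥0∞ :=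
  ⨅ (u : EuclideanSpace ℝ (Fin n) → ℝ) (g : EuclideanSpace ℝ (Fin n) → EuclideanSpace ℝ (Fin n))
    (_ : MemD0 p Ω u g) (_ : u ≠ 0), quotient p Ω u g

/-- `u` is an extremal of the Hardy-Morrey inequality on `Ω`. -/
def IsExtremal {n : ℕ} (p : ℝ) (Ω : Set (EuclideanSpace ℝ (Fin n)))
    (u : EuclideanSpace ℝ (Fin n) → ℝ) : Prop :=
  u ≠ 0 ∧ ∃ g, MemD0 p Ω u g ∧ quotient p Ω u g = sharpConst p Ω

end Pool.Agent.MP_e9cdae_an
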