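import Pool.Agent.MP_e9cdae_an.Morrey

/-! The family of domains: a convex quadrilateral with two small closed discs removed. -/

open MeasureTheory Set Filter Topology
open scoped ContDiff InnerProductSpace ENNReal Gradient

namespace Pool.Agent.MP_e9cdae_an

noncomputable def e1 : E := EuclideanSpace.single 1 1

noncomputable def pt (a b : ℝ) : E := a • e0 + b • e1

@[simp] lemma pt_zero (a b : ℝ) : pt a b 0 = a := by simp [pt, e0, e1]
@[simp] lemma pt_one (a b : ℝ) : pt a b 1 = b := by simp [pt, e0, e1]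

lemma pt_eta (z : E) : pt (z 0) (z 1) = z := by
  ext i; fin_cases i <;> simp

def PP (h t : ℝ) : Set E := {z | -20 * h + h * (1 - 2 * t) < z 0 ∧ z 0 < 20 * h + h * (1 - 2 * t) ∧
  -h < z 1 ∧ z 1 < 2 * h + t * (1 - t) / 20 * z 0}

noncomputable def cc (h s : ℝ) : E := pt (10 * h * s) 0

def Om (h ε t : ℝ) : Set E := {z | z ∈ PP h t ∧ ε < ‖z - cc h 1‖ ∧ ε < ‖z - cc h (-1)‖}

lemma norm_sub_cc (h s : ℝ) (z : E) : ‖z - cc h s‖ ^ 2 = (z 0 - 10 * h * s) ^ 2 + z 1 ^ 2 := by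
  rw [norm_sq_E]; simp [cc]

lemma abs_coord0 (h s : ℝ) (z : E) : |z 0 - 10 * h * s| ≤ ‖z - cc h s‖ := by
  apply abs_le_of_sq_le_sq' _ (norm_nonneg _) |> abs_le.2
  rw [norm_sub_cc]; nlinarith [sq_nonneg (z 1)]

lemma abs_coord1 (h s : ℝ) (z : E) : |z 1| ≤ ‖z - cc h s‖ := by
  apply abs_le_of_sq_le_sq' _ (norm_nonneg _) |> abs_le.2
  rw [norm_sub_cc]; nlinarith [sq_nonneg (z 0 - 10 * h * s)]

lemma beta_bounds {t : ℝ} (ht : t ∈ Icc (0 : ℝ) 1) :
    0 ≤ t * (1 - t) / 20 ∧ t * (1 - t) / 20 ≤ 1 / 80 := by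
  constructor
  · have := mul_nonneg ht.1 (sub_nonneg.2 ht.2); linarith
  · nlinarith [sq_nonneg (t - 1 / 2)]

lemma tilt_bound {h t x : ℝ} (hh : 0 < h) (ht : t ∈ Icc (0 : ℝ) 1) (hx : |x| ≤ 21 * h) :
    |t * (1 - t) / 20 * x| ≤ 3 / 10 * h := by
  obtain ⟨b0, b1⟩ := beta_bounds ht
  rw [abs_mul, abs_of_nonneg b0]
  calc _ ≤ 1 / 80 * (21 * h) := by gcongr
    _ ≤ _ := by linarith

lemma PP_abs0 {h t : ℝ} (hh : 0 < h) (ht : t ∈ Icc (0 : ℝ) 1) {z : E} (hz : z ∈ PP h t) :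
    |z 0| ≤ 21 * h := by
  obtain ⟨h1, h2, -, -⟩ := hz
  rw [abs_le]
  constructor <;> nlinarith [ht.1, ht.2]

lemma PP_top {h t : ℝ} (hh : 0 < h) (ht : t ∈ Icc (0 : ℝ) 1) {z : E} (hz : z ∈ PP h t) :
    z 1 < 23 / 10 * h := by
  have := tilt_bound hh ht (PP_abs0 hh ht hz)
  have h2 := hz.2.2.2
  rw [abs_le] at this
  linarith [this.2]

lemma mem_PP {h t : ℝ} (hh : 0 < h) (ht : t ∈ Icc (0 : ℝ) 1) {z : E} (h0 : |z 0| < 19 * h)
    (h1 : -h < z 1) (h2 : z 1 ≤ 16 / 10 * h) : z ∈ PP h t := by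
  have := tilt_bound hh ht (x := z 0) (by linarith)
  rw [abs_le] at this
  rw [abs_lt] at h0
  refine ⟨by nlinarith [ht.1, ht.2], by nlinarith [ht.1, ht.2], h1, by linarith [this.1]⟩

lemma ball_subset_PP {h t s : ℝ} (hh : 0 < h) (ht : t ∈ Icc (0 : ℝ) 1) (hs : s = 1 ∨ s = -1)
    {z : E} (hz : ‖z - cc h s‖ < h) : z ∈ PP h t := by
  have a0 := (abs_coord0 h s z).trans_lt hz
  have a1 := (abs_coord1 h s z).trans_lt hz
  rw [abs_lt] at a0 a1
  refine mem_PP hh ht ?_ a1.1 (by linarith [a1.2])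
  rw [abs_lt]
  rcases hs with rfl | rfl <;> constructor <;> linarith [a0.1, a0.2]

lemma norm_cc_sub {h : ℝ} (hh : 0 < h) : ‖cc h 1 - cc h (-1)‖ = 20 * h := by
  have := norm_sub_cc h (-1) (cc h 1)
  apply (pow_left_inj₀ (norm_nonneg _) (by positivity) two_ne_zero).1
  rw [this]; simp [cc]; ring

lemma far_cc {h : ℝ} (hh : 0 < h) (z : E) : 20 * h ≤ ‖z - cc h 1‖ + ‖z - cc h (-1)‖ := by
  rw [← norm_cc_sub hh]
  have : cc h 1 - cc h (-1) = (z - cc h (-1)) - (z - cc h 1) := by abel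
  rw [this, add_comm]
  exact norm_sub_le _ _

lemma convex_PP (h t : ℝ) : Convex ℝ (PP h t) := by
  intro x hx y hy a b ha hb hab
  obtain ⟨x1, x2, x3, x4⟩ := hx
  obtain ⟨y1, y2, y3, y4⟩ := hy
  have key : ∀ p q c : ℝ, c < p → c < q → c < a * p + b * q := by
    intro p q c hp hq
    rcases ha.eq_or_lt with rfl | ha'
    · simp at hab; simp [hab, hq]
    · have : c = a * c + b * c := by rw [← add_mul, hab, one_mul]
      nlinarith [mul_le_mul_of_nonneg_left hq.le hb, mul_lt_mul_of_pos_left hp ha']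
  simp only [PP, mem_ofPred_eq, PiLp.add_apply, PiLp.smul_apply, smul_eq_mul]
  refine ⟨key _ _ _ x1 y1, ?_, key _ _ _ x3 y3, ?_⟩
  · have := key (-x 0) (-y 0) (-(20 * h + h * (1 - 2 * t))) (by linarith) (by linarith)
    linarith
  · have := key (t * (1 - t) / 20 * x 0 - x 1) (t * (1 - t) / 20 * y 0 - y 1) (-(2 * h))
      (by linarith) (by linarith)
    linarith

lemma isOpen_PP (h t : ℝ) : IsOpen (PP h t) := by
  unfold PP
  refine IsOpen.and ?_ (IsOpen.and ?_ (IsOpen.and ?_ ?_)) <;>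
    exact isOpen_lt (by fun_prop) (by fun_prop)

lemma isOpen_Om (h ε t : ℝ) : IsOpen (Om h ε t) := by
  unfold Om
  refine IsOpen.and (isOpen_PP h t) (IsOpen.and ?_ ?_) <;>
    exact isOpen_lt (by fun_prop) (by fun_prop)

lemma bounded_Om {h ε t : ℝ} (hh : 0 < h) (ht : t ∈ Icc (0 : ℝ) 1) :
    Bornology.IsBounded (Om h ε t) := by
  refine (Metric.isBounded_closedBall (x := (0 : E)) (r := 24 * h)).subset fun z hz => ?_
  have h0 := PP_abs0 hh ht hz.1
  have h1 := PP_top hh ht hz.1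
  have h2 := hz.1.2.2.1
  rw [Metric.mem_closedBall, dist_zero_right]
  apply le_of_sq_le_sq _ (by positivity)
  rw [norm_sq_E]
  rw [abs_le] at h0
  nlinarith [h0.1, h0.2]

lemma mem_Om_of_abs1 {h ε t : ℝ} {z : E} (hz : z ∈ PP h t) (h1 : ε < |z 1|) : z ∈ Om h ε t :=
  ⟨hz, h1.trans_le (abs_coord1 h 1 z), h1.trans_le (abs_coord1 h (-1) z)⟩

lemma connected_Om {h ε t : ℝ} (hh : 4 ≤ h) (hε : 0 < ε) (hε' : ε ≤ 1 / 2)
    (ht : t ∈ Icc (0 : ℝ) 1) : IsConnected (Om h ε t) := by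
  have hh0 : 0 < h := by linarith
  have mid : ∀ y : ℝ, |y| ≤ 2 → pt 0 y ∈ Om h ε t := by
    intro y hy
    rw [abs_le] at hy
    refine ⟨mem_PP hh0 ht (by simp; linarith) (by simp; linarith) (by simp; linarith), ?_, ?_⟩
    · refine lt_of_lt_of_le ?_ (abs_coord0 h 1 _)
      simp only [pt_zero, mul_one, zero_sub, abs_neg]
      rw [abs_of_pos (by linarith)]; linarith
    · refine lt_of_lt_of_le ?_ (abs_coord0 h (-1) _)
      simp only [pt_zero, mul_neg, mul_one, sub_neg_eq_add, zero_add]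
      rw [abs_of_pos (by linarith)]; linarith
  have seg : ∀ x y : E, (∀ a b : ℝ, 0 ≤ a → 0 ≤ b → a + b = 1 → a • x + b • y ∈ Om h ε t) →
      JoinedIn (Om h ε t) x y := fun x y H => JoinedIn.of_segment_subset (by
    rintro _ ⟨a, b, ha, hb, hab, rfl⟩; exact H a b ha hb hab)
  have main : ∀ σ : ℝ, (σ = 1 ∨ σ = -1) → ∀ z ∈ Om h ε t, 0 ≤ σ * z 1 →
      JoinedIn (Om h ε t) (pt 0 0) z := by
    intro σ hσ z hz hs
    have hσ2 : σ * σ = 1 := by rcases hσ with rfl | rfl <;> norm_num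
    have hσa : |2 * σ| ≤ 2 := by rcases hσ with rfl | rfl <;> norm_num
    have hp : pt (z 0) (2 * σ) ∈ PP h t := by
      have := tilt_bound hh0 ht (PP_abs0 hh0 ht hz.1)
      rw [abs_le] at this hσa
      exact ⟨by simpa using hz.1.1, by simpa using hz.1.2.1, by simp; linarith [hσa.1],
        by simp only [pt_zero, pt_one]; linarith [hσa.2, this.1]⟩
    have j1 : JoinedIn (Om h ε t) (pt 0 0) (pt 0 (2 * σ)) := seg _ _ fun a b ha hb hab => by
      have : a • pt 0 0 + b • pt 0 (2 * σ) = pt 0 (b * (2 * σ)) := by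
        ext i; fin_cases i <;> simp
      rw [this]
      apply mid
      rw [abs_mul, abs_of_nonneg hb]
      nlinarith [abs_nonneg (2 * σ)]
    have j2 : JoinedIn (Om h ε t) (pt 0 (2 * σ)) (pt (z 0) (2 * σ)) :=
      seg _ _ fun a b ha hb hab => by
      refine mem_Om_of_abs1 (convex_PP h t (mid _ hσa).1 hp ha hb hab) ?_
      have : (a • pt 0 (2 * σ) + b • pt (z 0) (2 * σ)) 1 = 2 * σ := by
        simp only [PiLp.add_apply, PiLp.smul_apply, pt_one, smul_eq_mul]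
        rw [← add_mul, hab, one_mul]
      rw [this]
      rcases hσ with rfl | rfl <;> norm_num <;> linarith
    have j3 : JoinedIn (Om h ε t) (pt (z 0) (2 * σ)) z := seg _ _ fun a b ha hb hab => by
      have hP := convex_PP h t hp hz.1 ha hb hab
      have c0 : (a • pt (z 0) (2 * σ) + b • z) 0 = z 0 := by
        simp only [PiLp.add_apply, PiLp.smul_apply, pt_zero, smul_eq_mul]
        rw [← add_mul, hab, one_mul]
      have c1 : (a • pt (z 0) (2 * σ) + b • z) 1 = a * (2 * σ) + b * z 1 := by simp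
      by_cases hz1 : 1 ≤ σ * z 1
      · refine mem_Om_of_abs1 hP ?_
        rw [c1, lt_abs]
        rcases hσ with rfl | rfl
        · left; nlinarith
        · right; nlinarith
      · have hsq : z 1 ^ 2 ≤ (a * (2 * σ) + b * z 1) ^ 2 := by
          have hb' : b = 1 - a := by linarith
          subst hb'
          rcases hσ with rfl | rfl
          · apply pow_le_pow_left₀ (by linarith); nlinarith
          · have : (-z 1) ^ 2 ≤ (-(a * (2 * (-1)) + (1 - a) * z 1)) ^ 2 := by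
              apply pow_le_pow_left₀ (by linarith); nlinarith
            nlinarith
        have key : ∀ s : ℝ, ‖z - cc h s‖ ≤ ‖a • pt (z 0) (2 * σ) + b • z - cc h s‖ := by
          intro s
          apply le_of_sq_le_sq _ (norm_nonneg _)
          rw [norm_sub_cc, norm_sub_cc, c0, c1]
          linarith
        exact ⟨hP, hz.2.1.trans_le (key _), hz.2.2.trans_le (key _)⟩
    exact (j1.trans j2).trans j3
  refine IsPathConnected.isConnected ⟨pt 0 0, mid 0 (by norm_num), fun z hz => ?_⟩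
  rcases le_total 0 (z 1) with h1 | h1
  · exact main 1 (Or.inl rfl) z hz (by linarith)
  · exact main (-1) (Or.inr rfl) z hz (by linarith)

lemma dilate_PP {h : ℝ} (hh : 0 < h) {l : ℝ} (hl : 1 < l) {t t' : ℝ} (ht : t ∈ Icc (0 : ℝ) 1)
    (ht' : t' ∈ Icc (0 : ℝ) 1) (htt : |t - t'| ≤ (l - 1) / l) {z : E} (hz : l • z ∈ PP h t) :
    z ∈ PP h t' := by
  have h21 := PP_abs0 hh ht hz
  obtain ⟨h1, h2, h3, h4⟩ := hz
  simp only [PiLp.smul_apply, smul_eq_mul] at h1 h2 h3 h4 h21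
  have hl0 : 0 < l := by linarith
  have hd : |t - t'| ≤ l - 1 := htt.trans (div_le_self (by linarith) hl.le)
  have hz0 : |z 0| ≤ 21 * h := by
    rw [abs_mul, abs_of_pos hl0] at h21
    nlinarith [abs_nonneg (z 0)]
  have hd' := abs_le.1 hd
  refine ⟨?_, ?_, ?_, ?_⟩
  · by_contra hc
    push Not at hc
    have : z 0 ≤ -19 * h := by nlinarith [ht'.1]
    have : l * z 0 ≤ z 0 - 19 * h * (l - 1) := by nlinarith
    nlinarith [hd'.1, hd'.2]
  · by_contra hc
    push Not at hc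
    have : 19 * h ≤ z 0 := by nlinarith [ht'.2]
    have : z 0 + 19 * h * (l - 1) ≤ l * z 0 := by nlinarith
    nlinarith [hd'.1, hd'.2]
  · by_contra hc
    push Not at hc
    nlinarith
  · by_contra hc
    push Not at hc
    have hb : |t * (1 - t) / 20 - t' * (1 - t') / 20| ≤ (l - 1) / l / 20 := by
      have : t * (1 - t) / 20 - t' * (1 - t') / 20 = (t - t') * (1 - t - t') / 20 := by ring
      rw [this, abs_div, abs_mul, abs_of_pos (by norm_num : (0 : ℝ) < 20)]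
      have h5 : |1 - t - t'| ≤ 1 := by
        rw [abs_le]; constructor <;> linarith [ht.1, ht.2, ht'.1, ht'.2]
      have h6 : |t - t'| * |1 - t - t'| ≤ (l - 1) / l * 1 := by gcongr
      linarith
    have h7 : |(t * (1 - t) / 20 - t' * (1 - t') / 20) * z 0| ≤ (l - 1) / l / 20 * (21 * h) := by
      rw [abs_mul]; gcongr
    have h8 := (abs_le.1 h7).2
    have h9 : 2 * h - (l - 1) / l / 20 * (21 * h) ≤ z 1 - t * (1 - t) / 20 * z 0 := by nlinarith
    have h10 : l * (2 * h - (l - 1) / l / 20 * (21 * h)) ≤ l * (z 1 - t * (1 - t) / 20 * z 0) := by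
      gcongr
    have h11 : l * (2 * h - (l - 1) / l / 20 * (21 * h)) = 2 * h * l - (l - 1) * h * (21 / 20) := by
      field_simp
    nlinarith

end Pool.Agent.MP_e9cdae_an
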