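import Pool.Agent.MP_e9cdae_an.Complete

/-! The sharp Morrey constant, half-planes and large discs. -/

open MeasureTheory Set Filter Topology
open scoped ContDiff InnerProductSpace ENNReal Gradient

namespace Pool.Agent.MP_e9cdae_an

def lamSet : Set ℝ := {e | ∃ (u : E → ℝ) (g : E → E), W u g ∧ u 0 = 0 ∧ u e0 = 1 ∧ En g = e}

noncomputable def lam0 : ℝ := sInf lamSet

lemma exists_bump (x : E) {r : ℝ} (hr : 0 < r) : ∃ η : E → ℝ, ContDiff ℝ ∞ η ∧
    HasCompactSupport η ∧ η x = 1 ∧ ∀ z, r ≤ ‖z - x‖ → η z = 0 := by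
  let f : ContDiffBump x := ⟨r / 2, r, by positivity, by linarith⟩
  refine ⟨f, f.contDiff, f.hasCompactSupport, f.one_of_mem_closedBall (by
    simp [f]; positivity), fun z hz => f.zero_of_le_dist (by simpa [f, dist_eq_norm] using hz)⟩

lemma lamSet_nonempty : lamSet.Nonempty := by
  obtain ⟨η, h1, h2, h3, h4⟩ := exists_bump e0 one_pos
  exact ⟨_, η, _, W.of_smooth h1 h2, h4 0 (by simp [norm_e0]), h3, rfl⟩

lemma lamSet_bdd : BddBelow lamSet := ⟨0, by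
  rintro e ⟨u, g, -, -, -, rfl⟩; exact En_nonneg g⟩

lemma lam0_pos : 0 < lam0 := by
  obtain ⟨C, hC, h⟩ := morrey
  refine lt_of_lt_of_le (by positivity : 0 < 1 / C) (le_csInf lamSet_nonempty ?_)
  rintro e ⟨u, g, hW, h0, h1, rfl⟩
  have := h u g hW 0 e0
  rw [h0, h1, sub_zero, sub_zero, norm_e0] at this
  rw [div_le_iff₀ hC]
  linarith

lemma sharp {u : E → ℝ} {g : E → E} (hW : W u g) (x y : E) :
    lam0 * (u y - u x) ^ 4 ≤ ‖y - x‖ ^ 2 * En g := by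
  have hEn := En_nonneg g
  by_cases hu : u y - u x = 0
  · rw [hu]; simp; positivity
  have hxy : x ≠ y := by rintro rfl; simp at hu
  have hr : 0 < ‖y - x‖ := norm_pos_iff.2 (sub_ne_zero.2 (Ne.symm hxy))
  obtain ⟨Q, h0, h1⟩ := exists_sim hxy
  have hW' := ((hW.comp_sim hr Q x).sub (W.const (u x))).smul (u y - u x)⁻¹
  have h2 : lam0 ≤ _ := csInf_le lamSet_bdd ⟨_, _, hW', by simp [h0], by
    simp [h1, inv_mul_cancel₀ hu], rfl⟩
  rw [En_smul] at h2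
  simp only [sub_zero] at h2
  rw [En_comp_sim hr] at h2
  have h3 : 0 < (u y - u x) ^ 4 := by positivity
  rw [inv_pow, ← div_eq_inv_mul, le_div_iff₀ h3] at h2
  exact h2

lemma near_lam0 {ε : ℝ} (hε : 0 < ε) : ∃ (u : E → ℝ) (g : E → E), W u g ∧ u 0 = 0 ∧ u e0 = 1 ∧
    En g ≤ lam0 + ε := by
  obtain ⟨_, ⟨u, g, h1, h2, h3, rfl⟩, h4⟩ := exists_lt_of_csInf_lt lamSet_nonempty
    (lt_add_of_pos_right lam0 hε)
  exact ⟨u, g, h1, h2, h3, h4.le⟩

lemma exists_refl {ν : E} (hν : ‖ν‖ = 1) : ∃ Q : E ≃ₗᵢ[ℝ] E, ∀ z, Q z = z - (2 * ⟪z, ν⟫_ℝ) • ν := by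
  refine ⟨Submodule.reflection (ℝ ∙ ν)ᗮ, fun z => ?_⟩
  rw [Submodule.reflection_orthogonal_apply, Submodule.reflection_singleton_apply, hν,
    real_inner_comm]
  simp [two_smul, two_mul, add_smul]

lemma line_null {ν : E} (hν : ‖ν‖ = 1) (γ : ℝ) : ∀ᵐ z : E, ⟪z, ν⟫_ℝ ≠ γ := by
  have hK : (ℝ ∙ ν)ᗮ ≠ ⊤ := by
    intro h
    have : ν ∈ (ℝ ∙ ν)ᗮ := h ▸ Submodule.mem_top
    rw [Submodule.mem_orthogonal_singleton_iff_inner_left, real_inner_self_eq_norm_sq, hν] at this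
    norm_num at this
  have h0 := Measure.addHaar_submodule (volume : Measure E) _ hK
  rw [← measure_preimage_add_right volume (-γ • ν)] at h0
  rw [ae_iff]
  refine measure_mono_null (fun z hz => ?_) h0
  simp only [ne_eq, not_not, mem_ofPred_eq] at hz
  simp only [mem_preimage, SetLike.mem_coe, Submodule.mem_orthogonal_singleton_iff_inner_left,
    inner_add_left, inner_smul_left, real_inner_self_eq_norm_sq, hν, hz]
  simp

theorem half_plane {u : E → ℝ} {g : E → E} (hW : W u g) {ν : E} (hν : ‖ν‖ = 1) (γ : ℝ)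
    (hz : ∀ z, ⟪z, ν⟫_ℝ < γ → u z = 0) {x : E} (hx : γ < ⟪x, ν⟫_ℝ) :
    2 * lam0 * u x ^ 4 ≤ (⟪x, ν⟫_ℝ - γ) ^ 2 * En g := by
  obtain ⟨Q, hQ⟩ := exists_refl hν
  have hR : ∀ z, sim 1 Q ((2 * γ) • ν) z = z - (2 * (⟪z, ν⟫_ℝ - γ)) • ν := by
    intro z
    simp only [sim, hQ, one_smul]
    module
  have hRi : ∀ z, ⟪sim 1 Q ((2 * γ) • ν) z, ν⟫_ℝ = 2 * γ - ⟪z, ν⟫_ℝ := by
    intro z
    rw [hR, inner_sub_left, inner_smul_left, real_inner_self_eq_norm_sq, hν]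
    simp; ring
  have hW' := hW.comp_sim one_pos Q ((2 * γ) • ν)
  have hE' := En_comp_sim one_pos Q ((2 * γ) • ν) g
  set g' := fun z => (1 : ℝ) • Q.symm (g (sim 1 Q ((2 * γ) • ν) z)) with hg'
  have hcont : Continuous fun z : E => ⟪z, ν⟫_ℝ := by fun_prop
  have a1 := hW.ae_zero (isOpen_lt hcont continuous_const) (fun z h => hz z h)
  have a2 := hW'.ae_zero (isOpen_lt (continuous_const (y := γ)) hcont) (fun z h => hz _ (by
    rw [hRi]; simp only [mem_ofPred_eq] at h; linarith))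
  have hsum : En (fun z => g z - g' z) = En g + En g' := by
    unfold En
    rw [← integral_add (int4 hW.memLp) (int4 hW'.memLp)]
    refine integral_congr_ae ?_
    filter_upwards [a1, a2, line_null hν γ] with z h1 h2 h3
    rcases lt_or_gt_of_ne h3 with h | h
    · simp [h1 h]
    · simp [h2 h]
  have key := sharp (hW.sub hW') (sim 1 Q ((2 * γ) • ν) x) x
  have e1 : u (sim 1 Q ((2 * γ) • ν) x) = 0 := hz _ (by rw [hRi]; linarith)
  have e2 : sim 1 Q ((2 * γ) • ν) (sim 1 Q ((2 * γ) • ν) x) = x := by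
    rw [hR (sim 1 Q ((2 * γ) • ν) x), hRi, hR]
    module
  have e3 : ‖x - sim 1 Q ((2 * γ) • ν) x‖ ^ 2 = 4 * (⟪x, ν⟫_ℝ - γ) ^ 2 := by
    rw [hR, sub_sub_cancel, norm_smul, hν, mul_one, Real.norm_eq_abs, sq_abs]; ring
  rw [e1, e2, e3, hsum, hE'] at key
  nlinarith

lemma ball_unit : ∃ N : ℝ, 1 ≤ N ∧ ∀ (u : E → ℝ) (g : E → E), W u g →
    (∀ z ∈ Metric.ball (-N • e0) N, u z = 0) → 3 / 2 * lam0 * u e0 ^ 4 ≤ En g := by
  by_contra hcon
  push Not at hcon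
  have hl := lam0_pos
  obtain ⟨u, g, hW, hz, h1, hE⟩ := exists_min
    (fun k : ℕ => Metric.ball (-((k : ℝ) + 1) • e0) ((k : ℝ) + 1))
    (fun j k hjk => Metric.ball_subset_ball' (by
      have : (j : ℝ) ≤ k := by exact_mod_cast hjk
      rw [dist_eq_norm, ← sub_smul, norm_smul, norm_e0, Real.norm_of_nonneg (by linarith)]
      linarith)) (y₀ := -e0) (by simp) e0 (3 / 2 * lam0) (fun k ε hε => by
      obtain ⟨u, g, hW, hz, hE⟩ := hcon ((k : ℝ) + 1) (by linarith [Nat.cast_nonneg (α := ℝ) k])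
      have hu : u e0 ≠ 0 := by
        intro h; rw [h] at hE; have := En_nonneg g; simp at hE; linarith
      refine ⟨_, _, hW.smul (u e0)⁻¹, fun z hz' => by simp [hz z hz'], by simp [hu], ?_⟩
      have h3 : 0 < u e0 ^ 4 := by positivity
      rw [En_smul, inv_pow, ← div_eq_inv_mul, div_le_iff₀ h3]
      nlinarith)
  have key := half_plane hW norm_e0 0 (fun z hz' => by
    obtain ⟨k, hk⟩ := exists_nat_gt (‖z‖ ^ 2 / (-2 * ⟪z, e0⟫_ℝ))
    refine hz k z ?_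
    rw [div_lt_iff₀ (by linarith)] at hk
    rw [Metric.mem_ball, dist_eq_norm, neg_smul, sub_neg_eq_add]
    apply lt_of_pow_lt_pow_left₀ 2 (by positivity)
    rw [norm_add_sq_real, inner_smul_right, norm_smul, norm_e0, Real.norm_of_nonneg (by positivity)]
    nlinarith) (x := e0) (by rw [real_inner_self_eq_norm_sq, norm_e0]; norm_num)
  rw [h1, real_inner_self_eq_norm_sq, norm_e0] at key
  linarith

theorem ball_lemma : ∃ N : ℝ, 1 ≤ N ∧ ∀ (u : E → ℝ) (g : E → E), W u g → ∀ (c x : E) (ρ : ℝ),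
    (∀ z ∈ Metric.ball c ρ, u z = 0) → ρ < ‖x - c‖ → N * (‖x - c‖ - ρ) ≤ ρ →
    3 / 2 * lam0 * u x ^ 4 ≤ (‖x - c‖ - ρ) ^ 2 * En g := by
  obtain ⟨N, hN, H⟩ := ball_unit
  refine ⟨N, hN, fun u g hW c x ρ hz h1 h2 => ?_⟩
  set d := ‖x - c‖ - ρ with hd
  have hd0 : 0 < d := by linarith
  have hρ : 0 < ρ := by nlinarith
  have hn : 0 < ‖x - c‖ := by linarith
  set ν := ‖x - c‖⁻¹ • (x - c) with hνd
  have hν : ‖ν‖ = 1 := by rw [hνd, norm_smul, norm_inv, norm_norm, inv_mul_cancel₀ hn.ne']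
  obtain ⟨Q, hQ⟩ := exists_rot ν hν
  have key := H _ _ (hW.comp_sim hd0 Q (c + ρ • ν)) (fun z hz' => hz _ (by
    rw [Metric.mem_ball, dist_eq_norm] at hz' ⊢
    have e : sim d Q (c + ρ • ν) z - c = d • Q (z - -N • e0) + (ρ - N * d) • ν := by
      simp only [sim, map_sub, map_smul, hQ]
      module
    rw [e]
    calc _ ≤ ‖d • Q (z - -N • e0)‖ + ‖(ρ - N * d) • ν‖ := norm_add_le _ _
      _ = d * ‖z - -N • e0‖ + (ρ - N * d) := by
        rw [norm_smul, norm_smul, hν, LinearIsometryEquiv.norm_map, Real.norm_of_nonneg hd0.le,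
          Real.norm_of_nonneg (by linarith), mul_one]
      _ < ρ := by nlinarith))
  have e : sim d Q (c + ρ • ν) e0 = x := by
    simp only [sim, hQ]
    have : d • ν + (c + ρ • ν) = c + ‖x - c‖ • ν := by rw [hd]; module
    rw [this, hνd, smul_smul, mul_inv_cancel₀ hn.ne']; simp
  rw [En_comp_sim hd0, e] at key
  exact key

end Pool.Agent.MP_e9cdae_an
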