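import Pool.Agent.MP_e9cdae_an.Domain

/-! No similarity of the domain carries a point near one hole to a point near the other. -/

open MeasureTheory Set Filter Topology
open scoped ContDiff InnerProductSpace ENNReal Gradient

namespace Pool.Agent.MP_e9cdae_an

lemma sim_inv_left {r : ℝ} (hr : 0 < r) (Q : E ≃ₗᵢ[ℝ] E) (b z : E) :
    sim r⁻¹ Q.symm (-(r⁻¹ • Q.symm b)) (sim r Q b z) = z := by
  simp [sim, smul_smul, inv_mul_cancel₀ hr.ne']

lemma sim_inv_right {r : ℝ} (hr : 0 < r) (Q : E ≃ₗᵢ[ℝ] E) (b z : E) :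
    sim r Q b (sim r⁻¹ Q.symm (-(r⁻¹ • Q.symm b)) z) = z := by
  simp [sim, smul_smul, mul_inv_cancel₀ hr.ne']

lemma norm_sim_sub {r : ℝ} (hr : 0 < r) (Q : E ≃ₗᵢ[ℝ] E) (b x y : E) :
    ‖sim r Q b x - sim r Q b y‖ = r * ‖x - y‖ := by
  have : sim r Q b x - sim r Q b y = r • Q (x - y) := by simp [sim, smul_sub]
  rw [this, norm_smul, LinearIsometryEquiv.norm_map, Real.norm_of_nonneg hr.le]

lemma not_mem_Om {h ε t : ℝ} {z : E} (hz : z ∈ PP h t) (hn : z ∉ Om h ε t) :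
    ∃ s : ℝ, (s = 1 ∨ s = -1) ∧ ‖z - cc h s‖ ≤ ε := by
  by_contra hc
  push Not at hc
  exact hn ⟨hz, hc 1 (Or.inl rfl), hc (-1) (Or.inr rfl)⟩

lemma mapsTo_PP {h ε t : ℝ} (hh : 4 ≤ h) (hε' : ε ≤ 1 / 2) (ht : t ∈ Icc (0 : ℝ) 1)
    {r : ℝ} {Q : E ≃ₗᵢ[ℝ] E} {b : E} (hT : MapsTo (sim r Q b) (Om h ε t) (Om h ε t)) :
    MapsTo (sim r Q b) (PP h t) (PP h t) := by
  intro z hz
  by_cases hO : z ∈ Om h ε t
  · exact (hT hO).1
  obtain ⟨s, hs, hzs⟩ := not_mem_Om hz hO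
  have hh0 : 0 < h := by linarith
  have a0 := abs_le.1 ((abs_coord0 h s z).trans hzs)
  have a1 := abs_le.1 ((abs_coord1 h s z).trans hzs)
  have key : ∀ σ : ℝ, (σ = 1 ∨ σ = -1) → pt (z 0) (z 1 + 2 * σ) ∈ Om h ε t := by
    intro σ hσ
    refine mem_Om_of_abs1 (mem_PP hh0 ht ?_ ?_ ?_) ?_
    · rw [pt_zero, abs_lt]
      rcases hs with rfl | rfl <;> constructor <;> linarith [a0.1, a0.2]
    · rw [pt_one]; rcases hσ with rfl | rfl <;> linarith [a1.1, a1.2]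
    · rw [pt_one]; rcases hσ with rfl | rfl <;> linarith [a1.1, a1.2]
    · rw [pt_one, lt_abs]
      rcases hσ with rfl | rfl
      · left; linarith [a1.1, a1.2]
      · right; linarith [a1.1, a1.2]
  have h1 := (hT (key 1 (Or.inl rfl))).1
  have h2 := (hT (key (-1) (Or.inr rfl))).1
  have h3 := convex_PP h t h1 h2 (a := 1 / 2) (b := 1 / 2) (by norm_num) (by norm_num)
    (by norm_num)
  have h4 : z = (1 / 2 : ℝ) • pt (z 0) (z 1 + 2 * 1) + (1 / 2 : ℝ) • pt (z 0) (z 1 + 2 * (-1)) := by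
    ext i; fin_cases i <;> simp <;> ring
  have h5 : sim r Q b z = (1 / 2 : ℝ) • sim r Q b (pt (z 0) (z 1 + 2 * 1))
      + (1 / 2 : ℝ) • sim r Q b (pt (z 0) (z 1 + 2 * (-1))) := by
    conv_lhs => rw [h4]
    simp only [sim, map_add, map_smul]
    module
  rw [h5]; exact h3

lemma center_map {h ε t : ℝ} (hh : 4 ≤ h) (hε : 0 < ε) (hε' : ε ≤ 1 / 2) (ht : t ∈ Icc (0 : ℝ) 1)
    {r : ℝ} (hr : 0 < r) {Q : E ≃ₗᵢ[ℝ] E} {b : E}
    (hT : MapsTo (sim r Q b) (Om h ε t) (Om h ε t))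
    (hT' : MapsTo (sim r⁻¹ Q.symm (-(r⁻¹ • Q.symm b))) (Om h ε t) (Om h ε t))
    {s : ℝ} (hs : s = 1 ∨ s = -1) :
    ∃ s' : ℝ, (s' = 1 ∨ s' = -1) ∧ ‖sim r Q b (cc h s) - cc h s'‖ + r * ε ≤ ε := by
  have hh0 : 0 < h := by linarith
  have hole : ∀ w, ‖w - sim r Q b (cc h s)‖ ≤ r * ε →
      ∃ s' : ℝ, (s' = 1 ∨ s' = -1) ∧ ‖w - cc h s'‖ ≤ ε := by
    intro w hw
    set z := sim r⁻¹ Q.symm (-(r⁻¹ • Q.symm b)) w with hz
    have hw' : w = sim r Q b z := (sim_inv_right hr Q b w).symm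
    have hzc : ‖z - cc h s‖ ≤ ε := by
      rw [hw', norm_sim_sub hr] at hw
      exact le_of_mul_le_mul_left hw hr
    have hzP : z ∈ PP h t := ball_subset_PP hh0 ht hs (by linarith)
    refine not_mem_Om (hw' ▸ mapsTo_PP hh hε' ht hT hzP) fun hO => ?_
    have := hT' hO
    rw [← hz] at this
    rcases hs with rfl | rfl
    · linarith [this.2.1]
    · linarith [this.2.2]
  set p := sim r Q b (cc h s) with hp
  obtain ⟨s', hs', hp'⟩ := hole p (by simp; positivity)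
  refine ⟨s', hs', ?_⟩
  by_contra hc
  push Not at hc
  obtain ⟨ν, hν, hpν⟩ : ∃ ν : E, ‖ν‖ = 1 ∧ p - cc h s' = ‖p - cc h s'‖ • ν := by
    by_cases h0 : p - cc h s' = 0
    · exact ⟨e0, norm_e0, by simp [h0]⟩
    · have hn : ‖p - cc h s'‖ ≠ 0 := norm_ne_zero_iff.2 h0
      exact ⟨‖p - cc h s'‖⁻¹ • (p - cc h s'), by
        rw [norm_smul, norm_inv, norm_norm, inv_mul_cancel₀ hn], by
        rw [smul_smul, mul_inv_cancel₀ hn, one_smul]⟩
  set τ := min (r * ε) (ε - ‖p - cc h s'‖ + 1) with hτ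
  have hτ0 : 0 ≤ τ := le_min (by positivity) (by linarith)
  have hτ1 : τ ≤ r * ε := min_le_left _ _
  have hτ2 : τ ≤ ε - ‖p - cc h s'‖ + 1 := min_le_right _ _
  have hτ3 : ε < ‖p - cc h s'‖ + τ := by
    rcases min_choice (r * ε) (ε - ‖p - cc h s'‖ + 1) with h1 | h1 <;> rw [hτ, h1] <;> linarith
  have hn : ‖p + τ • ν - cc h s'‖ = ‖p - cc h s'‖ + τ := by
    have : p + τ • ν - cc h s' = (‖p - cc h s'‖ + τ) • ν := by
      rw [add_smul, ← hpν]; abel
    rw [this, norm_smul, hν, mul_one, Real.norm_of_nonneg (by positivity)]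
  obtain ⟨s'', hs'', hw⟩ := hole (p + τ • ν) (by
    rw [add_sub_cancel_left, norm_smul, hν, mul_one, Real.norm_of_nonneg hτ0]; exact hτ1)
  have hfar := far_cc hh0 (p + τ • ν)
  rcases hs' with rfl | rfl <;> rcases hs'' with rfl | rfl <;> linarith

theorem rigid {h ε t : ℝ} (hh : 4 ≤ h) (hε : 0 < ε) (hε' : ε ≤ 1 / 2) (ht : t ∈ Icc (0 : ℝ) 1)
    {r : ℝ} (hr : 0 < r) {Q : E ≃ₗᵢ[ℝ] E} {b : E} (hT : sim r Q b '' Om h ε t = Om h ε t)
    {x₁ x₂ : E} (h₁ : ‖x₁ - cc h 1‖ ≤ 5 * h) (h₂ : ‖x₂ - cc h (-1)‖ ≤ 5 * h) :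
    sim r Q b x₂ ≠ x₁ := by
  intro hx
  have hh0 : 0 < h := by linarith
  have m1 : MapsTo (sim r Q b) (Om h ε t) (Om h ε t) := fun z hz => hT ▸ mem_image_of_mem _ hz
  have m2 : MapsTo (sim r⁻¹ Q.symm (-(r⁻¹ • Q.symm b))) (Om h ε t) (Om h ε t) := fun z hz => by
    rw [← hT] at hz
    obtain ⟨w, hw, rfl⟩ := hz
    rwa [sim_inv_left hr]
  have m3 : MapsTo (sim r⁻¹⁻¹ Q.symm.symm (-(r⁻¹⁻¹ • Q.symm.symm (-(r⁻¹ • Q.symm b)))))
      (Om h ε t) (Om h ε t) := by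
    have : -(r⁻¹⁻¹ • Q.symm.symm (-(r⁻¹ • Q.symm b))) = b := by
      simp [smul_smul, mul_inv_cancel₀ hr.ne']
    rw [this, inv_inv]
    exact m1
  obtain ⟨s₁, hs₁, k₁⟩ := center_map hh hε hε' ht hr m1 m2 (s := 1) (Or.inl rfl)
  obtain ⟨s₂, hs₂, k₂⟩ := center_map hh hε hε' ht hr m1 m2 (s := -1) (Or.inr rfl)
  obtain ⟨s₃, -, k₃⟩ := center_map hh hε hε' ht (inv_pos.2 hr) m2 m3 (s := 1) (Or.inl rfl)
  have hr1 : r = 1 := by
    have a1 : r ≤ 1 := by nlinarith [norm_nonneg (sim r Q b (cc h 1) - cc h s₁)]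
    have a2 : r⁻¹ ≤ 1 := by
      nlinarith [norm_nonneg (sim r⁻¹ Q.symm (-(r⁻¹ • Q.symm b)) (cc h 1) - cc h s₃)]
    have a3 := (inv_le_one₀ hr).1 a2
    linarith
  subst hr1
  have c₁ : sim 1 Q b (cc h 1) = cc h s₁ := by
    rw [← sub_eq_zero, ← norm_le_zero_iff]; linarith
  have c₂ : sim 1 Q b (cc h (-1)) = cc h s₂ := by
    rw [← sub_eq_zero, ← norm_le_zero_iff]; linarith
  have hs₂' : s₂ = 1 := by
    rcases hs₂ with rfl | rfl
    · rfl
    · have := norm_sim_sub one_pos Q b x₂ (cc h (-1))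
      rw [hx, c₂] at this
      have := far_cc hh0 x₁
      linarith
  subst hs₂'
  have hs₁' : s₁ = -1 := by
    rcases hs₁ with rfl | rfl
    · have := norm_sim_sub one_pos Q b (cc h 1) (cc h (-1))
      rw [c₁, c₂, norm_cc_sub hh0] at this
      simp at this
      linarith
    · rfl
  subst hs₁'
  have ec : ∀ s, cc h s = (10 * h * s) • e0 := fun s => by simp [cc, pt]
  simp only [ec, sim, one_smul, map_smul] at c₁ c₂
  have hb : b = 0 := by
    have : (2 : ℝ) • b = 0 := by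
      have e : (2 : ℝ) • b = ((10 * h * 1) • Q e0 + b) + ((10 * h * -1) • Q e0 + b) := by module
      rw [e, c₁, c₂]; module
    simpa using this
  subst hb
  have hQ0 : Q e0 = -e0 := by
    have : (10 * h) • Q e0 = (10 * h) • (-e0) := by
      have e : (10 * h) • Q e0 = (10 * h * 1) • Q e0 + 0 := by module
      rw [e, c₁]; module
    exact smul_right_injective E (by positivity : (10 * h) ≠ 0) this
  have hw0 : Q e1 0 = 0 := by
    have := Q.inner_map_map e1 e0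
    rw [hQ0] at this
    simpa [e0, e1, EuclideanSpace.inner_single_right] using this
  have hw1 : Q e1 1 ^ 2 = 1 := by
    have h1 := norm_sq_E (Q e1)
    rw [LinearIsometryEquiv.norm_map, hw0] at h1
    simp only [e1, PiLp.norm_single, norm_one] at h1 ⊢
    linarith
  have hT0 : ∀ a c, sim 1 Q 0 (pt a c) 0 = -a := by
    intro a c
    simp only [sim, pt, one_smul, add_zero, map_add, map_smul, hQ0, PiLp.add_apply,
      PiLp.smul_apply, hw0, PiLp.neg_apply, smul_eq_mul]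
    simp [e0]
  have hT1 : ∀ a c, sim 1 Q 0 (pt a c) 1 = c * Q e1 1 := by
    intro a c
    simp only [sim, pt, one_smul, add_zero, map_add, map_smul, hQ0, PiLp.add_apply,
      PiLp.smul_apply, PiLp.neg_apply, smul_eq_mul]
    simp [e0]
  have mP := mapsTo_PP hh hε' ht m1
  obtain ⟨b0, b1⟩ := beta_bounds ht
  rcases (sq_eq_one_iff.1 hw1) with hw | hw
  · rcases lt_trichotomy t (1 / 2) with h5 | h5 | h5
    · have hP : pt (20 * h + h * (1 - 2 * t) / 2) 0 ∈ PP h t := by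
        have := tilt_bound hh0 ht (x := 20 * h + h * (1 - 2 * t) / 2) (by
          rw [abs_le]; constructor <;> nlinarith [ht.1, ht.2])
        rw [abs_le] at this
        refine ⟨?_, ?_, ?_, ?_⟩ <;> simp only [pt_zero, pt_one] <;> nlinarith [this.1, ht.1]
      have := (mP hP).1
      rw [hT0] at this
      nlinarith
    · subst h5
      have hP : pt h (2 * h) ∈ PP h (1 / 2) := by
        refine ⟨?_, ?_, ?_, ?_⟩ <;> simp only [pt_zero, pt_one] <;> nlinarith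
      have := (mP hP).2.2.2
      rw [hT0, hT1, hw] at this
      nlinarith
    · have hP : pt (-20 * h + h * (1 - 2 * t) / 2) 0 ∈ PP h t := by
        have := tilt_bound hh0 ht (x := -20 * h + h * (1 - 2 * t) / 2) (by
          rw [abs_le]; constructor <;> nlinarith [ht.1, ht.2])
        rw [abs_le] at this
        refine ⟨?_, ?_, ?_, ?_⟩ <;> simp only [pt_zero, pt_one] <;> nlinarith [this.1, ht.2]
      have := (mP hP).2.1
      rw [hT0] at this
      nlinarith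
  · have hP : pt 0 (3 / 2 * h) ∈ PP h t :=
      mem_PP hh0 ht (by simp; linarith) (by simp; linarith) (by simp; linarith)
    have := (mP hP).2.2.1
    rw [hT1, hw] at this
    linarith

end Pool.Agent.MP_e9cdae_an
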