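import Pool.Agent.MP_e9cdae_an.Deform
import Pool.Agent.MP_e9cdae_an.Rigid

/-! The intermediate value argument: a domain in which both holes give the same infimum. -/

open MeasureTheory Set Filter Topology
open scoped ContDiff InnerProductSpace ENNReal Gradient

namespace Pool.Agent.MP_e9cdae_an

def mSet (h ε N t s : ℝ) : Set ℝ := {e | ∃ (x : E) (u : E → ℝ) (g : E → E),
  ε + ε / N ≤ ‖x - cc h s‖ ∧ ‖x - cc h s‖ ≤ 5 * h ∧ W u g ∧ (∀ z, z ∉ Om h ε t → u z = 0) ∧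
    u x = 1 ∧ e = (‖x - cc h s‖ - ε) ^ 2 * En g}

noncomputable def mm (h ε N t s : ℝ) : ℝ := sInf (mSet h ε N t s)

lemma mSet_bdd (h ε N t s : ℝ) : BddBelow (mSet h ε N t s) := ⟨0, by
  rintro e ⟨x, u, g, -, -, -, -, -, rfl⟩
  have := En_nonneg g
  positivity⟩

lemma hole_not_mem {h ε t s : ℝ} (hs : s = 1 ∨ s = -1) {z : E} (hz : ‖z - cc h s‖ ≤ ε) :
    z ∉ Om h ε t := by
  intro hO
  rcases hs with rfl | rfl
  · linarith [hO.2.1]
  · linarith [hO.2.2]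

lemma exists_eta {h : ℝ} (hh : 4 ≤ h) : ∃ η : E → ℝ, ContDiff ℝ ∞ η ∧ HasCompactSupport η ∧
    (∀ z, 0 ≤ η z) ∧ (∀ z, η z ≤ 1) ∧
    (∀ s : ℝ, (s = 1 ∨ s = -1) → ∀ z, ‖z - cc h s‖ ≤ 1 → η z = 1) ∧
    (∀ z, 2 ≤ ‖z - cc h 1‖ → 2 ≤ ‖z - cc h (-1)‖ → η z = 0) := by
  let f₁ : ContDiffBump (cc h 1) := ⟨1, 2, by norm_num, by norm_num⟩
  let f₂ : ContDiffBump (cc h (-1)) := ⟨1, 2, by norm_num, by norm_num⟩
  have z₁ : ∀ z, 2 ≤ ‖z - cc h 1‖ → f₁ z = 0 := fun z hz =>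
    f₁.zero_of_le_dist (by simpa [f₁, dist_eq_norm] using hz)
  have z₂ : ∀ z, 2 ≤ ‖z - cc h (-1)‖ → f₂ z = 0 := fun z hz =>
    f₂.zero_of_le_dist (by simpa [f₂, dist_eq_norm] using hz)
  have o₁ : ∀ z, ‖z - cc h 1‖ ≤ 1 → f₁ z = 1 := fun z hz =>
    f₁.one_of_mem_closedBall (by simpa [f₁, dist_eq_norm] using hz)
  have o₂ : ∀ z, ‖z - cc h (-1)‖ ≤ 1 → f₂ z = 1 := fun z hz =>
    f₂.one_of_mem_closedBall (by simpa [f₂, dist_eq_norm] using hz)
  refine ⟨fun z => f₁ z + f₂ z, f₁.contDiff.add f₂.contDiff,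
    f₁.hasCompactSupport.add f₂.hasCompactSupport,
    fun z => add_nonneg (f₁.nonneg' z) (f₂.nonneg' z), fun z => ?_, fun s hs z hz => ?_,
    fun z h1 h2 => by simp [z₁ z h1, z₂ z h2]⟩
  · have := far_cc (by linarith : 0 < h) z
    by_cases h1 : 2 ≤ ‖z - cc h 1‖
    · simp only [z₁ z h1, zero_add]; exact f₂.le_one
    · simp only [z₂ z (by linarith), add_zero]; exact f₁.le_one
  · have := far_cc (by linarith : 0 < h) z
    rcases hs with rfl | rfl
    · simp [o₁ z hz, z₂ z (by linarith)]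
    · simp [o₂ z hz, z₁ z (by linarith)]

lemma norm_cc {h s : ℝ} (hh : 0 < h) (hs : s = 1 ∨ s = -1) : ‖cc h s‖ = 10 * h := by
  apply (pow_left_inj₀ (norm_nonneg _) (by positivity) two_ne_zero).1
  rw [norm_sq_E]
  rcases hs with rfl | rfl <;> simp [cc]

lemma mm_unif {h ε N s : ℝ} (hh : 4 ≤ h) (hε : 0 < ε) (hε' : ε ≤ 1 / 2) (hN : 1 ≤ N)
    (hs : s = 1 ∨ s = -1)
    (hT : ∀ t ∈ Icc (0 : ℝ) 1, ∃ e ∈ mSet h ε N t s, e ≤ 6 / 5 * lam0) {κ' : ℝ} (hκ' : 0 < κ') :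
    ∃ δ > 0, ∀ t ∈ Icc (0 : ℝ) 1, ∀ t' ∈ Icc (0 : ℝ) 1, |t - t'| ≤ δ →
      mm h ε N t' s ≤ mm h ε N t s + κ' := by
  have hl := lam0_pos
  have hh0 : 0 < h := by linarith
  have hεN : 0 < ε / N := by positivity
  obtain ⟨η, hη, cη, h0, h1, hone, hzero⟩ := exists_eta hh
  set A := 39 * lam0 + 400 * h ^ 2 with hA
  have hA0 : 0 < A := by positivity
  set κ := min (1 / 2) (κ' / (2 * A)) with hκ
  have hκ0 : 0 < κ := by positivity
  have hκ1 : κ ≤ 1 / 2 := min_le_left _ _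
  have hκ2 : κ * A ≤ κ' / 2 := by
    have : κ ≤ κ' / (2 * A) := min_le_right _ _
    rw [le_div_iff₀ (by positivity)] at this
    linarith
  obtain ⟨l, hl1, hdef⟩ := deform hη cη h0 h1 (B := 13 / 10 * lam0 / (ε / N) ^ 2) (ρ := 15 * h)
    (by positivity) hκ0
  refine ⟨(l - 1) / l, div_pos (by linarith) (by linarith), fun t ht t' ht' htt => ?_⟩
  obtain ⟨e₀, he₀, he₀'⟩ := hT t ht
  have hm : mm h ε N t s ≤ 6 / 5 * lam0 := (csInf_le (mSet_bdd _ _ _ _ _) he₀).trans he₀'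
  obtain ⟨e, he, hlt⟩ := exists_lt_of_csInf_lt ⟨e₀, he₀⟩
    (lt_add_of_pos_right (mm h ε N t s) (by positivity : 0 < min (κ' / 2) (lam0 / 10)))
  have hlt1 : e ≤ mm h ε N t s + κ' / 2 := hlt.le.trans (by gcongr; exact min_le_left _ _)
  have hlt2 : e ≤ 13 / 10 * lam0 := by
    have : min (κ' / 2) (lam0 / 10) ≤ lam0 / 10 := min_le_right _ _
    linarith
  obtain ⟨x, u, g, hx1, hx2, hW, hz, hux, he⟩ := he
  have hEn := En_nonneg g
  have hEB : En g ≤ 13 / 10 * lam0 / (ε / N) ^ 2 := by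
    rw [le_div_iff₀ (by positivity)]
    have : (ε / N) ^ 2 ≤ (‖x - cc h s‖ - ε) ^ 2 := by gcongr; linarith
    nlinarith
  obtain ⟨g', hW', hE', hclose⟩ := hdef u g hW hEB
  have hxn : ‖x‖ ≤ 15 * h := by
    have := norm_add_le (x - cc h s) (cc h s)
    rw [sub_add_cancel, norm_cc hh0 hs] at this
    linarith
  have hc := abs_le.1 (hclose x hxn)
  set a := η x * u x + (1 - η x) * u (l • x) with ha
  have ha1 : 1 - κ ≤ a := by
    rw [hux] at hc
    rw [ha, hux]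
    nlinarith [h0 x, h1 x, hc.1]
  have ha0 : 0 < a := by linarith
  have hinv : a⁻¹ ≤ 1 + 2 * κ := by
    rw [inv_le_iff_one_le_mul₀ ha0]; nlinarith
  have hinv4 : a⁻¹ ^ 4 ≤ 1 + 30 * κ := by
    have h2 : a⁻¹ ^ 4 ≤ (1 + 2 * κ) ^ 4 := by gcongr
    have : (2 * κ) ^ 2 ≤ 2 * κ := by nlinarith
    have : (2 * κ) ^ 3 ≤ 2 * κ := by nlinarith
    have : (2 * κ) ^ 4 ≤ 2 * κ := by nlinarith
    nlinarith
  have hmem : (‖x - cc h s‖ - ε) ^ 2 * En (fun z => a⁻¹ • g' z) ∈ mSet h ε N t' s := by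
    refine ⟨x, _, _, hx1, hx2, hW'.smul a⁻¹, fun z hz' => ?_, inv_mul_cancel₀ ha0.ne', rfl⟩
    by_cases hP : z ∈ PP h t'
    · obtain ⟨s', hs', hzs⟩ := not_mem_Om hP hz'
      simp [hone s' hs' z (by linarith), hz z (hole_not_mem hs' hzs)]
    · have b1 : η z = 0 := by
        refine hzero z ?_ ?_
        · by_contra hc'
          exact hP (ball_subset_PP hh0 ht' (Or.inl rfl) (by linarith))
        · by_contra hc'
          exact hP (ball_subset_PP hh0 ht' (Or.inr rfl) (by linarith))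
      have b2 : u (l • z) = 0 := hz _ fun hO => hP (dilate_PP hh0 hl1 ht ht' htt hO.1)
      simp [b1, b2]
  refine (csInf_le (mSet_bdd _ _ _ _ _) hmem).trans ?_
  rw [En_smul]
  have hE'0 := En_nonneg g'
  have hd : (‖x - cc h s‖ - ε) ^ 2 ≤ (5 * h) ^ 2 := by
    have : 0 ≤ ‖x - cc h s‖ - ε := by linarith
    gcongr; linarith
  calc (‖x - cc h s‖ - ε) ^ 2 * (a⁻¹ ^ 4 * En g')
      ≤ (‖x - cc h s‖ - ε) ^ 2 * ((1 + 30 * κ) * (En g + κ)) := by gcongr
    _ = (1 + 30 * κ) * (e + (‖x - cc h s‖ - ε) ^ 2 * κ) := by rw [he]; ring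
    _ ≤ (1 + 30 * κ) * (e + (5 * h) ^ 2 * κ) := by gcongr
    _ = e + κ * (30 * e + (1 + 30 * κ) * (25 * h ^ 2)) := by ring
    _ ≤ e + κ * A := by
        gcongr
        have : (1 + 30 * κ) * (25 * h ^ 2) ≤ 16 * (25 * h ^ 2) := by gcongr; linarith
        linarith
    _ ≤ _ := by linarith

lemma mm_cont {h ε N s : ℝ} (hh : 4 ≤ h) (hε : 0 < ε) (hε' : ε ≤ 1 / 2) (hN : 1 ≤ N)
    (hs : s = 1 ∨ s = -1)
    (hT : ∀ t ∈ Icc (0 : ℝ) 1, ∃ e ∈ mSet h ε N t s, e ≤ 6 / 5 * lam0) :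
    ContinuousOn (fun t => mm h ε N t s) (Icc 0 1) := by
  rw [Metric.continuousOn_iff]
  intro t ht κ hκ
  obtain ⟨δ, hδ, H⟩ := mm_unif hh hε hε' hN hs hT (half_pos hκ)
  refine ⟨δ, hδ, fun t' ht' htt => ?_⟩
  rw [Real.dist_eq] at htt ⊢
  have a1 := H t ht t' ht' (by rw [abs_sub_comm]; exact htt.le)
  have a2 := H t' ht' t ht htt.le
  rw [abs_lt]; constructor <;> linarith

lemma mSet_mirror {h ε N t s : ℝ} (ht : t = 0 ∨ t = 1) :
    mSet h ε N t s ⊆ mSet h ε N (1 - t) (-s) := by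
  obtain ⟨Q, hQ⟩ := exists_refl norm_e0
  have q0 : ∀ z, sim 1 Q 0 z 0 = -z 0 := fun z => by
    simp [sim, hQ, e0, EuclideanSpace.inner_single_right]; ring
  have q1 : ∀ z, sim 1 Q 0 z 1 = z 1 := fun z => by
    simp [sim, hQ, e0]
  have qn : ∀ z s, ‖sim 1 Q 0 z - cc h (-s)‖ = ‖z - cc h s‖ := fun z s => by
    apply (pow_left_inj₀ (norm_nonneg _) (norm_nonneg _) two_ne_zero).1
    rw [norm_sub_cc, norm_sub_cc, q0, q1]; ring
  have qq : ∀ z, sim 1 Q 0 (sim 1 Q 0 z) = z := fun z => by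
    ext i; fin_cases i
    · simp [q0]
    · simp [q1]
  rintro e ⟨x, u, g, hx1, hx2, hW, hz, hux, rfl⟩
  refine ⟨sim 1 Q 0 x, _, _, by rwa [qn], by rwa [qn], hW.comp_sim one_pos Q 0, fun z hz' => ?_,
    by rw [qq, hux], by rw [qn, En_comp_sim one_pos]; ring⟩
  refine hz _ fun hO => hz' ?_
  obtain ⟨⟨p1, p2, p3, p4⟩, n1, n2⟩ := hO
  rw [q0] at p1 p2 p4
  rw [q1] at p3 p4
  have n1' := qn z (-1)
  have n2' := qn z 1
  rw [neg_neg] at n1'
  refine ⟨⟨by linarith, by linarith, p3, ?_⟩, by linarith, by linarith⟩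
  rcases ht with rfl | rfl <;> simp at p4 ⊢ <;> exact p4

lemma mm_mirror (h ε N s : ℝ) : mm h ε N 1 (-s) = mm h ε N 0 s := by
  unfold mm
  congr 1
  refine Subset.antisymm ?_ ?_
  · simpa using mSet_mirror (h := h) (ε := ε) (N := N) (t := 1) (s := -s) (Or.inr rfl)
  · simpa using mSet_mirror (h := h) (ε := ε) (N := N) (t := 0) (s := s) (Or.inl rfl)

lemma exists_tie {h ε N : ℝ} (hh : 4 ≤ h) (hε : 0 < ε) (hε' : ε ≤ 1 / 2) (hN : 1 ≤ N)
    (hT : ∀ s : ℝ, (s = 1 ∨ s = -1) → ∀ t ∈ Icc (0 : ℝ) 1,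
      ∃ e ∈ mSet h ε N t s, e ≤ 6 / 5 * lam0) :
    ∃ t ∈ Icc (0 : ℝ) 1, mm h ε N t 1 = mm h ε N t (-1) := by
  have hc : ContinuousOn (fun t => mm h ε N t 1 - mm h ε N t (-1)) (Icc 0 1) :=
    (mm_cont hh hε hε' hN (Or.inl rfl) (hT 1 (Or.inl rfl))).sub
      (mm_cont hh hε hε' hN (Or.inr rfl) (hT (-1) (Or.inr rfl)))
  have e1 := mm_mirror h ε N 1
  have e2 := mm_mirror h ε N (-1)
  rw [neg_neg] at e2
  rcases le_total (mm h ε N 0 1) (mm h ε N 0 (-1)) with hle | hle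
  · obtain ⟨t, ht, h0⟩ := intermediate_value_Icc zero_le_one hc
      (show (0 : ℝ) ∈ Icc _ _ from ⟨by linarith, by linarith⟩)
    exact ⟨t, ht, by linarith⟩
  · obtain ⟨t, ht, h0⟩ := intermediate_value_Icc' zero_le_one hc
      (show (0 : ℝ) ∈ Icc _ _ from ⟨by linarith, by linarith⟩)
    exact ⟨t, ht, by linarith⟩

lemma mm_attained {h ε N t s : ℝ} (hε : 0 < ε) (hN : 1 ≤ N) (hne : (mSet h ε N t s).Nonempty) :
    ∃ (x : E) (u : E → ℝ) (g : E → E), ε + ε / N ≤ ‖x - cc h s‖ ∧ ‖x - cc h s‖ ≤ 5 * h ∧ W u g ∧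
      (∀ z, z ∉ Om h ε t → u z = 0) ∧ u x = 1 ∧ (‖x - cc h s‖ - ε) ^ 2 * En g ≤ mm h ε N t s := by
  obtain ⟨C, hC, hM⟩ := morrey
  set m := mm h ε N t s with hm
  have hεN : 0 < ε / N := by positivity
  have hch : ∀ k : ℕ, ∃ e ∈ mSet h ε N t s, e < m + 1 / ((k : ℝ) + 1) := fun k =>
    exists_lt_of_csInf_lt hne (lt_add_of_pos_right m (by positivity))
  choose e he hlt using hch
  choose x u g hx1 hx2 hW hz hux hee using he
  have hD : IsCompact {y : E | ε + ε / N ≤ ‖y - cc h s‖ ∧ ‖y - cc h s‖ ≤ 5 * h} := by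
    refine (isCompact_closedBall (cc h s) (5 * h)).of_isClosed_subset ?_ fun y hy => ?_
    · refine IsClosed.and ?_ ?_ <;> exact isClosed_le (by fun_prop) (by fun_prop)
    · simpa [dist_eq_norm] using hy.2
  obtain ⟨y, ⟨hy1, hy2⟩, φ, hφ, hlim⟩ := hD.tendsto_subseq (x := x) fun k => ⟨hx1 k, hx2 k⟩
  have hd : 0 < ‖y - cc h s‖ - ε := by linarith
  have hdk : ∀ k, 0 < ‖x k - cc h s‖ - ε := fun k => by linarith [hx1 k]
  have hEk : ∀ k, En (g k) ≤ (m + 1 / ((k : ℝ) + 1)) / (‖x k - cc h s‖ - ε) ^ 2 := fun k => by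
    have := hdk k
    rw [le_div_iff₀ (by positivity), mul_comm, ← hee]
    exact (hlt k).le
  have t1 : Tendsto (fun k => (m + 1 / ((φ k : ℝ) + 1)) / (‖x (φ k) - cc h s‖ - ε) ^ 2) atTop
      (𝓝 ((m + 0) / (‖y - cc h s‖ - ε) ^ 2)) := by
    refine Tendsto.div
      ((tendsto_one_div_add_atTop_nhds_zero_nat.comp hφ.tendsto_atTop).const_add m)
      ((((hlim.sub_const _).norm).sub_const ε).pow 2) (by positivity)
  rw [add_zero] at t1
  have t2 : Tendsto (fun k => u (φ k) y) atTop (𝓝 1) := by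
    have t3 : Tendsto (fun k => C * ‖y - x (φ k)‖ ^ 2 *
        ((m + 1 / ((φ k : ℝ) + 1)) / (‖x (φ k) - cc h s‖ - ε) ^ 2)) atTop
        (𝓝 (C * ‖y - y‖ ^ 2 * (m / (‖y - cc h s‖ - ε) ^ 2))) :=
      ((((hlim.const_sub y).norm).pow 2).const_mul C).mul t1
    simp only [sub_self, norm_zero, ne_eq, OfNat.ofNat_ne_zero, not_false_eq_true, zero_pow,
      mul_zero, zero_mul] at t3
    rw [Metric.tendsto_nhds]
    intro δ hδ
    filter_upwards [t3.eventually (gt_mem_nhds (by positivity : 0 < (δ / 2) ^ 4))] with k hk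
    have h1 := hM _ _ (hW (φ k)) (x (φ k)) y
    rw [hux] at h1
    have h2 : C * ‖y - x (φ k)‖ ^ 2 * En (g (φ k)) ≤ _ := mul_le_mul_of_nonneg_left (hEk (φ k))
      (by positivity)
    have := abs_le_of_pow4 (by positivity : 0 ≤ δ / 2) ((h1.trans h2).trans hk.le)
    rw [Real.dist_eq]; linarith
  obtain ⟨U, G, hUG, hUz, hUy, hE⟩ := exists_min (fun _ => (Om h ε t)ᶜ) monotone_const
    (y₀ := cc h 1) (hole_not_mem (Or.inl rfl) (by simp; exact hε.le)) y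
    (m / (‖y - cc h s‖ - ε) ^ 2) (fun _ δ hδ => by
      have t4 := ((t2.inv₀ one_ne_zero).pow 4).mul t1
      simp only [inv_one, one_pow, one_mul] at t4
      obtain ⟨k, hk1, hk2⟩ := ((t4.eventually (gt_mem_nhds (lt_add_of_pos_right _ hδ))).and
        (t2.eventually_ne one_ne_zero)).exists
      refine ⟨_, _, (hW (φ k)).smul (u (φ k) y)⁻¹, fun z hz' => by simp [hz (φ k) z hz'],
        inv_mul_cancel₀ hk2, ?_⟩
      rw [En_smul]
      refine le_trans ?_ hk1.le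
      gcongr
      exact hEk (φ k))
  refine ⟨y, U, G, hy1, hy2, hUG, fun z hz' => hUz 0 z hz', hUy, ?_⟩
  rwa [le_div_iff₀ (by positivity), mul_comm] at hE

lemma near_point {x c : E} {ε : ℝ} (hε : 0 < ε) (hx : ε ≤ ‖x - c‖) :
    ∃ y : E, ‖y - c‖ = ε ∧ ‖x - y‖ = ‖x - c‖ - ε := by
  have hn : 0 < ‖x - c‖ := by linarith
  refine ⟨c + (ε / ‖x - c‖) • (x - c), ?_, ?_⟩
  · rw [add_sub_cancel_left, norm_smul, Real.norm_of_nonneg (by positivity)]
    field_simp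
  · have : x - (c + (ε / ‖x - c‖) • (x - c)) = (1 - ε / ‖x - c‖) • (x - c) := by module
    rw [this, norm_smul, Real.norm_of_nonneg (by rw [sub_nonneg, div_le_one hn]; exact hx)]
    field_simp

lemma half_plane' {u : E → ℝ} {g : E → E} (hW : W u g) {a b γ : ℝ} (hab : a ≠ 0 ∨ b ≠ 0)
    (hz : ∀ z : E, a * z 0 + b * z 1 < γ → u z = 0) {x y : E} (hx : γ < a * x 0 + b * x 1)
    (hy : a * y 0 + b * y 1 ≤ γ) : 2 * lam0 * u x ^ 4 ≤ ‖x - y‖ ^ 2 * En g := by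
  have hw : pt a b ≠ 0 := by
    intro h0
    have h1 := congrArg (fun z : E => z 0) h0
    have h2 := congrArg (fun z : E => z 1) h0
    simp only [pt_zero, pt_one, PiLp.zero_apply] at h1 h2
    tauto
  have hn : 0 < ‖pt a b‖ := norm_pos_iff.2 hw
  have hν : ‖‖pt a b‖⁻¹ • pt a b‖ = 1 := by
    rw [norm_smul, norm_inv, norm_norm, inv_mul_cancel₀ hn.ne']
  have hi : ∀ z : E, ⟪z, ‖pt a b‖⁻¹ • pt a b⟫_ℝ = ‖pt a b‖⁻¹ * (a * z 0 + b * z 1) := by
    intro z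
    rw [inner_smul_right]
    congr 1
    simp [PiLp.inner_apply, Fin.sum_univ_two]
  have hinv : 0 < ‖pt a b‖⁻¹ := inv_pos.2 hn
  have key := half_plane hW hν (‖pt a b‖⁻¹ * γ) (fun z hz' => hz z (by
    rw [hi] at hz'; exact lt_of_mul_lt_mul_left hz' hinv.le)) (x := x) (by
    rw [hi]; gcongr)
  refine key.trans ?_
  have hEn := En_nonneg g
  gcongr
  · rw [hi, sub_nonneg]; gcongr
  · have h1 : ⟪x - y, ‖pt a b‖⁻¹ • pt a b⟫_ℝ ≤ ‖x - y‖ := by
      have := real_inner_le_norm (x - y) (‖pt a b‖⁻¹ • pt a b)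
      rwa [hν, mul_one] at this
    rw [inner_sub_left, hi y] at h1
    have : ‖pt a b‖⁻¹ * (a * y 0 + b * y 1) ≤ ‖pt a b‖⁻¹ * γ := by gcongr
    linarith

theorem real_main : ∃ h ε t m : ℝ, 4 ≤ h ∧ 0 < ε ∧ ε ≤ 1 / 2 ∧ t ∈ Icc (0 : ℝ) 1 ∧ 0 < m ∧
    (∀ (v : E → ℝ) (k : E → E), W v k → (∀ z, z ∉ Om h ε t → v z = 0) → ∀ x ∈ Om h ε t,
      m * v x ^ 4 ≤ Metric.infDist x (Om h ε t)ᶜ ^ 2 * En k) ∧
    ∀ s : ℝ, (s = 1 ∨ s = -1) → ∃ (x : E) (u : E → ℝ) (g : E → E), ‖x - cc h s‖ ≤ 5 * h ∧ W u g ∧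
      (∀ z, z ∉ Om h ε t → u z = 0) ∧ u x = 1 ∧
      Metric.infDist x (Om h ε t)ᶜ ^ 2 * En g = m := by
  have hl := lam0_pos
  obtain ⟨N, hN, hball⟩ := ball_lemma
  obtain ⟨ε, R, hε, hε', hR, u₀, g₀, hW₀, hz₀, hz₀', hu₀, hE₀⟩ := cheap_test
  set h := R + 2 with hh_def
  have hh : 4 ≤ h := by linarith
  have hh0 : 0 < h := by linarith
  have hεN : 0 < ε / N := by positivity
  have hT : ∀ s : ℝ, (s = 1 ∨ s = -1) → ∀ t ∈ Icc (0 : ℝ) 1,
      ∃ e ∈ mSet h ε N t s, e ≤ 6 / 5 * lam0 := by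
    intro s hs t ht
    have hS : ∀ z, sim 1 (LinearIsometryEquiv.refl ℝ E) (-cc h s) z = z - cc h s := fun z => by
      simp [sim, sub_eq_add_neg]
    have hn : ‖cc h s + e0 - cc h s‖ = 1 := by rw [add_sub_cancel_left, norm_e0]
    refine ⟨_, ⟨cc h s + e0, _, _, ?_, ?_,
      hW₀.comp_sim one_pos (LinearIsometryEquiv.refl ℝ E) (-cc h s), fun z hz => ?_, ?_, rfl⟩, ?_⟩
    · have : ε / N ≤ ε := div_le_self hε.le hN
      rw [hn]; linarith
    · rw [hn]; linarith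
    · rw [hS]
      by_cases hP : z ∈ PP h t
      · obtain ⟨s', hs', hzs⟩ := not_mem_Om hP hz
        have := far_cc hh0 z
        rcases hs with rfl | rfl <;> rcases hs' with rfl | rfl
        · exact hz₀ _ hzs
        · exact hz₀' _ (by linarith)
        · exact hz₀' _ (by linarith)
        · exact hz₀ _ hzs
      · refine hz₀' _ ?_
        by_contra hc
        exact hP (ball_subset_PP hh0 ht hs (by linarith))
    · rw [hS, add_sub_cancel_left, hu₀]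
    · rw [hn, En_comp_sim one_pos]
      have := En_nonneg g₀
      have : (1 - ε) ^ 2 ≤ 1 := by nlinarith
      nlinarith
  obtain ⟨t, ht, htie⟩ := exists_tie hh hε hε' hN hT
  set m := mm h ε N t 1 with hm
  have hms : ∀ s : ℝ, (s = 1 ∨ s = -1) → mm h ε N t s = m := by
    rintro s (rfl | rfl)
    · rfl
    · exact htie.symm
  have hm6 : m ≤ 6 / 5 * lam0 := by
    obtain ⟨e, he, he'⟩ := hT 1 (Or.inl rfl) t ht
    exact (csInf_le (mSet_bdd _ _ _ _ _) he).trans he'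
  have hm0 : lam0 ≤ m := by
    obtain ⟨e, he, -⟩ := hT 1 (Or.inl rfl) t ht
    refine le_csInf ⟨e, he⟩ ?_
    rintro _ ⟨x, u, g, hx1, hx2, hW, hz, hux, rfl⟩
    obtain ⟨y, hy1, hy2⟩ := near_point hε (x := x) (c := cc h 1) (by linarith)
    have := sharp hW y x
    rw [hux, hz y (hole_not_mem (Or.inl rfl) hy1.le), hy2] at this
    simpa using this
  have lower : ∀ (v : E → ℝ) (k : E → E), W v k → (∀ z, z ∉ Om h ε t → v z = 0) →
      ∀ x ∈ Om h ε t, m * v x ^ 4 ≤ Metric.infDist x (Om h ε t)ᶜ ^ 2 * En k := by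
    intro v k hW hz x hx
    have hEn := En_nonneg k
    have hv4 : 0 ≤ v x ^ 4 := by positivity
    obtain ⟨y, hy, hd⟩ := (isOpen_Om h ε t).isClosed_compl.exists_infDist_eq_dist
      ⟨cc h 1, hole_not_mem (Or.inl rfl) (by simp; exact hε.le)⟩ x
    rw [hd, dist_eq_norm]
    have fin2 : 2 * lam0 * v x ^ 4 ≤ ‖x - y‖ ^ 2 * En k → m * v x ^ 4 ≤ ‖x - y‖ ^ 2 * En k :=
      fun H => le_trans (by gcongr; linarith) H
    obtain ⟨⟨p1, p2, p3, p4⟩, n1, n2⟩ := id hx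
    by_cases hP : y ∈ PP h t
    · obtain ⟨s, hs, hys⟩ := not_mem_Om hP hy
      have hxs : ε < ‖x - cc h s‖ := by rcases hs with rfl | rfl <;> assumption
      have hdy : ‖x - cc h s‖ - ε ≤ ‖x - y‖ := by
        have := norm_add_le (x - y) (y - cc h s)
        rw [sub_add_sub_cancel] at this
        linarith
      have hsq : (‖x - cc h s‖ - ε) ^ 2 * En k ≤ ‖x - y‖ ^ 2 * En k := by
        have : 0 ≤ ‖x - cc h s‖ - ε := by linarith
        gcongr
      by_cases c1 : ‖x - cc h s‖ < ε + ε / N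
      · have := hball v k hW (cc h s) x ε (fun z hz' => hz z (hole_not_mem hs (by
          rw [Metric.mem_ball, dist_eq_norm] at hz'; exact hz'.le))) hxs (by
          have : ‖x - cc h s‖ - ε ≤ ε / N := by linarith
          rw [le_div_iff₀ (by linarith)] at this
          linarith)
        exact le_trans (by gcongr; linarith) (this.trans hsq)
      by_cases c2 : ‖x - cc h s‖ ≤ 5 * h
      · by_cases hv : v x = 0
        · rw [hv]; simp; positivity
        have hmem : (‖x - cc h s‖ - ε) ^ 2 * En (fun z => (v x)⁻¹ • k z) ∈ mSet h ε N t s :=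
          ⟨x, _, _, not_lt.1 c1, c2, hW.smul (v x)⁻¹, fun z hz' => by simp [hz z hz'],
            inv_mul_cancel₀ hv, rfl⟩
        have h1 : mm h ε N t s ≤ _ := csInf_le (mSet_bdd _ _ _ _ _) hmem
        rw [hms s hs, En_smul, inv_pow, ← div_eq_inv_mul, ← mul_div_assoc,
          le_div_iff₀ (by positivity)] at h1
        exact h1.trans hsq
      · apply fin2
        have key := half_plane' hW (a := 0) (b := 1) (γ := -h) (Or.inr one_ne_zero)
          (fun z hz' => hz z fun hO => by linarith [hO.1.2.2.1]) (x := x) (y := pt (x 0) (-h))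
          (by linarith) (by simp)
        refine key.trans ?_
        have h3 := PP_top hh0 ht hx.1
        have h4 : ‖x - pt (x 0) (-h)‖ ^ 2 = (x 1 + h) ^ 2 := by
          rw [norm_sq_E]; simp
        rw [h4]
        gcongr
        · linarith
        · linarith
    · apply fin2
      simp only [PP, mem_ofPred_eq, not_and_or, not_lt] at hP
      rcases hP with hP | hP | hP | hP
      · exact half_plane' hW (a := 1) (b := 0) (γ := -20 * h + h * (1 - 2 * t))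
          (Or.inl one_ne_zero) (fun z hz' => hz z fun hO => by linarith [hO.1.1])
          (by linarith) (by linarith)
      · exact half_plane' hW (a := -1) (b := 0) (γ := -(20 * h + h * (1 - 2 * t)))
          (Or.inl (by norm_num)) (fun z hz' => hz z fun hO => by linarith [hO.1.2.1])
          (by linarith) (by linarith)
      · exact half_plane' hW (a := 0) (b := 1) (γ := -h)
          (Or.inr one_ne_zero) (fun z hz' => hz z fun hO => by linarith [hO.1.2.2.1])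
          (by linarith) (by linarith)
      · exact half_plane' hW (a := t * (1 - t) / 20) (b := -1) (γ := -(2 * h))
          (Or.inr (by norm_num)) (fun z hz' => hz z fun hO => by linarith [hO.1.2.2.2])
          (by linarith) (by linarith)
  refine ⟨h, ε, t, m, hh, hε, hε', ht, by linarith, lower, fun s hs => ?_⟩
  obtain ⟨e, he, -⟩ := hT s hs t ht
  obtain ⟨x, u, g, hx1, hx2, hW, hz, hux, hE⟩ := mm_attained hε hN ⟨e, he⟩
  refine ⟨x, u, g, hx2, hW, hz, hux, le_antisymm ?_ ?_⟩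
  · rw [hms s hs] at hE
    refine le_trans ?_ hE
    obtain ⟨y, hy1, hy2⟩ := near_point hε (x := x) (c := cc h s) (by linarith)
    have h1 : Metric.infDist x (Om h ε t)ᶜ ≤ ‖x - cc h s‖ - ε := by
      rw [← hy2, ← dist_eq_norm]
      exact Metric.infDist_le_dist_of_mem (hole_not_mem hs hy1.le)
    have := En_nonneg g
    have := Metric.infDist_nonneg (x := x) (s := (Om h ε t)ᶜ)
    gcongr
  · have hx : x ∈ Om h ε t := by
      by_contra hc
      rw [hz x hc] at hux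
      exact zero_ne_one hux
    have := lower u g hW hz x hx
    rwa [hux, one_pow, mul_one] at this

end Pool.Agent.MP_e9cdae_an
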