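import Pool.Agent.MP_e9cdae_an.Defs
import Pool.Agent.MP_e9cdae_an.Tie

/-! Translation to the definitions of the problem and the final counterexample. -/

open MeasureTheory Set Filter Topology
open scoped ContDiff InnerProductSpace ENNReal Gradient

namespace Pool.Agent.MP_e9cdae_an

lemma ofReal4 : ENNReal.ofReal 4 = 4 := by simp

lemma W_of_memD0 {Ω : Set E} {u : E → ℝ} {g : E → E} (h : MemD0 4 Ω u g) : W u g := by
  obtain ⟨hc, hw, hm, -⟩ := h
  rw [ofReal4] at hm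
  refine ⟨hc, hm, fun φ hφ cφ v => ?_⟩
  have hv : v = v 0 • EuclideanSpace.single 0 1 + v 1 • EuclideanSpace.single 1 1 :=
    (pt_eta v).symm
  have hi : ∀ (i : Fin 2) x, g x i = ⟪g x, EuclideanSpace.single i 1⟫_ℝ := fun i x => by
    simp [EuclideanSpace.inner_single_right]
  have k0 := hw φ hφ cφ 0
  have k1 := hw φ hφ cφ 1
  simp_rw [hi] at k0 k1
  have e1 : (fun x => u x * fderiv ℝ φ x v) = fun x =>
      v 0 * (u x * fderiv ℝ φ x (EuclideanSpace.single 0 1))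
        + v 1 * (u x * fderiv ℝ φ x (EuclideanSpace.single 1 1)) := by
    ext x
    conv_lhs => rw [hv]
    simp only [map_add, map_smul, smul_eq_mul]
    ring
  have e2 : (fun x => ⟪g x, v⟫_ℝ * φ x) = fun x =>
      v 0 * (⟪g x, EuclideanSpace.single 0 1⟫_ℝ * φ x)
        + v 1 * (⟪g x, EuclideanSpace.single 1 1⟫_ℝ * φ x) := by
    ext x
    conv_lhs => rw [hv]
    simp only [inner_add_right, inner_smul_right]
    ring
  rw [e1, e2, integral_add ((int_left hc hφ cφ _).const_mul _) ((int_left hc hφ cφ _).const_mul _),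
    integral_add ((int_right hm hφ.continuous cφ _).const_mul _)
      ((int_right hm hφ.continuous cφ _).const_mul _),
    integral_const_mul, integral_const_mul, integral_const_mul, integral_const_mul, k0, k1]
  ring

lemma memD0_of_W {Ω : Set E} {u : E → ℝ} {g : E → E} (h : W u g) (hz : ∀ z, z ∉ Ω → u z = 0) :
    MemD0 4 Ω u g := by
  refine ⟨h.cont, fun φ hφ cφ i => ?_, ofReal4 ▸ h.memLp, hz⟩
  have := h.weak φ hφ cφ (EuclideanSpace.single i 1)
  simpa [EuclideanSpace.inner_single_right] using this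

lemma eLpNorm_rpow4 {g : E → E} (hg : MemLp g 4 volume) :
    eLpNorm g (ENNReal.ofReal 4) volume ^ (4 : ℝ) = ENNReal.ofReal (En g) := by
  rw [ofReal4, ← eLpNorm_pow4 hg, ENNReal.ofReal_pow ENNReal.toReal_nonneg,
    ENNReal.ofReal_toReal hg.2.ne, show (4 : ℝ) = ((4 : ℕ) : ℝ) by norm_num, ENNReal.rpow_natCast]

lemma exp_half : (1 - ((2 : ℕ) : ℝ) / 4) = 1 / 2 := by norm_num

lemma infDist_pos {Ω : Set E} (hΩ : IsOpen Ω) (hne : Ωᶜ.Nonempty) {x : E} (hx : x ∈ Ω) :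
    0 < Metric.infDist x Ωᶜ :=
  (hΩ.isClosed_compl.notMem_iff_infDist_pos hne).1 (by simpa using hx)

lemma quotient_ge {Ω : Set E} (hΩ : IsOpen Ω) (hne : Ωᶜ.Nonempty) {m : ℝ} (hm : 0 < m)
    {v : E → ℝ} {k : E → E} (hW : W v k) (hz : ∀ z, z ∉ Ω → v z = 0) (hv : v ≠ 0)
    (H : ∀ x ∈ Ω, m * v x ^ 4 ≤ Metric.infDist x Ωᶜ ^ 2 * En k) :
    ENNReal.ofReal m ≤ quotient 4 Ω v k := by
  have hEn : 0 < En k := by
    refine lt_of_le_of_ne (En_nonneg k) fun h0 => hv ?_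
    ext x
    by_cases hx : x ∈ Ω
    · have := H x hx
      rw [← h0, mul_zero] at this
      have h2 : v x ^ 4 ≤ 0 := by
        by_contra hc
        push Not at hc
        nlinarith [mul_pos hm hc]
      have h3 : v x ^ 4 = 0 := le_antisymm h2 (by positivity)
      simpa using h3
    · exact hz x hx
  set a := √(√(En k / m)) with ha
  have ha0 : 0 < a := by positivity
  have ha4 : a ^ 4 = En k / m := by
    have : a ^ 4 = (a ^ 2) ^ 2 := by ring
    rw [this, ha, Real.sq_sqrt (Real.sqrt_nonneg _), Real.sq_sqrt (by positivity)]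
  unfold quotient
  rw [eLpNorm_rpow4 hW.memLp, exp_half, eLpNorm_exponent_top]
  have hb : eLpNormEssSup (Ω.indicator fun x => v x / Metric.infDist x Ωᶜ ^ (1 / 2 : ℝ)) volume
      ≤ ENNReal.ofReal a := by
    refine eLpNormEssSup_le_of_ae_bound (Eventually.of_forall fun x => ?_)
    by_cases hx : x ∈ Ω
    · rw [indicator_of_mem hx, Real.norm_eq_abs]
      refine abs_le_of_pow4 ha0.le ?_
      have hd := infDist_pos hΩ hne hx
      have e : (Metric.infDist x Ωᶜ ^ (1 / 2 : ℝ)) ^ 4 = Metric.infDist x Ωᶜ ^ 2 := by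
        rw [← Real.rpow_natCast, ← Real.rpow_mul hd.le, ← Real.rpow_natCast]; norm_num
      rw [ha4, div_pow, e, div_le_div_iff₀ (by positivity) hm]
      linarith [H x hx]
    · rw [indicator_of_notMem hx, norm_zero]; exact ha0.le
  have hc : ENNReal.ofReal (m / En k) ≤ eLpNormEssSup
      (Ω.indicator fun x => v x / Metric.infDist x Ωᶜ ^ (1 / 2 : ℝ)) volume ^ (-4 : ℝ) := by
    rw [ENNReal.rpow_neg, ← inv_div, ENNReal.ofReal_inv_of_pos (by positivity), ENNReal.inv_le_inv,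
      ← ha4, ENNReal.ofReal_pow ha0.le, ← ENNReal.rpow_natCast]
    exact ENNReal.rpow_le_rpow hb (by norm_num)
  calc ENNReal.ofReal m = ENNReal.ofReal (m / En k) * ENNReal.ofReal (En k) := by
        rw [← ENNReal.ofReal_mul (by positivity), div_mul_cancel₀ _ hEn.ne']
    _ ≤ _ := by gcongr

lemma quotient_le {Ω : Set E} (hΩ : IsOpen Ω) (hne : Ωᶜ.Nonempty)
    {u : E → ℝ} {g : E → E} (hW : W u g) {x : E} (hx : x ∈ Ω) (hux : u x = 1) :
    quotient 4 Ω u g ≤ ENNReal.ofReal (Metric.infDist x Ωᶜ ^ 2 * En g) := by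
  unfold quotient
  rw [eLpNorm_rpow4 hW.memLp, exp_half, eLpNorm_exponent_top]
  set q := Ω.indicator fun x => u x / Metric.infDist x Ωᶜ ^ (1 / 2 : ℝ) with hq
  have hd := infDist_pos hΩ hne hx
  have hcont : ContinuousOn (fun y => ‖q y‖ₑ) Ω := by
    refine ContinuousOn.enorm ?_
    refine ContinuousOn.congr (f := fun x => u x / Metric.infDist x Ωᶜ ^ (1 / 2 : ℝ)) ?_
      fun y hy => indicator_of_mem hy _
    refine hW.cont.continuousOn.div ?_ fun y hy => ?_
    · exact ((Metric.continuous_infDist_pt _).rpow_const fun y => Or.inr (by norm_num)).continuousOn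
    · exact (Real.rpow_pos_of_pos (infDist_pos hΩ hne hy) _).ne'
  have hb : ‖q x‖ₑ ≤ eLpNormEssSup q volume := by
    by_contra hc
    push Not at hc
    have hopen : IsOpen (Ω ∩ (fun y => ‖q y‖ₑ) ⁻¹' Ioi (eLpNormEssSup q volume)) :=
      hcont.isOpen_inter_preimage hΩ isOpen_Ioi
    have hnull : volume (Ω ∩ (fun y => ‖q y‖ₑ) ⁻¹' Ioi (eLpNormEssSup q volume)) = 0 := by
      have := ae_le_eLpNormEssSup (f := q) (μ := volume)
      rw [ae_iff] at this
      exact measure_mono_null (fun y hy => by simpa using hy.2) this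
    have := hopen.eq_empty_of_measure_zero hnull
    have hmem : x ∈ Ω ∩ (fun y => ‖q y‖ₑ) ⁻¹' Ioi (eLpNormEssSup q volume) := ⟨hx, hc⟩
    rw [this] at hmem
    exact hmem
  have hqx : ‖q x‖ₑ ^ (4 : ℝ) = ENNReal.ofReal (Metric.infDist x Ωᶜ ^ 2)⁻¹ := by
    have e : (Metric.infDist x Ωᶜ ^ (1 / 2 : ℝ)) ^ 4 = Metric.infDist x Ωᶜ ^ 2 := by
      rw [← Real.rpow_natCast, ← Real.rpow_mul hd.le, ← Real.rpow_natCast]; norm_num
    have hp : 0 < Metric.infDist x Ωᶜ ^ (1 / 2 : ℝ) := Real.rpow_pos_of_pos hd _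
    rw [hq, indicator_of_mem hx, hux, Real.enorm_eq_ofReal (by positivity),
      show (4 : ℝ) = ((4 : ℕ) : ℝ) by norm_num, ENNReal.rpow_natCast,
      ← ENNReal.ofReal_pow (by positivity), div_pow, e, one_pow, one_div]
  have hc : eLpNormEssSup q volume ^ (-4 : ℝ) ≤ ENNReal.ofReal (Metric.infDist x Ωᶜ ^ 2) := by
    rw [ENNReal.rpow_neg, ← inv_inv (ENNReal.ofReal _), ENNReal.inv_le_inv,
      ← ENNReal.ofReal_inv_of_pos (by positivity), ← hqx]
    exact ENNReal.rpow_le_rpow hb (by norm_num)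
  rw [ENNReal.ofReal_mul (by positivity)]
  gcongr

lemma infDist_sim {Ω : Set E} {r : ℝ} (hr : 0 < r) {Q : E ≃ₗᵢ[ℝ] E} {b : E}
    (hT : sim r Q b '' Ω = Ω) (hΩ : IsOpen Ω) (hne : Ωᶜ.Nonempty) (z : E) :
    Metric.infDist (sim r Q b z) Ωᶜ = r * Metric.infDist z Ωᶜ := by
  apply le_antisymm
  · obtain ⟨y, hy, hd⟩ := hΩ.isClosed_compl.exists_infDist_eq_dist hne z
    rw [hd, dist_eq_norm, ← norm_sim_sub hr Q b, ← dist_eq_norm]
    refine Metric.infDist_le_dist_of_mem fun hO => hy ?_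
    rw [← hT] at hO
    obtain ⟨w, hw, he⟩ := hO
    have := congrArg (sim r⁻¹ Q.symm (-(r⁻¹ • Q.symm b))) he
    rw [sim_inv_left hr, sim_inv_left hr] at this
    exact this ▸ hw
  · obtain ⟨y, hy, hd⟩ := hΩ.isClosed_compl.exists_infDist_eq_dist hne (sim r Q b z)
    rw [hd, dist_eq_norm, ← sim_inv_right hr Q b y, norm_sim_sub hr, ← dist_eq_norm]
    gcongr
    refine Metric.infDist_le_dist_of_mem fun hO => hy ?_
    rw [← hT, ← sim_inv_right hr Q b y]
    exact mem_image_of_mem _ hO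

theorem counterexample : ∃ Ω : Set (EuclideanSpace ℝ (Fin 2)),
    IsOpen Ω ∧ IsConnected Ω ∧ Bornology.IsBounded Ω ∧ Ω ≠ Set.univ ∧
    ∃ u v : EuclideanSpace ℝ (Fin 2) → ℝ, IsExtremal 4 Ω u ∧ IsExtremal 4 Ω v ∧
      ∀ (c r : ℝ) (Q : EuclideanSpace ℝ (Fin 2) ≃ₗᵢ[ℝ] EuclideanSpace ℝ (Fin 2))
        (b : EuclideanSpace ℝ (Fin 2)), c ≠ 0 → 0 < r → (fun x => r • Q x + b) '' Ω = Ω →
        v ≠ fun x => c * u (r • Q x + b) := by
  obtain ⟨h, ε, t, m, hh, hε, hε', ht, hm, lower, hex⟩ := real_main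
  set Ω := Om h ε t with hΩ_def
  have hΩ : IsOpen Ω := isOpen_Om h ε t
  have hc1 : cc h 1 ∉ Ω := hole_not_mem (Or.inl rfl) (by simp; exact hε.le)
  have hne : Ωᶜ.Nonempty := ⟨cc h 1, hc1⟩
  have hlam : ENNReal.ofReal m ≤ sharpConst 4 Ω := by
    unfold sharpConst
    refine le_iInf fun v => le_iInf fun k => le_iInf fun hD => le_iInf fun hv => ?_
    exact quotient_ge hΩ hne hm (W_of_memD0 hD) hD.2.2.2 hv
      (lower v k (W_of_memD0 hD) hD.2.2.2)
  have ext : ∀ (x : E) (u : E → ℝ) (g : E → E), W u g → (∀ z, z ∉ Ω → u z = 0) → u x = 1 →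
      Metric.infDist x Ωᶜ ^ 2 * En g = m → x ∈ Ω ∧ IsExtremal 4 Ω u := by
    intro x u g hW hz hux he
    have hx : x ∈ Ω := by
      by_contra hc
      rw [hz x hc] at hux
      exact zero_ne_one hux
    have hu : u ≠ 0 := by
      intro h0
      rw [h0] at hux
      exact zero_ne_one hux
    refine ⟨hx, hu, g, memD0_of_W hW hz, le_antisymm ?_ ?_⟩
    · exact (he ▸ quotient_le hΩ hne hW hx hux).trans hlam
    · unfold sharpConst
      exact iInf_le_of_le u (iInf_le_of_le g (iInf_le_of_le (memD0_of_W hW hz)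
        (iInf_le_of_le hu le_rfl)))
  obtain ⟨x₁, u, g, hx₁, hWu, hzu, hu1, heu⟩ := hex 1 (Or.inl rfl)
  obtain ⟨x₂, v, k, hx₂, hWv, hzv, hv1, hev⟩ := hex (-1) (Or.inr rfl)
  obtain ⟨hx₁Ω, hu⟩ := ext x₁ u g hWu hzu hu1 heu
  obtain ⟨hx₂Ω, hv⟩ := ext x₂ v k hWv hzv hv1 hev
  refine ⟨Ω, hΩ, connected_Om hh hε hε' ht, bounded_Om (by linarith) ht,
    fun h0 => hc1 (h0 ▸ mem_univ _), u, v, hu, hv, fun c r Q b _ hr hT heq => ?_⟩
  have hT' : sim r Q b '' Ω = Ω := hT
  have heq' : ∀ x, v x = c * u (sim r Q b x) := fun x => congrFun heq x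
  set z := sim r⁻¹ Q.symm (-(r⁻¹ • Q.symm b)) x₁ with hz_def
  have hTz : sim r Q b z = x₁ := sim_inv_right hr Q b x₁
  have hzΩ : z ∈ Ω := by
    have : x₁ ∈ sim r Q b '' Ω := hT'.symm ▸ hx₁Ω
    obtain ⟨w, hw, he⟩ := this
    rw [hz_def, ← he, sim_inv_left hr]
    exact hw
  have hTx₂ : sim r Q b x₂ ∈ Ω := hT' ▸ mem_image_of_mem _ hx₂Ω
  have d1 := infDist_pos hΩ hne hx₁Ω
  have d2 := infDist_pos hΩ hne hx₂Ω
  have dz := infDist_pos hΩ hne hzΩ
  have s1 := infDist_sim hr hT' hΩ hne z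
  have s2 := infDist_sim hr hT' hΩ hne x₂
  rw [hTz] at s1
  have hEg : 0 < En g := by
    by_contra hc
    have : En g = 0 := le_antisymm (not_lt.1 hc) (En_nonneg g)
    rw [this, mul_zero] at heu
    linarith
  have hEk : 0 < En k := by
    by_contra hc
    have : En k = 0 := le_antisymm (not_lt.1 hc) (En_nonneg k)
    rw [this, mul_zero] at hev
    linarith
  have hvz : v z = c := by rw [heq', hTz, hu1, mul_one]
  have l1 := lower u g hWu hzu _ hTx₂
  have l2 := lower v k hWv hzv z hzΩ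
  have hc1' : c * u (sim r Q b x₂) = 1 := by rw [← heq', hv1]
  rw [hvz] at l2
  rw [s2] at l1
  -- the function v also peaks at z
  have peak : m * c ^ 4 = Metric.infDist z Ωᶜ ^ 2 * En k := by
    refine le_antisymm l2 ?_
    set D₂ := Metric.infDist x₂ Ωᶜ
    set Dz := Metric.infDist z Ωᶜ
    have a1 : m ≤ c ^ 4 * ((r * D₂) ^ 2 * En g) := by
      have : m = c ^ 4 * (m * u (sim r Q b x₂) ^ 4) := by
        have : c ^ 4 * u (sim r Q b x₂) ^ 4 = 1 := by rw [← mul_pow, hc1', one_pow]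
        calc m = m * (c ^ 4 * u (sim r Q b x₂) ^ 4) := by rw [this, mul_one]
          _ = _ := by ring
      rw [this]
      gcongr
    rw [s1] at heu
    have a2 : Dz ^ 2 * m ≤ c ^ 4 * D₂ ^ 2 * m := by
      calc Dz ^ 2 * m ≤ Dz ^ 2 * (c ^ 4 * ((r * D₂) ^ 2 * En g)) := by gcongr
        _ = c ^ 4 * D₂ ^ 2 * ((r * Dz) ^ 2 * En g) := by ring
        _ = _ := by rw [heu]
    have a3 : Dz ^ 2 ≤ c ^ 4 * D₂ ^ 2 := le_of_mul_le_mul_right a2 hm
    calc Dz ^ 2 * En k ≤ c ^ 4 * D₂ ^ 2 * En k := by gcongr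
      _ = c ^ 4 * (D₂ ^ 2 * En k) := by ring
      _ = _ := by rw [hev]; ring
  by_cases hzx : z = x₂
  · exact rigid hh hε hε' ht hr hT' hx₁ hx₂ (hzx ▸ hTz)
  · have := one_peak (K := Ωᶜ) hWv hzv hzx (fun w j hWw hzw hw => by
      have := lower w j hWw hzw z hzΩ
      rw [hw, hvz, peak] at this
      exact le_of_mul_le_mul_left this (by positivity)) (fun w j hWw hzw hw => by
      have := lower w j hWw hzw x₂ hx₂Ω
      rw [hw, hv1, one_pow, mul_one, ← hev] at this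
      exact le_of_mul_le_mul_left this (by positivity))
    linarith

end Pool.Agent.MP_e9cdae_an
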