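import Pool.Agent.MP_e9cdae_an.Basic

/-! Morrey's inequality in the plane for exponent 4. -/

open MeasureTheory Set Filter Topology
open scoped ContDiff InnerProductSpace ENNReal Gradient

namespace Pool.Agent.MP_e9cdae_an

lemma exists_primitive {h : ℝ → ℝ} (hh : ContDiff ℝ ∞ h) (hc : HasCompactSupport h)
    (h0 : ∫ s, h s = 0) : ∃ F : ℝ → ℝ, ContDiff ℝ ∞ F ∧ HasCompactSupport F ∧ deriv F = h := by
  obtain ⟨L, hL⟩ := hc.isCompact.isBounded.subset_ball 0
  have hz : ∀ s, L ≤ |s| → h s = 0 := by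
    intro s hs
    by_contra hne
    have := hL (subset_tsupport h hne)
    simp only [Metric.mem_ball, dist_zero_right, Real.norm_eq_abs] at this
    linarith
  have hd : deriv (fun s => ∫ t in (-|L|)..s, h t) = h := by
    ext s
    exact hh.continuous.deriv_integral _ _ _
  refine ⟨fun s => ∫ t in (-|L|)..s, h t, ?_, ?_, hd⟩
  · rw [contDiff_infty_iff_deriv, hd]
    refine ⟨fun s => ?_, hh⟩
    exact (hh.continuous.integral_hasStrictDerivAt _ _).hasDerivAt.differentiableAt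
  · refine HasCompactSupport.intro (isCompact_Icc (a := -|L|) (b := |L|)) fun s hs => ?_
    rw [mem_Icc, not_and_or, not_le, not_le] at hs
    rcases hs with hs | hs
    · rw [intervalIntegral.integral_congr (g := fun _ => 0)]
      · simp
      · intro t ht
        rw [uIcc_of_ge hs.le] at ht
        apply hz
        have := ht.2
        have h1 := le_abs_self L
        have h2 := neg_le_abs t
        linarith
    · rw [intervalIntegral.integral_eq_integral_of_support_subset, h0]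
      intro t ht
      by_contra hne
      apply ht
      apply hz
      rw [mem_Ioc, not_and_or, not_lt, not_le] at hne
      have h1 := le_abs_self L
      have h2 := neg_le_abs t
      have h3 := le_abs_self t
      rcases hne with hne | hne <;> linarith

lemma pairing_bound {φ : E → ℝ} (hφ : Continuous φ) (hc : HasCompactSupport φ) :
    ∃ C : ℝ, 0 ≤ C ∧ ∀ (g : E → E), MemLp g 4 volume → ∀ δ : ℝ, 0 < δ → En g ≤ δ ^ 4 →
      ∀ v : E, ‖v‖ ≤ 1 → |∫ x, ⟪g x, v⟫_ℝ * φ x| ≤ C * δ := by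
  obtain ⟨M, hM⟩ := hφ.bounded_above_of_compact_support hc
  have hM0 : 0 ≤ M := (norm_nonneg _).trans (hM 0)
  have hi : Integrable (fun x => ‖φ x‖) := (hφ.integrable_of_hasCompactSupport hc).norm
  have hI : 0 ≤ ∫ x, ‖φ x‖ := integral_nonneg fun x => norm_nonneg _
  refine ⟨M + ∫ x, ‖φ x‖, by positivity, fun g hg δ hδ hE v hv => ?_⟩
  have hb : ∀ x, ‖⟪g x, v⟫_ℝ * φ x‖ ≤ M / δ ^ 3 * ‖g x‖ ^ 4 + δ * ‖φ x‖ := by
    intro x
    have h1 : ‖⟪g x, v⟫_ℝ‖ ≤ ‖g x‖ := by
      calc _ ≤ ‖g x‖ * ‖v‖ := norm_inner_le_norm _ _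
        _ ≤ ‖g x‖ * 1 := by gcongr
        _ = _ := mul_one _
    rw [norm_mul]
    have hφx := hM x
    rcases le_total ‖g x‖ δ with h | h
    · have : ‖⟪g x, v⟫_ℝ‖ * ‖φ x‖ ≤ δ * ‖φ x‖ := by gcongr; exact h1.trans h
      have h3 : 0 ≤ M / δ ^ 3 * ‖g x‖ ^ 4 := by positivity
      linarith
    · have h2 : ‖g x‖ ≤ ‖g x‖ ^ 4 / δ ^ 3 := by
        rw [le_div_iff₀ (by positivity)]
        calc ‖g x‖ * δ ^ 3 ≤ ‖g x‖ * ‖g x‖ ^ 3 := by gcongr
          _ = _ := by ring
      have h3 : ‖⟪g x, v⟫_ℝ‖ * ‖φ x‖ ≤ ‖g x‖ ^ 4 / δ ^ 3 * M := by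
        gcongr; exact h1.trans h2
      have h4 : 0 ≤ δ * ‖φ x‖ := by positivity
      have h5 : ‖g x‖ ^ 4 / δ ^ 3 * M = M / δ ^ 3 * ‖g x‖ ^ 4 := by ring
      linarith
  have := norm_integral_le_of_norm_le
    (((int4 hg).const_mul (M / δ ^ 3)).add (hi.const_mul δ)) (Eventually.of_forall hb)
  rw [Real.norm_eq_abs] at this
  refine this.trans ?_
  simp only [Pi.add_apply]
  rw [integral_add ((int4 hg).const_mul (M / δ ^ 3)) (hi.const_mul δ), integral_const_mul,
    integral_const_mul]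
  have h6 : M / δ ^ 3 * (∫ x, ‖g x‖ ^ 4) ≤ M / δ ^ 3 * δ ^ 4 := by
    gcongr; exact hE
  have h7 : M / δ ^ 3 * δ ^ 4 = M * δ := by field_simp
  nlinarith

/-- tensor product of two one-variable functions -/
noncomputable def tens (a b : ℝ → ℝ) : E → ℝ := fun z => a (z 0) * b (z 1)

lemma contDiff_tens {a b : ℝ → ℝ} (ha : ContDiff ℝ ∞ a) (hb : ContDiff ℝ ∞ b) :
    ContDiff ℝ ∞ (tens a b) := by
  unfold tens
  exact (ha.comp (EuclideanSpace.proj (0 : Fin 2) : E →L[ℝ] ℝ).contDiff).mul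
    (hb.comp (EuclideanSpace.proj (1 : Fin 2) : E →L[ℝ] ℝ).contDiff)

lemma norm_sq_E (z : E) : ‖z‖ ^ 2 = z 0 ^ 2 + z 1 ^ 2 := by
  rw [EuclideanSpace.norm_sq_eq]; simp [Fin.sum_univ_two]

lemma cs_tens {a b : ℝ → ℝ} (ha : HasCompactSupport a) (hb : HasCompactSupport b) :
    HasCompactSupport (tens a b) := by
  obtain ⟨L, hL⟩ := ha.isCompact.isBounded.subset_ball 0
  obtain ⟨L', hL'⟩ := hb.isCompact.isBounded.subset_ball 0
  refine HasCompactSupport.intro (isCompact_closedBall (0 : E) (|L| + |L'|)) fun z hz => ?_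
  by_contra hne
  apply hz
  have h1 : a (z 0) ≠ 0 := fun h => hne (by simp [tens, h])
  have h2 : b (z 1) ≠ 0 := fun h => hne (by simp [tens, h])
  have h3 := hL (subset_tsupport a h1)
  have h4 := hL' (subset_tsupport b h2)
  simp only [Metric.mem_ball, dist_zero_right, Real.norm_eq_abs] at h3 h4
  rw [Metric.mem_closedBall, dist_zero_right]
  have h5 := norm_sq_E z
  have h6 : |z 0| ≤ |L| := h3.le.trans (le_abs_self _)
  have h7 : |z 1| ≤ |L'| := h4.le.trans (le_abs_self _)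
  have h8 : z 0 ^ 2 ≤ |L| ^ 2 := by rw [← sq_abs]; gcongr
  have h9 : z 1 ^ 2 ≤ |L'| ^ 2 := by rw [← sq_abs]; gcongr
  have h10 : 0 ≤ |L| * |L'| := by positivity
  apply le_of_sq_le_sq _ (by positivity)
  nlinarith

lemma fderiv_tens {a b : ℝ → ℝ} (ha : ContDiff ℝ ∞ a) (hb : ContDiff ℝ ∞ b) (z v : E) :
    fderiv ℝ (tens a b) z v = deriv a (z 0) * b (z 1) * v 0 + a (z 0) * deriv b (z 1) * v 1 := by
  have h0 : HasFDerivAt (fun z : E => a (z 0))
      (deriv a (z 0) • (EuclideanSpace.proj (0 : Fin 2) : E →L[ℝ] ℝ)) z :=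
    ((ha.differentiable (by simp)) (z 0)).hasDerivAt.comp_hasFDerivAt z
      (EuclideanSpace.proj (0 : Fin 2) : E →L[ℝ] ℝ).hasFDerivAt
  have h1 : HasFDerivAt (fun z : E => b (z 1))
      (deriv b (z 1) • (EuclideanSpace.proj (1 : Fin 2) : E →L[ℝ] ℝ)) z :=
    ((hb.differentiable (by simp)) (z 1)).hasDerivAt.comp_hasFDerivAt z
      (EuclideanSpace.proj (1 : Fin 2) : E →L[ℝ] ℝ).hasFDerivAt
  have h2 := (h0.mul h1).fderiv
  have h3 : tens a b = (fun z : E => a (z 0)) * (fun z : E => b (z 1)) := rfl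
  rw [h3, h2]
  simp
  ring

lemma int_mul_cs {u φ : E → ℝ} (hu : Continuous u) (hφ : Continuous φ)
    (hc : HasCompactSupport φ) : Integrable (fun x => u x * φ x) :=
  (hu.mul hφ).integrable_of_hasCompactSupport hc.mul_left

lemma tens_bound {a₁ a₂ b₁ b₂ : ℝ → ℝ} (ha₁ : ContDiff ℝ ∞ a₁) (ha₂ : ContDiff ℝ ∞ a₂)
    (hb₁ : ContDiff ℝ ∞ b₁) (hb₂ : ContDiff ℝ ∞ b₂)
    (ca₁ : HasCompactSupport a₁) (ca₂ : HasCompactSupport a₂)
    (cb₁ : HasCompactSupport b₁) (cb₂ : HasCompactSupport b₂)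
    (e₁ : ∫ s, a₁ s = ∫ s, b₁ s) (e₂ : ∫ s, a₂ s = ∫ s, b₂ s) :
    ∃ C : ℝ, 0 ≤ C ∧ ∀ (u : E → ℝ) (g : E → E), W u g → ∀ δ : ℝ, 0 < δ → En g ≤ δ ^ 4 →
      |(∫ z, u z * tens a₁ a₂ z) - ∫ z, u z * tens b₁ b₂ z| ≤ C * δ := by
  obtain ⟨F, hF, cF, dF⟩ := exists_primitive (h := fun s => a₁ s - b₁ s) (ha₁.sub hb₁)
    (ca₁.sub cb₁) (by
      rw [integral_sub (ha₁.continuous.integrable_of_hasCompactSupport ca₁)
        (hb₁.continuous.integrable_of_hasCompactSupport cb₁), e₁, sub_self])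
  obtain ⟨G, hG, cG, dG⟩ := exists_primitive (h := fun s => a₂ s - b₂ s) (ha₂.sub hb₂)
    (ca₂.sub cb₂) (by
      rw [integral_sub (ha₂.continuous.integrable_of_hasCompactSupport ca₂)
        (hb₂.continuous.integrable_of_hasCompactSupport cb₂), e₂, sub_self])
  obtain ⟨C₁, hC₁, b1⟩ := pairing_bound (contDiff_tens hF ha₂).continuous (cs_tens cF ca₂)
  obtain ⟨C₂, hC₂, b2⟩ := pairing_bound (contDiff_tens hb₁ hG).continuous (cs_tens cb₁ cG)
  refine ⟨C₁ + C₂, by positivity, fun u g h δ hδ hE => ?_⟩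
  have k1 := h.weak _ (contDiff_tens hF ha₂) (cs_tens cF ca₂) (EuclideanSpace.single 0 1)
  have k2 := h.weak _ (contDiff_tens hb₁ hG) (cs_tens cb₁ cG) (EuclideanSpace.single 1 1)
  have l1 := b1 g h.memLp δ hδ hE (EuclideanSpace.single 0 1) (by simp)
  have l2 := b2 g h.memLp δ hδ hE (EuclideanSpace.single 1 1) (by simp)
  have i1 := int_left h.cont (contDiff_tens hF ha₂) (cs_tens cF ca₂) (EuclideanSpace.single 0 1)
  have i2 := int_left h.cont (contDiff_tens hb₁ hG) (cs_tens cb₁ cG) (EuclideanSpace.single 1 1)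
  rw [← integral_sub (int_mul_cs h.cont (contDiff_tens ha₁ ha₂).continuous (cs_tens ca₁ ca₂))
    (int_mul_cs h.cont (contDiff_tens hb₁ hb₂).continuous (cs_tens cb₁ cb₂))]
  have e : (fun z => u z * tens a₁ a₂ z - u z * tens b₁ b₂ z) = fun z =>
      u z * fderiv ℝ (tens F a₂) z (EuclideanSpace.single 0 1)
        + u z * fderiv ℝ (tens b₁ G) z (EuclideanSpace.single 1 1) := by
    ext z
    rw [fderiv_tens hF ha₂, fderiv_tens hb₁ hG, dF, dG]
    simp [tens]
    ring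
  rw [e, integral_add i1 i2, k1, k2]
  rw [abs_le] at l1 l2 ⊢
  constructor <;> nlinarith [l1.1, l1.2, l2.1, l2.2]

noncomputable def bump1 : ContDiffBump (0 : ℝ) := ⟨1, 2, by norm_num, by norm_num⟩

noncomputable def e0 : E := EuclideanSpace.single 0 1

lemma norm_e0 : ‖e0‖ = 1 := by simp [e0]

lemma morrey_unit : ∃ C : ℝ, 0 < C ∧ ∀ (u : E → ℝ) (g : E → E), W u g → ∀ δ : ℝ, 0 < δ →
    En g ≤ δ ^ 4 → |u e0 - u 0| ≤ C * δ := by
  set a : ℝ → ℝ := fun s => bump1 s with ha_def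
  have ha : ContDiff ℝ ∞ a := bump1.contDiff
  have ca : HasCompactSupport a := bump1.hasCompactSupport
  set b : ℝ → ℝ := fun s => 4 * a (4 * s) with hb_def
  have hb : ContDiff ℝ ∞ b := contDiff_const.mul (ha.comp (contDiff_const.mul contDiff_id))
  have cb : HasCompactSupport b := by
    have : HasCompactSupport fun s : ℝ => a (4 * s) :=
      ca.comp_homeomorph (Homeomorph.mulLeft₀ (4 : ℝ) (by norm_num))
    exact this.mul_left
  have eb : ∫ s, a s = ∫ s, b s := by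
    simp only [hb_def]
    rw [integral_const_mul, Measure.integral_comp_mul_left a 4]
    norm_num
    ring
  set c : ℝ → ℝ := fun s => a (s - 1) with hc_def
  have hc : ContDiff ℝ ∞ c := ha.comp (contDiff_id.sub contDiff_const)
  have cc : HasCompactSupport c := ca.comp_homeomorph (Homeomorph.subRight (1 : ℝ))
  have ec : ∫ s, a s = ∫ s, c s := (integral_sub_right_eq_self a 1).symm
  obtain ⟨C₁, hC₁, k1⟩ := tens_bound ha ha hb hb ca ca cb cb eb eb
  obtain ⟨C₂, hC₂, k2⟩ := tens_bound ha ha hc ha ca ca cc ca ec rfl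
  set A := tens a a with hA_def
  have hA : Continuous A := (contDiff_tens ha ha).continuous
  have cA : HasCompactSupport A := cs_tens ca ca
  have hI : 0 < ∫ z, A z := by
    refine hA.integral_pos_of_hasCompactSupport_nonneg_nonzero (x := 0) cA ?_ ?_
    · intro z; exact mul_nonneg (bump1.nonneg' _) (bump1.nonneg' _)
    · have : bump1 (0 : ℝ) = 1 := bump1.one_of_mem_closedBall (by simp [bump1])
      simp [hA_def, tens, ha_def, this]
  -- one scaling step
  have step : ∀ (u : E → ℝ) (g : E → E), W u g → ∀ δ : ℝ, 0 < δ → En g ≤ δ ^ 4 →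
      |(∫ z, u z * A z) - ∫ z, u ((1 / 4 : ℝ) • z) * A z| ≤ C₁ * δ := by
    intro u g h δ hδ hE
    have e1 := integral_comp_sim (r := 4) (by norm_num) (LinearIsometryEquiv.refl ℝ E) 0
      (fun z => u ((1 / 4 : ℝ) • z) * A z)
    have e2 : ∫ z, u ((1 / 4 : ℝ) • z) * A z = ∫ z, u z * tens b b z := by
      have e3 : (fun z => u z * tens b b z) = fun z => 16 *
          (u ((1 / 4 : ℝ) • sim 4 (LinearIsometryEquiv.refl ℝ E) 0 z) *
            A (sim 4 (LinearIsometryEquiv.refl ℝ E) 0 z)) := by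
        ext z
        simp [sim, smul_smul, hA_def, tens, hb_def]
        ring
      rw [e3, integral_const_mul, e1]
      ring
    rw [e2]
    exact k1 u g h δ hδ hE
  have iter : ∀ (u : E → ℝ) (g : E → E), W u g → ∀ δ : ℝ, 0 < δ → En g ≤ δ ^ 4 → ∀ k : ℕ,
      |(∫ z, u z * A z) - ∫ z, u (((1 / 4 : ℝ) ^ k) • z) * A z| ≤ C₁ * δ * (2 - 2 * (1 / 2) ^ k) := by
    intro u g h δ hδ hE k
    induction k with
    | zero => simp
    | succ k ih =>
      have hr : (0 : ℝ) < (1 / 4) ^ k := by positivity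
      have hW := h.comp_sim hr (LinearIsometryEquiv.refl ℝ E) 0
      have hE' := En_comp_sim hr (LinearIsometryEquiv.refl ℝ E) 0 g
      have hs := step _ _ hW (δ * (1 / 2) ^ k) (by positivity) (by
        rw [hE']
        have : (((1 : ℝ) / 4) ^ k) ^ 2 = ((1 / 2) ^ k) ^ 4 := by
          rw [← pow_mul, ← pow_mul, mul_comm k 2, mul_comm k 4, pow_mul, pow_mul]; norm_num
        rw [this, mul_pow, mul_comm]
        gcongr)
      simp only [sim, LinearIsometryEquiv.coe_refl, id_eq, add_zero, smul_smul] at hs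
      rw [pow_succ (1 / 4 : ℝ) k, pow_succ (1 / 2 : ℝ) k]
      rw [abs_le] at ih hs ⊢
      constructor <;> nlinarith [ih.1, ih.2, hs.1, hs.2]
  have lim : ∀ (u : E → ℝ), Continuous u →
      Tendsto (fun k : ℕ => ∫ z, u (((1 / 4 : ℝ) ^ k) • z) * A z) atTop (𝓝 (u 0 * ∫ z, A z)) := by
    intro u hu
    obtain ⟨R, hR⟩ := cA.isCompact.isBounded.subset_closedBall 0
    obtain ⟨M, hM⟩ := (isCompact_closedBall (0 : E) R).exists_bound_of_continuousOn hu.continuousOn
    rw [← integral_const_mul]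
    refine tendsto_integral_of_dominated_convergence (fun z => M * ‖A z‖) ?_ ?_ ?_ ?_
    · intro k
      exact ((hu.comp (continuous_const_smul _)).mul hA).aestronglyMeasurable
    · exact (hA.integrable_of_hasCompactSupport cA).norm.const_mul M
    · intro k
      refine Eventually.of_forall fun z => ?_
      by_cases hz : A z = 0
      · simp [hz]
      · rw [norm_mul]
        gcongr
        apply hM
        have := hR (subset_tsupport A hz)
        rw [Metric.mem_closedBall, dist_zero_right] at this ⊢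
        rw [norm_smul, Real.norm_of_nonneg (by positivity)]
        have h1 : ((1 / 4 : ℝ)) ^ k ≤ 1 := pow_le_one₀ (by norm_num) (by norm_num)
        calc _ ≤ 1 * ‖z‖ := by gcongr
          _ ≤ R := by linarith
    · refine Eventually.of_forall fun z => ?_
      refine Tendsto.mul_const _ ?_
      have h1 : Tendsto (fun k : ℕ => ((1 / 4 : ℝ) ^ k) • z) atTop (𝓝 0) := by
        have := (tendsto_pow_atTop_nhds_zero_of_lt_one (r := (1 / 4 : ℝ)) (by norm_num)
          (by norm_num)).smul_const z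
        simpa using this
      exact (hu.tendsto 0).comp h1
  have center : ∀ (u : E → ℝ) (g : E → E), W u g → ∀ δ : ℝ, 0 < δ → En g ≤ δ ^ 4 →
      |(∫ z, u z * A z) - u 0 * ∫ z, A z| ≤ C₁ * δ * 2 := by
    intro u g h δ hδ hE
    have h1 := ((lim u h.cont).const_sub (∫ z, u z * A z)).abs
    refine le_of_tendsto' h1 fun k => (iter u g h δ hδ hE k).trans ?_
    have : (0 : ℝ) ≤ (1 / 2) ^ k := by positivity
    have : 0 ≤ C₁ * δ := by positivity
    nlinarith
  refine ⟨(4 * C₁ + C₂ + 1) / ∫ z, A z, by positivity, fun u g h δ hδ hE => ?_⟩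
  have c1 := center u g h δ hδ hE
  have hW := h.comp_sim one_pos (LinearIsometryEquiv.refl ℝ E) e0
  have hE' := En_comp_sim one_pos (LinearIsometryEquiv.refl ℝ E) e0 g
  have c2 := center _ _ hW δ hδ (by rw [hE']; simpa using hE)
  have c3 := k2 u g h δ hδ hE
  have e4 : ∫ z, u z * tens c a z = ∫ z, u (sim 1 (LinearIsometryEquiv.refl ℝ E) e0 z) * A z := by
    rw [← integral_add_right_eq_self _ e0]
    congr 1
    ext z
    simp [sim, tens, hA_def, hc_def, e0]
  rw [e4] at c3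
  have e5 : sim 1 (LinearIsometryEquiv.refl ℝ E) e0 0 = e0 := by simp [sim]
  rw [e5] at c2
  rw [div_mul_eq_mul_div, le_div_iff₀ hI, ← abs_of_pos hI, ← abs_mul, abs_le]
  rw [abs_le] at c1 c2 c3
  constructor <;> nlinarith [c1.1, c1.2, c2.1, c2.2, c3.1, c3.2]

lemma exists_rot (v : E) (hv : ‖v‖ = 1) : ∃ Q : E ≃ₗᵢ[ℝ] E, Q e0 = v :=
  ⟨_, Submodule.reflection_sub (by rw [norm_e0, hv])⟩

lemma exists_sim {x y : E} (hxy : x ≠ y) : ∃ Q : E ≃ₗᵢ[ℝ] E,
    sim ‖y - x‖ Q x 0 = x ∧ sim ‖y - x‖ Q x e0 = y := by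
  have hr : 0 < ‖y - x‖ := norm_pos_iff.2 (sub_ne_zero.2 hxy.symm)
  obtain ⟨Q, hQ⟩ := exists_rot (‖y - x‖⁻¹ • (y - x)) (by
    rw [norm_smul, norm_inv, norm_norm, inv_mul_cancel₀ hr.ne'])
  refine ⟨Q, by simp [sim], ?_⟩
  simp [sim, hQ, smul_smul, mul_inv_cancel₀ hr.ne']

theorem morrey : ∃ C : ℝ, 0 < C ∧ ∀ (u : E → ℝ) (g : E → E), W u g → ∀ x y : E,
    (u y - u x) ^ 4 ≤ C * ‖y - x‖ ^ 2 * En g := by
  obtain ⟨C, hC, h⟩ := morrey_unit
  refine ⟨C ^ 4, by positivity, fun u g hW x y => ?_⟩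
  by_cases hxy : x = y
  · simp [hxy]
  have hr : 0 < ‖y - x‖ := norm_pos_iff.2 (sub_ne_zero.2 (Ne.symm hxy))
  obtain ⟨Q, h0, h1⟩ := exists_sim hxy
  have hW' := hW.comp_sim hr Q x
  have hE := En_comp_sim hr Q x g
  have hEn := En_nonneg g
  refine le_of_forall_pos_le_add fun ε hε => ?_
  set t := ‖y - x‖ ^ 2 * En g + ε / C ^ 4 with ht
  have htpos : 0 < t := by positivity
  have hδ : (√(√t)) ^ 4 = t := by
    have : (√(√t)) ^ 4 = ((√(√t)) ^ 2) ^ 2 := by ring
    rw [this, Real.sq_sqrt (Real.sqrt_nonneg _), Real.sq_sqrt htpos.le]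
  have := h _ _ hW' (√(√t)) (by positivity) (by
    rw [hE, hδ, ht]
    have : 0 < ε / C ^ 4 := by positivity
    linarith)
  simp only [h0, h1] at this
  have h2 : |u y - u x| ^ 4 ≤ (C * √(√t)) ^ 4 := by gcongr
  rw [mul_pow, hδ, ht] at h2
  have h3 : |u y - u x| ^ 4 = (u y - u x) ^ 4 := by
    rw [show (4 : ℕ) = 2 * 2 from rfl, pow_mul, pow_mul, sq_abs]
  rw [h3] at h2
  have h4 : C ^ 4 * (‖y - x‖ ^ 2 * En g + ε / C ^ 4) = C ^ 4 * ‖y - x‖ ^ 2 * En g + ε := by
    field_simp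
  linarith

end Pool.Agent.MP_e9cdae_an
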